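import Mathlib

set_option autoImplicit false

namespace Pool.Agent.V1114.Nil

open Submodule

abbrev E := ℕ →₀ ℚ

/-- vectors supported in `[0,B)` -/
def EB (B : ℕ) : Submodule ℚ E where
  carrier := {x | ∀ i, B ≤ i → x i = 0}
  add_mem' := by
    intro x y hx hy i hi
    simp [hx i hi, hy i hi]
  zero_mem' := by intro i _; rfl
  smul_mem' := by
    intro c x hx i hi
    simp [hx i hi]

theorem mem_EB {B : ℕ} {x : E} : x ∈ EB B ↔ ∀ i, B ≤ i → x i = 0 := Iff.rfl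

theorem EB_mono {B B' : ℕ} (h : B ≤ B') : EB B ≤ EB B' := fun _ hx i hi => hx i (h.trans hi)

theorem exists_EB (x : E) : ∃ B, x ∈ EB B := by
  refine ⟨x.support.sup id + 1, fun i hi => ?_⟩
  by_contra h
  have : i ∈ x.support := Finsupp.mem_support_iff.2 h
  have := Finset.le_sup (f := id) this
  simp at this
  omega

instance finEB (B : ℕ) : FiniteDimensional ℚ (EB B) := by
  let f : EB B →ₗ[ℚ] (Fin B → ℚ) :=
    { toFun := fun x i => x.1 i
      map_add' := fun x y => by ext i; simp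
      map_smul' := fun c x => by ext i; simp }
  refine FiniteDimensional.of_injective f ?_
  intro x y h
  apply Subtype.ext
  apply Finsupp.ext
  intro i
  by_cases hi : i < B
  · exact congrFun h ⟨i, hi⟩
  · rw [x.2 i (not_lt.1 hi), y.2 i (not_lt.1 hi)]

abbrev Rel := ℤ → Submodule ℚ (E × E)

def PT (R : Rel) (x : ℤ → E) (a b : ℤ) : Prop := ∀ i, a ≤ i → i < b → (x i, x (i+1)) ∈ R i

def Tr (R : Rel) (x : ℤ → E) : Prop := ∀ i, (x i, x (i+1)) ∈ R i

section linear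
variable {R : Rel} {x y : ℤ → E} {a b a' b' : ℤ}

theorem Tr.pt (h : Tr R x) (a b : ℤ) : PT R x a b := fun i _ _ => h i

theorem PT.mono (h : PT R x a b) (ha : a ≤ a') (hb : b' ≤ b) : PT R x a' b' :=
  fun i h1 h2 => h i (ha.trans h1) (h2.trans_le hb)

theorem PT.add (h : PT R x a b) (h' : PT R y a b) : PT R (x + y) a b :=
  fun i h1 h2 => by simpa using (R i).add_mem (h i h1 h2) (h' i h1 h2)

theorem PT.sub (h : PT R x a b) (h' : PT R y a b) : PT R (x - y) a b :=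
  fun i h1 h2 => by simpa using (R i).sub_mem (h i h1 h2) (h' i h1 h2)

theorem PT.smul (c : ℚ) (h : PT R x a b) : PT R (c • x) a b :=
  fun i h1 h2 => by simpa using (R i).smul_mem c (h i h1 h2)

theorem Tr.add (h : Tr R x) (h' : Tr R y) : Tr R (x + y) :=
  fun i => by simpa using (R i).add_mem (h i) (h' i)

theorem Tr.sub (h : Tr R x) (h' : Tr R y) : Tr R (x - y) :=
  fun i => by simpa using (R i).sub_mem (h i) (h' i)

theorem Tr.smul (c : ℚ) (h : Tr R x) : Tr R (c • x) :=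
  fun i => by simpa using (R i).smul_mem c (h i)

theorem Tr.zero : Tr R (0 : ℤ → E) := fun i => by
  simp only [Pi.zero_apply]; exact (R i).zero_mem

theorem PT.zero : PT R (0 : ℤ → E) a b := Tr.zero.pt a b

end linear

/-- vectors through which a bi-infinite trajectory passes at time `i` -/
def T (R : Rel) (i : ℤ) : Submodule ℚ E where
  carrier := {z | ∃ x, Tr R x ∧ x i = z}
  add_mem' := by
    rintro _ _ ⟨x, hx, rfl⟩ ⟨y, hy, rfl⟩
    exact ⟨x + y, hx.add hy, rfl⟩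
  zero_mem' := ⟨0, Tr.zero, rfl⟩
  smul_mem' := by
    rintro c _ ⟨x, hx, rfl⟩
    exact ⟨c • x, hx.smul c, rfl⟩

def Fwd (R : Rel) (k : ℕ) (i : ℤ) : Submodule ℚ E where
  carrier := {z | ∃ x, PT R x i (i+k) ∧ x i = z}
  add_mem' := by
    rintro _ _ ⟨x, hx, rfl⟩ ⟨y, hy, rfl⟩
    exact ⟨x + y, hx.add hy, rfl⟩
  zero_mem' := ⟨0, PT.zero, rfl⟩
  smul_mem' := by
    rintro c _ ⟨x, hx, rfl⟩
    exact ⟨c • x, hx.smul c, rfl⟩

def Bwd (R : Rel) (k : ℕ) (i : ℤ) : Submodule ℚ E where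
  carrier := {z | ∃ x, PT R x (i-k) i ∧ x i = z}
  add_mem' := by
    rintro _ _ ⟨x, hx, rfl⟩ ⟨y, hy, rfl⟩
    exact ⟨x + y, hx.add hy, rfl⟩
  zero_mem' := ⟨0, PT.zero, rfl⟩
  smul_mem' := by
    rintro c _ ⟨x, hx, rfl⟩
    exact ⟨c • x, hx.smul c, rfl⟩

theorem mem_T {R : Rel} {i : ℤ} {z : E} : z ∈ T R i ↔ ∃ x, Tr R x ∧ x i = z := Iff.rfl
theorem mem_Fwd {R : Rel} {k : ℕ} {i : ℤ} {z : E} :
    z ∈ Fwd R k i ↔ ∃ x, PT R x i (i+k) ∧ x i = z := Iff.rfl
theorem mem_Bwd {R : Rel} {k : ℕ} {i : ℤ} {z : E} :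
    z ∈ Bwd R k i ↔ ∃ x, PT R x (i-k) i ∧ x i = z := Iff.rfl

theorem Fwd_anti {R : Rel} {k k' : ℕ} (h : k ≤ k') (i : ℤ) : Fwd R k' i ≤ Fwd R k i := by
  rintro z ⟨x, hx, rfl⟩
  exact ⟨x, hx.mono le_rfl (by omega), rfl⟩

theorem Bwd_anti {R : Rel} {k k' : ℕ} (h : k ≤ k') (i : ℤ) : Bwd R k' i ≤ Bwd R k i := by
  rintro z ⟨x, hx, rfl⟩
  exact ⟨x, hx.mono (by omega) le_rfl, rfl⟩

def Bdd (R : Rel) (B : ℕ) : Prop := ∀ i x y, (x, y) ∈ R i → x ∈ EB B ∧ y ∈ EB B

/-- periodicity in a strong form -/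
def Per (R : Rel) (p : ℤ) : Prop := ∀ i j, p ∣ i - j → R i = R j

theorem Fwd_succ_le {R : Rel} {B : ℕ} (hB : Bdd R B) (k : ℕ) (i : ℤ) : Fwd R (k+1) i ≤ EB B := by
  rintro z ⟨x, hx, rfl⟩
  exact (hB i _ _ (hx i le_rfl (by push_cast; omega))).1

theorem Bwd_succ_le {R : Rel} {B : ℕ} (hB : Bdd R B) (k : ℕ) (i : ℤ) : Bwd R (k+1) i ≤ EB B := by
  rintro z ⟨x, hx, rfl⟩
  have := (hB (i-1) _ _ (hx (i-1) (by push_cast; omega) (by omega))).2
  simpa using this

theorem shift_PT {R : Rel} {p : ℤ} (hp : Per R p) {i j : ℤ} (h : p ∣ i - j) {x : ℤ → E} {a b : ℤ}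
    (hx : PT R x a b) : PT R (fun t => x (t + (i - j))) (a - (i - j)) (b - (i - j)) := by
  intro t h1 h2
  have := hx (t + (i-j)) (by omega) (by omega)
  have e : R t = R (t + (i-j)) := hp _ _ (by
    have : t - (t + (i - j)) = -(i-j) := by ring
    rw [this]; exact (dvd_neg).2 h)
  rw [e]
  have e2 : t + 1 + (i - j) = t + (i-j) + 1 := by ring
  simp only [e2]
  exact this

theorem Fwd_per {R : Rel} {p : ℤ} (hp : Per R p) {i j : ℤ} (h : p ∣ i - j) (k : ℕ) :
    Fwd R k i ≤ Fwd R k j := by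
  rintro z ⟨x, hx, rfl⟩
  refine ⟨fun t => x (t + (i-j)), ?_, by simp⟩
  have := shift_PT hp h hx
  have e1 : i - (i-j) = j := by ring
  have e2 : i + k - (i-j) = j + k := by ring
  rwa [e1, e2] at this

theorem Bwd_per {R : Rel} {p : ℤ} (hp : Per R p) {i j : ℤ} (h : p ∣ i - j) (k : ℕ) :
    Bwd R k i ≤ Bwd R k j := by
  rintro z ⟨x, hx, rfl⟩
  refine ⟨fun t => x (t + (i-j)), ?_, by simp⟩
  have := shift_PT hp h hx
  have e1 : i - (i-j) = j := by ring
  have e2 : i - k - (i-j) = j - k := by ring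
  rwa [e1, e2] at this

theorem T_per {R : Rel} {p : ℤ} (hp : Per R p) {i j : ℤ} (h : p ∣ i - j) :
    T R i ≤ T R j := by
  rintro z ⟨x, hx, rfl⟩
  refine ⟨fun t => x (t + (i-j)), ?_, by simp⟩
  intro t
  exact shift_PT hp h (hx.pt (t + (i-j)) (t + (i-j) + 1)) t (by omega) (by omega)

/-- stabilization of an antitone sequence of submodules bounded by a f.d. one -/
theorem stab {B : ℕ} (A : ℕ → Submodule ℚ E) (hA : ∀ k k', k ≤ k' → A k' ≤ A k)
    (hB : ∀ k, A k ≤ EB B) : ∃ k0, ∀ k, k0 ≤ k → A k = A k0 := by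
  classical
  have hfd : ∀ k, FiniteDimensional ℚ (A k) := fun k =>
    Submodule.finiteDimensional_of_le (hB k)
  let P : ℕ → Prop := fun d => ∃ k, Module.finrank ℚ (A k) = d
  have hP : ∃ d, P d := ⟨_, 0, rfl⟩
  obtain ⟨k0, hk0⟩ := Nat.find_spec hP
  refine ⟨k0, fun k hk => ?_⟩
  have := hfd k0
  apply Submodule.eq_of_le_of_finrank_le (hA _ _ hk)
  rw [hk0]
  exact Nat.find_min' hP ⟨k, rfl⟩

theorem stab_per {p : ℤ} (hp : 0 < p) {B : ℕ} (A : ℕ → ℤ → Submodule ℚ E)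
    (hA : ∀ k k' i, k ≤ k' → A k' i ≤ A k i)
    (hB : ∀ k i, A k i ≤ EB B) (hper : ∀ k i j, p ∣ i - j → A k i ≤ A k j) :
    ∃ k0, ∀ k i, k0 ≤ k → A k i = A k0 i := by
  have h1 : ∀ i, ∃ k0, ∀ k, k0 ≤ k → A k i = A k0 i := fun i =>
    stab (fun k => A k i) (fun k k' h => hA k k' i h) (fun k => hB k i)
  choose κ hκ using h1
  let k0 := (Finset.Ico (0:ℤ) p).sup κ
  refine ⟨k0, fun k i hk => ?_⟩
  have hi : i % p ∈ Finset.Ico (0:ℤ) p :=
    Finset.mem_Ico.2 ⟨Int.emod_nonneg _ hp.ne', Int.emod_lt_of_pos _ hp⟩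
  have hle : κ (i % p) ≤ k0 := Finset.le_sup (f := κ) hi
  have hd : p ∣ i - i % p := Int.dvd_self_sub_emod
  have hd' : p ∣ i % p - i := by
    have := (dvd_neg).2 hd; simpa using this
  have e : ∀ k, A k i = A k (i % p) := fun k => le_antisymm (hper k _ _ hd) (hper k _ _ hd')
  rw [e, e, hκ _ k (hle.trans hk), hκ _ k0 hle]

theorem exists_K {R : Rel} {p : ℤ} (hp : 0 < p) (hper : Per R p) {B : ℕ} (hB : Bdd R B) :
    ∃ K : ℕ, ∀ i z, z ∈ Fwd R K i → z ∈ Bwd R K i → z ∈ T R i := by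
  obtain ⟨k1, h1⟩ := stab_per hp (fun k i => Fwd R (k+1) i)
    (fun k k' i h => Fwd_anti (by omega) i) (fun k i => Fwd_succ_le hB k i)
    (fun k i j h => Fwd_per hper h _)
  obtain ⟨k2, h2⟩ := stab_per hp (fun k i => Bwd R (k+1) i)
    (fun k k' i h => Bwd_anti (by omega) i) (fun k i => Bwd_succ_le hB k i)
    (fun k i j h => Bwd_per hper h _)
  refine ⟨max k1 k2 + 1, fun i z hf hb => ?_⟩
  have hf' : z ∈ Fwd R (k1+1) i := Fwd_anti (by omega) i hf
  have hb' : z ∈ Bwd R (k2+1) i := Bwd_anti (by omega) i hb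
  -- forward extension
  have stepF : ∀ i, ∀ z : Fwd R (k1+1) i, ∃ w : Fwd R (k1+1) (i+1), (z.1, w.1) ∈ R i := by
    rintro i ⟨z, hz⟩
    have : z ∈ Fwd R (k1+1+1) i := by
      rw [h1 (k1+1) i (by omega)]; exact hz
    obtain ⟨x, hx, rfl⟩ := this
    refine ⟨⟨x (i+1), x, hx.mono (by omega) (by push_cast; omega), rfl⟩, ?_⟩
    exact hx i le_rfl (by push_cast; omega)
  have stepB : ∀ i, ∀ z : Bwd R (k2+1) i, ∃ w : Bwd R (k2+1) (i-1), (w.1, z.1) ∈ R (i-1) := by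
    rintro i ⟨z, hz⟩
    have : z ∈ Bwd R (k2+1+1) i := by
      rw [h2 (k2+1) i (by omega)]; exact hz
    obtain ⟨x, hx, rfl⟩ := this
    refine ⟨⟨x (i-1), x, hx.mono (by push_cast; omega) (by omega), rfl⟩, ?_⟩
    have := hx (i-1) (by push_cast; omega) (by omega)
    simpa using this
  choose sF hsF using stepF
  choose sB hsB using stepB
  -- forward sequence
  obtain ⟨F, hF0, hF⟩ : ∃ F : ℕ → E, F 0 = z ∧ ∀ n : ℕ, (F n, F (n+1)) ∈ R (i+n) := by
    let F : (n : ℕ) → Fwd R (k1+1) (i+n) := fun n => Nat.rec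
      (⟨z, by simpa using hf'⟩ : Fwd R (k1+1) (i + ((0:ℕ):ℤ)))
      (fun n w => ⟨(sF (i+n) w).1, by
        have := (sF (i+n) w).2
        push_cast; rw [← add_assoc]; exact this⟩) n
    exact ⟨fun n => (F n).1, rfl, fun n => hsF (i+n) (F n)⟩
  obtain ⟨Bs, hB0, hBs⟩ : ∃ F : ℕ → E, F 0 = z ∧ ∀ n : ℕ, (F (n+1), F n) ∈ R (i-n-1) := by
    let Bs : (n : ℕ) → Bwd R (k2+1) (i-n) := fun n => Nat.rec
      (⟨z, by simpa using hb'⟩ : Bwd R (k2+1) (i - ((0:ℕ):ℤ)))
      (fun n w => ⟨(sB (i-n) w).1, by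
        have := (sB (i-n) w).2
        push_cast; rw [← sub_sub]; exact this⟩) n
    exact ⟨fun n => (Bs n).1, rfl, fun n => hsB (i-n) (Bs n)⟩
  refine ⟨fun t => if i ≤ t then F (t-i).toNat else Bs (i-t).toNat, ?_, ?_⟩
  · intro t
    by_cases h : i ≤ t
    · have h' : i ≤ t+1 := by omega
      simp only [h, h', if_true]
      have := hF (t-i).toNat
      have e1 : (t + 1 - i).toNat = (t-i).toNat + 1 := by omega
      have e2 : i + ((t-i).toNat : ℤ) = t := by omega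
      rw [e2] at this
      rw [e1]; exact this
    · by_cases h' : i ≤ t + 1
      · have e : t + 1 = i := by omega
        simp only [h, h', if_true, if_false]
        have := hBs 0
        have e1 : (t + 1 - i).toNat = 0 := by omega
        have e3 : (i - t).toNat = 0 + 1 := by omega
        have e2 : i - ((0:ℕ):ℤ) - 1 = t := by push_cast; omega
        rw [e2] at this
        rw [e1, e3, hF0, ← hB0]; exact this
      · simp only [h, h', if_false]
        have := hBs (i-t-1).toNat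
        have e1 : (i - t).toNat = (i-t-1).toNat + 1 := by omega
        have e3 : (i - (t+1)).toNat = (i-t-1).toNat := by omega
        have e2 : i - ((i-t-1).toNat : ℤ) - 1 = t := by omega
        rw [e2] at this
        rw [e1, e3]; exact this
  · simp [hF0]

/-- partial isomorphisms -/
def PI (R : Rel) : Prop := ∀ i, (∀ y, ((0 : E), y) ∈ R i → y = 0) ∧ (∀ x, (x, (0 : E)) ∈ R i → x = 0)

theorem PT.zero_fwd {R : Rel} (hR : PI R) {x : ℤ → E} {a b t : ℤ} (hx : PT R x a b)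
    (ha : a ≤ t) (h0 : x t = 0) : ∀ n : ℕ, t + n ≤ b → x (t+n) = 0 := by
  intro n
  induction n with
  | zero => intro _; simpa using h0
  | succ n ih =>
    intro h
    have h1 := ih (by push_cast at h; omega)
    have h2 := hx (t+n) (by omega) (by push_cast at h; omega)
    rw [h1] at h2
    have := (hR _).1 _ h2
    push_cast; rw [← add_assoc]; exact this

theorem PT.zero_bwd {R : Rel} (hR : PI R) {x : ℤ → E} {a b t : ℤ} (hx : PT R x a b)
    (hb : t ≤ b) (h0 : x t = 0) : ∀ n : ℕ, a ≤ t - n → x (t-n) = 0 := by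
  intro n
  induction n with
  | zero => intro _; simpa using h0
  | succ n ih =>
    intro h
    have h1 := ih (by push_cast at h; omega)
    have h2 := hx (t-n-1) (by push_cast at h; omega) (by omega)
    have e : t - (n:ℤ) - 1 + 1 = t - n := by ring
    rw [e, h1] at h2
    have := (hR _).2 _ h2
    push_cast; rw [← sub_sub]; exact this

theorem PT.zero_all {R : Rel} (hR : PI R) {x : ℤ → E} {a b t : ℤ} (hx : PT R x a b)
    (ha : a ≤ t) (hb : t ≤ b) (h0 : x t = 0) : ∀ j, a ≤ j → j ≤ b → x j = 0 := by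
  intro j h1 h2
  rcases le_total t j with h | h
  · have := hx.zero_fwd hR ha h0 (j-t).toNat (by omega)
    have e : t + ((j-t).toNat:ℤ) = j := by omega
    rwa [e] at this
  · have := hx.zero_bwd hR hb h0 (t-j).toNat (by omega)
    have e : t - ((t-j).toNat:ℤ) = j := by omega
    rwa [e] at this

theorem PT.eq_all {R : Rel} (hR : PI R) {x y : ℤ → E} {a b t : ℤ} (hx : PT R x a b)
    (hy : PT R y a b)
    (ha : a ≤ t) (hb : t ≤ b) (h0 : x t = y t) : ∀ j, a ≤ j → j ≤ b → x j = y j := by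
  intro j h1 h2
  have := (hx.sub hy).zero_all hR ha hb (by simp [h0]) j h1 h2
  simpa [sub_eq_zero] using this

theorem Tr.eq_all {R : Rel} (hR : PI R) {x y : ℤ → E} {t : ℤ} (hx : Tr R x)
    (hy : Tr R y) (h0 : x t = y t) : ∀ j, x j = y j := by
  intro j
  exact (hx.pt (min t j) (max t j)).eq_all hR (hy.pt _ _) (min_le_left _ _) (le_max_left _ _) h0 j
    (min_le_right _ _) (le_max_right _ _)

theorem T_le {R : Rel} {B : ℕ} (hB : Bdd R B) (i : ℤ) : T R i ≤ EB B := by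
  rintro z ⟨x, hx, rfl⟩
  exact (hB i _ _ (hx i)).1

/-- a long real path is closed -/
theorem long_closed {R : Rel} (hR : PI R) {K : ℕ} (hK : ∀ i z, z ∈ Fwd R K i → z ∈ Bwd R K i → z ∈ T R i)
    {x : ℤ → E} {a b : ℤ} (hx : PT R x a b) (hab : a + 2 * K ≤ b) :
    ∃ y, Tr R y ∧ ∀ j, a ≤ j → j ≤ b → x j = y j := by
  have : x (a+K) ∈ T R (a+K) := by
    apply hK
    · exact ⟨x, hx.mono (by omega) (by omega), rfl⟩
    · exact ⟨x, hx.mono (by omega) (by omega), rfl⟩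
  obtain ⟨y, hy, h⟩ := this
  refine ⟨y, hy, ?_⟩
  exact hx.eq_all hR (hy.pt a b) (by omega) (by omega) h.symm

/-! ### shift operators -/

def Sh (q : ℤ) : (ℤ → E) →ₗ[ℚ] (ℤ → E) where
  toFun x := fun i => x (i+q)
  map_add' _ _ := rfl
  map_smul' _ _ := rfl

@[simp] theorem Sh_apply (q : ℤ) (x : ℤ → E) (i : ℤ) : Sh q x i = x (i+q) := rfl

theorem Sh_mul (q r : ℤ) : Sh q * Sh r = Sh (q + r) := by
  apply LinearMap.ext; intro x; funext i
  simp [add_assoc]

theorem Sh_zero : Sh 0 = 1 := by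
  apply LinearMap.ext; intro x; funext i
  simp

theorem Sh_pow (q : ℤ) (k : ℕ) : (Sh q)^k = Sh (k*q) := by
  induction k with
  | zero => simp [Sh_zero]
  | succ k ih => rw [pow_succ, ih, Sh_mul]; congr 1; push_cast; ring

theorem Sh_comm (q r : ℤ) : Commute (Sh q) (Sh r) := by
  rw [Commute, SemiconjBy, Sh_mul, Sh_mul, add_comm]

def Unip (q : ℤ) (x : ℤ → E) : Prop := ∃ N : ℕ, ((Sh q - 1)^N) x = 0

theorem Unip.mono {q : ℤ} {x : ℤ → E} {N M : ℕ} (h : ((Sh q - 1)^N) x = 0) (hM : N ≤ M) :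
    ((Sh q - 1)^M) x = 0 := by
  obtain ⟨k, rfl⟩ := Nat.exists_eq_add_of_le hM
  rw [add_comm, pow_add, Module.End.mul_apply, h, map_zero]

theorem Unip.add {q : ℤ} {x y : ℤ → E} (hx : Unip q x) (hy : Unip q y) : Unip q (x+y) := by
  obtain ⟨N, hN⟩ := hx
  obtain ⟨M, hM⟩ := hy
  refine ⟨max N M, ?_⟩
  rw [map_add, Unip.mono hN (le_max_left _ _), Unip.mono hM (le_max_right _ _), add_zero]

theorem Unip.smul {q : ℤ} {x : ℤ → E} (c : ℚ) (hx : Unip q x) : Unip q (c • x) := by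
  obtain ⟨N, hN⟩ := hx
  exact ⟨N, by rw [map_smul, hN, smul_zero]⟩

theorem Unip.zero {q : ℤ} : Unip q 0 := ⟨0, by simp⟩

theorem Unip.sum {ι : Type*} {q : ℤ} (s : Finset ι) (f : ι → ℤ → E) (h : ∀ i ∈ s, Unip q (f i)) :
    Unip q (∑ i ∈ s, f i) := by
  classical
  induction s using Finset.induction_on with
  | empty => simpa using Unip.zero
  | insert a s ha ih =>
    rw [Finset.sum_insert ha]
    exact (h a (by simp)).add (ih (fun i hi => h i (by simp [hi])))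

/-- translation invariance -/
theorem Unip.shift {q : ℤ} {x : ℤ → E} (h : Unip q x) (r : ℤ) : Unip q (Sh r x) := by
  obtain ⟨N, hN⟩ := h
  refine ⟨N, ?_⟩
  have hc : Commute ((Sh q - 1)^N) (Sh r) :=
    ((Sh_comm q r).sub_left (Commute.one_left _)).pow_left N
  have := congrArg (fun f => f x) hc.eq
  simp only [Module.End.mul_apply] at this
  rw [this, hN, map_zero]

theorem Unip.of_shift {q : ℤ} {x : ℤ → E} (r : ℤ) (h : Unip q (Sh r x)) : Unip q x := by
  have := h.shift (-r)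
  have e : Sh (-r) (Sh r x) = x := by
    funext i; simp
  rwa [e] at this

def rev (x : ℤ → E) : ℤ → E := fun i => x (-i)

theorem rev_rev (x : ℤ → E) : rev (rev x) = x := by funext i; simp [rev]

def revL : (ℤ → E) →ₗ[ℚ] (ℤ → E) where
  toFun := rev
  map_add' _ _ := rfl
  map_smul' _ _ := rfl

theorem Unip.rev {q : ℤ} {x : ℤ → E} (h : Unip q (rev x)) : Unip q x := by
  obtain ⟨N, hN⟩ := h
  refine ⟨N, ?_⟩
  have h1 : ∀ y : ℤ → E, (Sh q - 1) (Nil.rev y) = Nil.rev (-(Sh (-q) ((Sh q - 1) y))) := by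
    intro y; funext i
    simp only [LinearMap.sub_apply, Pi.sub_apply, Sh_apply, Nil.rev, Module.End.one_apply, Pi.neg_apply]
    have e1 : -(i+q) = -i + -q := by ring
    have e2 : -i + -q + q = -i := by ring
    rw [e1, e2]; abel
  have h2 : ∀ (N : ℕ) (y : ℤ → E), ∃ (s : ℤ) (ε : ℚ), ε ≠ 0 ∧
      ((Sh q - 1)^N) (Nil.rev y) = Nil.rev (ε • Sh s (((Sh q - 1)^N) y)) := by
    intro N
    induction N with
    | zero => intro y; exact ⟨0, 1, one_ne_zero, by simp [Sh_zero]⟩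
    | succ N ih =>
      intro y
      obtain ⟨s, ε, hε, h⟩ := ih y
      refine ⟨s + -q, -ε, neg_ne_zero.2 hε, ?_⟩
      rw [pow_succ', Module.End.mul_apply, h, h1, Module.End.mul_apply]
      congr 1
      have hc := congrArg (fun f => f (((Sh q - 1)^N) y))
        ((((Sh_comm q s).sub_left (Commute.one_left _))).eq)
      simp only [Module.End.mul_apply] at hc
      rw [map_smul, hc, map_smul, ← Module.End.mul_apply (Sh (-q)), Sh_mul, neg_smul,
        add_comm]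
  obtain ⟨s, ε, hε, h⟩ := h2 N x
  rw [hN] at h
  have h3 := congrArg Nil.rev h
  rw [rev_rev] at h3
  have h4 : ε • Sh s (((Sh q - 1)^N) x) = 0 := by rw [← h3]; rfl
  have h5 : Sh s (((Sh q - 1)^N) x) = 0 := (smul_eq_zero.1 h4).resolve_left hε
  have h6 := congrArg (Sh (-s)) h5
  rw [map_zero, ← Module.End.mul_apply (Sh (-s)), Sh_mul] at h6
  simpa [Sh_zero] using h6

theorem Unip.mul {q : ℤ} {x : ℤ → E} (h : Unip q x) (k : ℕ) : Unip (k*q) x := by
  obtain ⟨N, hN⟩ := h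
  refine ⟨N, ?_⟩
  rw [← Sh_pow]
  have h1 : Sh q ^ k - 1 = (∑ i ∈ Finset.range k, Sh q ^ i) * (Sh q - 1) := by
    rw [geom_sum_mul]
  have hc : Commute (∑ i ∈ Finset.range k, Sh q ^ i) (Sh q - 1) := by
    apply Commute.sub_right
    · exact (Commute.sum_left _ _ _ (fun i _ => (Commute.refl _).pow_left i))
    · exact Commute.one_right _
  rw [h1, hc.mul_pow, Module.End.mul_apply, hN, map_zero]

end Pool.Agent.V1114.Nil
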