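import Pool.Agent.V1114.Nil.Glue

set_option autoImplicit false
set_option linter.unusedVariables false

namespace Pool.Agent.V1114.Nil

open Submodule Polynomial

section
variable {G : Fam} {B : ℕ} {c : ℤ → L} {p m : ℤ} {n : ℕ} {U : ℤ → E}

theorem GD.letters (D : GD G B c p m n U) {g : ℤ → L} (hg : Red g) {x : ℤ → E} {a b : ℤ}
    (hx : PT (fun i => Gl G B c p m n U (g i)) x a b) {i j : ℤ} (ha : a < i) (hb : i < b)
    (h1 : m < j) (h2 : j < n * p) (hne : ph B m j (x i) ≠ 0) :
    (g i = c j ∧ g (i-1) = c (j-1)) ∨ (g i = inv (c (j-1)) ∧ g (i-1) = inv (c j)) := by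
  have d1 := D.d0 (hx i ha.le hb) j h1 h2 hne
  have h3 := D.sym (hx (i-1) (by omega) (by omega))
  have e : i - 1 + 1 = i := by ring
  rw [e] at h3
  have d2 := D.d0 h3 j h1 h2 hne
  rw [inv_inv] at d2
  have hr := hg.ne' i
  rcases d1 with d1 | d1
  · rcases d2 with d2 | d2
    · exact absurd (d1.symm.trans d2) hr
    · exact Or.inl ⟨d1.symm, d2.symm⟩
  · rcases d2 with d2 | d2
    · refine Or.inr ⟨?_, ?_⟩
      · rw [d1, inv_inv]
      · rw [d2, inv_inv]
    · exfalso
      apply hr
      rw [← d2, d1, inv_inv]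

theorem GD.chainF (D : GD G B c p m n U) {g : ℤ → L} (hg : Red g) {x : ℤ → E} {a b : ℤ}
    (hx : PT (fun i => Gl G B c p m n U (g i)) x a b) {i J : ℤ} (ha : a ≤ i)
    (h1 : m < J) (hne : ph B m J (x i) ≠ 0)
    (hmax : ∀ J', J < J' → J' < n * p → p ∣ J' - J → ph B m J' (x i) = 0) (hgi : g i = c J) :
    ∀ k : ℕ, i + k < b → J + k < n * p → ph B m (J+k) (x (i+k)) ≠ 0 ∧
      (∀ J', J + k < J' → J' < n * p → p ∣ J' - (J+k) → ph B m J' (x (i+k)) = 0) ∧
      g (i+k) = c (J+k) := by
  intro k
  induction k with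
  | zero =>
    intro _ _
    simpa using ⟨hne, hmax, hgi⟩
  | succ k ih =>
    intro hb hJ
    push_cast at hb hJ
    obtain ⟨i1, i2, i3⟩ := ih (by omega) (by omega)
    have hs := hx (i+k) (by omega) (by omega)
    simp only at hs
    rw [i3] at hs
    have hlast : p ∣ J + k + 1 → ph B m (n*p-1) (x (i+k)) = 0 := by
      intro hd
      apply i2 _ (by omega) (by omega)
      have : (n:ℤ) * p - 1 - (J + k) = n * p - (J+k+1) := by ring
      rw [this]
      exact (Dvd.intro_left _ rfl).sub hd
    have hd := D.d1 (J+k) (by omega) (by omega) hs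
    have e1 : i + ((k+1:ℕ):ℤ) = i + k + 1 := by push_cast; ring
    have e2 : J + ((k+1:ℕ):ℤ) = J + k + 1 := by push_cast; ring
    rw [e1, e2]
    have hz : om B p m n U (J+k+1) * ph B m (n*p-1) (x (i+k)) = 0 := by
      by_cases h6 : om B p m n U (J+k+1) = 0
      · rw [h6, zero_mul]
      · rw [hlast (D.om_dvd (by omega) (by omega) h6), mul_zero]
    rw [hz, add_zero] at hd
    have hne' : ph B m (J+k+1) (x (i+k+1)) ≠ 0 := by rw [hd]; exact i1
    refine ⟨hne', ?_, ?_⟩
    · intro J' hJ1 hJ2 hJ3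
      have hc' : c (J+k) = c (J'-1) := D.hc.per _ _ (by
        have : J + k - (J'-1) = -(J' - (J+k+1)) := by ring
        rw [this]; exact (dvd_neg).2 hJ3)
      rw [hc'] at hs
      have hd' := D.d1 (J'-1) (by omega) (by omega) hs
      have e3 : J' - 1 + 1 = J' := by ring
      rw [e3] at hd'
      rw [hd', i2 (J'-1) (by omega) (by omega) (by
        have : J' - 1 - (J+k) = J' - (J+k+1) := by ring
        rw [this]; exact hJ3), zero_add]
      by_cases h6 : om B p m n U J' = 0
      · rw [h6, zero_mul]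
      · have h7 := D.om_dvd (by omega) hJ2 h6
        rw [hlast ((Int.dvd_iff_dvd_of_dvd_sub hJ3).1 h7), mul_zero]
    · rcases D.letters hg hx (by omega) (by omega) (by omega) (by omega) hne' with h | h
      · exact h.1
      · exfalso
        have e4 : i + k + 1 - 1 = i + k := by ring
        have e5 : J + k + 1 - 1 = J + k := by ring
        rw [e4, e5] at h
        have h8 := D.hc.red (J+k)
        apply h8
        rw [← i3, h.2, inv_inv]

theorem GD.chainB (D : GD G B c p m n U) {g : ℤ → L} (hg : Red g) {x : ℤ → E} {a b : ℤ}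
    (hx : PT (fun i => Gl G B c p m n U (g i)) x a b) {i j : ℤ} (hb : i < b)
    (h1 : m < j) (h2 : j < n * p) (hne : ph B m j (x i) ≠ 0) (hgi : g i = c j) :
    ∀ k : ℕ, a ≤ i - k → m < j - k → ∃ j', j - k ≤ j' ∧ j' < n * p ∧ p ∣ j' - (j-k) ∧
      ph B m j' (x (i-k)) ≠ 0 ∧ g (i-k) = c (j-k) := by
  intro k
  induction k with
  | zero =>
    intro _ _
    exact ⟨j, by simp, h2, by simp, by simpa using hne, by simpa using hgi⟩
  | succ k ih =>
    intro ha hm
    push_cast at ha hm
    obtain ⟨j', q1, q2, q3, q4, q5⟩ := ih (by omega) (by omega)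
    have hcj : c (j-k) = c j' := D.hc.per _ _ (by
      have : j - k - j' = -(j' - (j-k)) := by ring
      rw [this]; exact (dvd_neg).2 q3)
    have e1 : i - ((k+1:ℕ):ℤ) = i - k - 1 := by push_cast; ring
    have e2 : j - ((k+1:ℕ):ℤ) = j - k - 1 := by push_cast; ring
    rw [e1, e2]
    rcases D.letters hg hx (by omega) (by omega) (by omega) q2 q4 with h | h
    · have hc' : c (j-k-1) = c (j'-1) := D.hc.per _ _ (by
        have : j - k - 1 - (j'-1) = -(j' - (j-k)) := by ring
        rw [this]; exact (dvd_neg).2 q3)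
      have hs := hx (i-k-1) (by omega) (by omega)
      simp only at hs
      rw [h.2] at hs
      have e3 : i - k - 1 + 1 = i - k := by ring
      rw [e3] at hs
      have hj' : m < j' - 1 := by omega
      have hd := D.d1 (j'-1) hj' (by omega) hs
      have e4 : j' - 1 + 1 = j' := by ring
      rw [e4] at hd
      by_cases h7 : ph B m (j'-1) (x (i-k-1)) = 0
      · rw [h7, zero_add] at hd
        rw [hd] at q4
        have h8 : om B p m n U j' ≠ 0 := left_ne_zero_of_mul q4
        have h9 : ph B m (n*p-1) (x (i-k-1)) ≠ 0 := right_ne_zero_of_mul q4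
        have h10 := D.om_dvd (by omega) q2 h8
        refine ⟨n*p-1, by omega, by omega, ?_, h9, ?_⟩
        · have : (n:ℤ) * p - 1 - (j - k - 1) = n * p - j' + (j' - (j-k)) := by ring
          rw [this]
          exact ((Dvd.intro_left _ rfl).sub h10).add q3
        · rw [h.2, hc']
      · refine ⟨j'-1, by omega, by omega, ?_, h7, ?_⟩
        · have : j' - 1 - (j-k-1) = j' - (j-k) := by ring
          rw [this]; exact q3
        · rw [h.2, hc']
    · exfalso
      apply D.hc.red.ne' j'
      rw [← h.1, q5, hcj]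

theorem GD.chainB' (D : GD G B c p m n U) {g : ℤ → L} (hg : Red g) {x : ℤ → E} {a b : ℤ}
    (hx : PT (fun i => Gl G B c p m n U (g i)) x a b) {i j : ℤ} (hb : i < b)
    (h1 : m < j) (h2 : j < n * p) (hne : ph B m j (x i) ≠ 0) (hgi : g i = c j)
    (k : ℕ) (ha : a ≤ i - k) (hk : m ≤ j - k) : g (i-k) = c (j-k) := by
  by_cases h : m < j - k
  · obtain ⟨j', _, _, _, _, q5⟩ := D.chainB hg hx hb h1 h2 hne hgi k ha h
    exact q5
  · obtain ⟨k', rfl⟩ : ∃ k', k = k' + 1 := ⟨k - 1, by omega⟩
    push_cast at ha hk h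
    obtain ⟨j', q1, q2, q3, q4, q5⟩ := D.chainB hg hx hb h1 h2 hne hgi k' (by omega) (by omega)
    have hcj : c (j-k') = c j' := D.hc.per _ _ (by
      have : j - k' - j' = -(j' - (j-k')) := by ring
      rw [this]; exact (dvd_neg).2 q3)
    have hc' : c (j-k'-1) = c (j'-1) := D.hc.per _ _ (by
      have : j - k' - 1 - (j'-1) = -(j' - (j-k')) := by ring
      rw [this]; exact (dvd_neg).2 q3)
    have e1 : i - ((k'+1:ℕ):ℤ) = i - k' - 1 := by push_cast; ring
    have e2 : j - ((k'+1:ℕ):ℤ) = j - k' - 1 := by push_cast; ring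
    rw [e1, e2]
    rcases D.letters hg hx (by omega) (by omega) (by omega) q2 q4 with h | h
    · rw [h.2, hc']
    · exfalso
      apply D.hc.red.ne' j'
      rw [← h.1, q5, hcj]

/-- the matched window around a forward fresh coordinate -/
theorem GD.window (D : GD G B c p m n U) {g : ℤ → L} (hg : Red g) {x : ℤ → E} {a b : ℤ}
    (hx : PT (fun i => Gl G B c p m n U (g i)) x a b) {i j : ℤ} (ha : a ≤ i) (hb : i < b)
    (h1 : m < j) (h2 : j < n * p) (hne : ph B m j (x i) ≠ 0) (hgi : g i = c j) :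
    ∃ J, m < J ∧ J < n * p ∧ ∀ s, a ≤ s → s < b → i - (J - m) ≤ s → s ≤ i + (n*p-1-J) →
      g s = c (s + (j - i)) := by
  obtain ⟨J, ⟨q1, q2, q3, q4⟩, hmax⟩ := Int.exists_greatest_of_bdd
    (P := fun J => m < J ∧ J < n * p ∧ p ∣ J - j ∧ ph B m J (x i) ≠ 0)
    ⟨n*p, fun z hz => hz.2.1.le⟩ ⟨j, h1, h2, by simp, hne⟩
  have hcJ : c J = c j := D.hc.per _ _ q3
  refine ⟨J, q1, q2, ?_⟩
  intro s hs1 hs2 hs3 hs4
  have hgJ : g i = c J := by rw [hcJ, hgi]
  rcases le_total i s with h | h
  · have := (D.chainF hg hx ha q1 q4 (by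
      intro J' hJ1 hJ2 hJ3
      by_contra hJ4
      have := hmax J' ⟨by omega, hJ2, by
        have e : J' - j = (J' - J) + (J - j) := by ring
        rw [e]; exact hJ3.add q3, hJ4⟩
      omega) hgJ (s-i).toNat (by omega) (by omega)).2.2
    have e1 : i + ((s-i).toNat:ℤ) = s := by omega
    rw [e1] at this
    rw [this]
    apply D.hc.per
    have e2 : J + ((s-i).toNat:ℤ) - (s + (j-i)) = J - j := by omega
    rw [e2]; exact q3
  · have := D.chainB' hg hx hb q1 q2 q4 hgJ (i-s).toNat (by omega) (by omega)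
    have e1 : i - ((i-s).toNat:ℤ) = s := by omega
    rw [e1] at this
    rw [this]
    apply D.hc.per
    have e2 : J - ((i-s).toNat:ℤ) - (s + (j-i)) = J - j := by omega
    rw [e2]; exact q3

theorem rev_red {g : ℤ → L} (hg : Red g) : Red (fun i => inv (g (-1 - i))) := by
  intro i h
  simp only [inv_inv] at h
  apply hg (-1 - (i+1))
  have e : -1 - (i+1) + 1 = -1 - i := by ring
  rw [e, h]

theorem GD.rev_PT (D : GD G B c p m n U) {g : ℤ → L} {x : ℤ → E} {a b : ℤ}
    (hx : PT (fun i => Gl G B c p m n U (g i)) x a b) :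
    PT (fun i => Gl G B c p m n U (inv (g (-1 - i)))) (rev x) (-b) (-a) := by
  intro i h1 h2
  have := D.sym (hx (-1-i) (by omega) (by omega))
  have e : -1 - i + 1 = -i := by ring
  rw [e] at this
  have e2 : -(i+1) = -1 - i := by ring
  simp only [rev, e2]
  exact this

/-- along the word `c` itself only the right-phase fresh coordinates survive -/
theorem GD.right_phase (D : GD G B c p m n U) {x : ℤ → E} {a b : ℤ}
    (hx : PT (fun i => Gl G B c p m n U (c i)) x a b) {i j : ℤ} (ha : a + p ≤ i) (hb : i + p ≤ b)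
    (h1 : m < j) (h2 : j < n * p) (hne : ph B m j (x i) ≠ 0) : p ∣ j - i := by
  have hp := D.hc.pos
  have hN := D.hn
  rcases D.letters D.hc.red hx (by omega) (by omega) h1 h2 hne with h | h
  · obtain ⟨J, q1, q2, q3⟩ := D.window D.hc.red hx (by omega) (by omega) h1 h2 hne h.1
    by_cases hJ : p ≤ J - m
    · apply D.hc.m1 (a := i - p)
      intro s hs1 hs2
      exact (q3 s (by omega) (by omega) (by omega) (by omega)).symm
    · apply D.hc.m1 (a := i)
      intro s hs1 hs2
      exact (q3 s (by omega) (by omega) (by omega) (by omega)).symm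
  · exfalso
    have hr := D.rev_PT hx
    have hne' : ph B m j (rev x (-i)) ≠ 0 := by simpa [rev] using hne
    have hg' : inv (c (-1 - -i)) = c j := by
      have e : -1 - -i = i - 1 := by ring
      rw [e, h.2, inv_inv]
    obtain ⟨J, q1, q2, q3⟩ := D.window (rev_red D.hc.red) hr (i := -i) (by omega) (by omega) h1 h2
      hne' hg'
    by_cases hJ : p ≤ J - m
    · -- `s ∈ [-i-p, -i)`, `i' = -1 - s ∈ [i, i+p)`
      apply D.hc.m2 (a := i) (h := j + i - 1)
      intro t ht1 ht2
      have := q3 (-1 - t) (by omega) (by omega) (by omega) (by omega)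
      have e1 : -1 - (-1 - t) = t := by ring
      have e2 : -1 - t + (j - -i) = j + i - 1 - t := by ring
      rw [e1, e2] at this
      exact this.symm
    · apply D.hc.m2 (a := i - p) (h := j + i - 1)
      intro t ht1 ht2
      have := q3 (-1 - t) (by omega) (by omega) (by omega) (by omega)
      have e1 : -1 - (-1 - t) = t := by ring
      have e2 : -1 - t + (j - -i) = j + i - 1 - t := by ring
      rw [e1, e2] at this
      exact this.symm

end

end Pool.Agent.V1114.Nil
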