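import Pool.Agent.V1114.Nil.Pure

set_option autoImplicit false
set_option linter.unusedVariables false

namespace Pool.Agent.V1114.Nil

open Submodule

section
variable {G : Fam} {B : ℕ} {c : ℤ → L} {p : ℤ} {V : ℤ → E} {a : ℤ} {r : ℕ}
  (hG : Str G B) (hc : Wd c p) (ha : V a ∈ EB B) (hdom : ∀ y, (V a, y) ∉ G (c a))
  (hV : ∀ j, a < j → j ≤ a + r → V j = Finsupp.single (B + (j - a - 1).toNat) 1)

include hG hc ha hV in
/-- the last fresh coordinate vanishes on the domain of the next letter -/
theorem last_dom (hr : 0 < r) {z : E} (hz : z ∈ Dom (Ext G c V a (a+r)) (c (a+r))) :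
    ph B a (a+r) z = 0 := by
  obtain ⟨y, hy⟩ := mem_Dom.1 hz
  by_contra hne
  rcases pF1 hG ha hV hy (a+r) (by omega) le_rfl hne with h | h
  · omega
  · apply hc.red.ne' (a+r)
    rw [h, inv_inv]

include hG hc ha hV in
/-- a vector whose last fresh coordinate is nonzero forces reversed letters -/
theorem forced_rev (hp : (r:ℤ) = p) (hr : 0 < r) {W : ℤ → E} {s e : ℤ}
    (hW : PT (fun i => Ext G c V a (a+r) (c i)) W s e) (hlen : s + r ≤ e)
    (hne : ph B a (a+r) (W s) ≠ 0) : False := by
  have hsym := Ext_sym (c := c) (V := V) (a := a) (b := a+r) hG.sym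
  have key : ∀ k : ℕ, k < r → ph B a (a+r-k) (W (s+k)) ≠ 0 ∧ c (a+r-k-1) = inv (c (s+k)) := by
    intro k
    induction k with
    | zero =>
      intro _
      have h1 := hW s le_rfl (by omega)
      rcases pF1 hG ha hV h1 (a+r) (by omega) le_rfl hne with h | h
      · omega
      · simpa using ⟨hne, h⟩
    | succ k ih =>
      intro hk
      obtain ⟨h1, h2⟩ := ih (by omega)
      have h3 := hsym _ _ _ (hW (s+k) (by omega) (by omega))
      have e1 : c (a+r-(k+1:ℕ)) = inv (c (s+k)) := by
        rw [← h2]; congr 1; push_cast; ring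
      rw [← e1] at h3
      have h4 := pF2 hG hc.red ha hV (a+r-(k+1:ℕ)) (by push_cast; omega) (by push_cast; omega) h3
      have e2 : a + (r:ℤ) - ((k+1:ℕ):ℤ) + 1 = a + r - k := by push_cast; ring
      rw [e2] at h4
      have e3 : s + ((k+1:ℕ):ℤ) = s + k + 1 := by push_cast; ring
      have hne' : ph B a (a+r-(k+1:ℕ)) (W (s+(k+1:ℕ))) ≠ 0 := by
        rw [e3, ← h4]; exact h1
      refine ⟨hne', ?_⟩
      have h5 := hW (s+(k+1:ℕ)) (by push_cast; omega) (by push_cast; omega)
      rcases pF1 hG ha hV h5 (a+r-(k+1:ℕ)) (by push_cast; omega) (by push_cast; omega) hne' with h | h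
      · exfalso
        apply hc.red (s+k)
        rw [← e1, h.2, e3]
      · exact h
  apply hc.m2 (a := s) (h := a + r - 1 + s)
  intro i h1 h2
  have := (key (i-s).toNat (by omega)).2
  have e1 : s + ((i-s).toNat:ℤ) = i := by omega
  have e2 : a + r - ((i-s).toNat:ℤ) - 1 = a + r - 1 + s - i := by omega
  rwa [e1, e2] at this

end

theorem T_mono {R R' : Rel} (h : ∀ i, R i ≤ R' i) (i : ℤ) : T R i ≤ T R' i := by
  rintro z ⟨x, hx, rfl⟩
  exact ⟨x, fun j => h j (hx j), rfl⟩

theorem T_shift {R : Rel} (s i : ℤ) : T (fun j => R (j+s)) i = T R (i+s) := by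
  ext z
  constructor
  · rintro ⟨x, hx, rfl⟩
    refine ⟨fun j => x (j-s), fun j => ?_, by simp⟩
    have := hx (j-s)
    have e : j - s + 1 = j + 1 - s := by ring
    simp only [sub_add_cancel, e] at this
    exact this
  · rintro ⟨x, hx, rfl⟩
    refine ⟨fun j => x (j+s), fun j => ?_, rfl⟩
    have := hx (j+s)
    have e : j + s + 1 = j + 1 + s := by ring
    rw [e] at this
    exact this

theorem Sp_shift {p : ℤ} {W : ℤ → E} {s k i : ℤ} :
    Sp p (fun j => W (j+s)) 0 k i = Sp p W s (s+k) (i+s) := by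
  apply le_antisymm
  · conv_lhs => unfold Sp
    rw [span_le]
    rintro _ ⟨j, h1, h2, h3, rfl⟩
    exact mem_Sp (U := W) (by omega) (by omega) (by
      have e : j + s - (i+s) = j - i := by ring
      rw [e]; exact h3)
  · conv_lhs => unfold Sp
    rw [span_le]
    rintro _ ⟨j, h1, h2, h3, rfl⟩
    have := mem_Sp (U := fun j => W (j+s)) (s := 0) (e := k) (i := i) (p := p) (j := j - s)
      (by omega) (by omega) (by
      have e : j - s - i = j - (i+s) := by ring
      rw [e]; exact h3)
    simpa using this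

theorem RQ_shift {G : Fam} {c : ℤ → L} {p : ℤ} {W : ℤ → E} {s k : ℤ} :
    RQ G (fun j => c (j+s)) p (fun j => W (j+s)) 0 k = fun i => RQ G c p W s (s+k) (i+s) := by
  funext i
  unfold RQ
  rw [Sp_shift, Sp_shift]
  have e : i + 1 + s = i + s + 1 := by ring
  rw [e]

theorem closeFwd {G : Fam} {B : ℕ} {c : ℤ → L} {p : ℤ} (hG0 : Str G B) (hgood : Good G)
    (hc : Wd c p) (u : E) {t0 : ℕ} (ht0 : u ∉ Fwd (fun i => G (c i)) t0 0) :
    ∃ (G' : Fam) (B' : ℕ), Str G' B' ∧ Good G' ∧ (∀ l, G l ≤ G' l) ∧
      u ∈ T (fun i => G' (c i)) 0 := by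
  classical
  have hp := hc.pos
  obtain ⟨B1, hB1⟩ := exists_EB u
  have hG : Str G (max B B1) := hG0.mono (le_max_left _ _)
  have huB : u ∈ EB (max B B1) := EB_mono (le_max_right _ _) hB1
  generalize max B B1 = B at hG huB
  clear hG0 hB1
  -- maximal forward path
  have hex : ∃ t, u ∉ Fwd (fun i => G (c i)) t 0 := ⟨t0, ht0⟩
  obtain ⟨t, ht⟩ : ∃ t, Nat.find hex = t + 1 := by
    have : Nat.find hex ≠ 0 := by
      intro h
      have := Nat.find_spec hex
      rw [h] at this
      exact this ⟨fun _ => u, fun j h1 h2 => absurd h2 (by simp; omega), rfl⟩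
    exact ⟨Nat.find hex - 1, by omega⟩
  have hspec := Nat.find_spec hex
  rw [ht] at hspec
  have hmin : u ∈ Fwd (fun i => G (c i)) t 0 := by
    have := Nat.find_min hex (m := t) (by omega)
    push Not at this
    exact this
  obtain ⟨V0, hV0, hV00⟩ := hmin
  have hdom0 : ∀ y, (V0 t, y) ∉ G (c t) := by
    intro y hy
    apply hspec
    refine ⟨fun j => if j ≤ t then V0 j else y, ?_, by simpa using hV00⟩
    intro j h1 h2
    push_cast at h2
    by_cases h : j = t
    · subst h; simpa using hy
    · have h7 : j ≤ t := by omega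
      have h8 : j + 1 ≤ t := by omega
      simp only [h7, h8, if_true]
      exact hV0 j h1 (by omega)
  have hVtB : V0 t ∈ EB B := by
    by_cases h : t = 0
    · subst h; rw [show ((0:ℕ):ℤ) = 0 by rfl, hV00]; exact huB
    · have := (hG.bd _ _ _ (hV0 (t-1) (by omega) (by omega))).2
      have e : (t:ℤ) - 1 + 1 = t := by ring
      rwa [e] at this
  -- add `p` fresh vectors
  set r : ℕ := p.toNat with hr
  have hrp : (r:ℤ) = p := by omega
  set V : ℤ → E := fun j => if j ≤ t then V0 j else Finsupp.single (B + (j - t - 1).toNat) 1 with hVd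
  have hVt : V t = V0 t := by simp [hVd]
  have ha : V t ∈ EB B := by rw [hVt]; exact hVtB
  have hdom : ∀ y, (V t, y) ∉ G (c t) := by rw [hVt]; exact hdom0
  have hV : ∀ j, (t:ℤ) < j → j ≤ t + r → V j = Finsupp.single (B + (j - t - 1).toNat) 1 := by
    intro j h1 h2
    simp only [hVd]
    rw [if_neg (by omega)]
  set G1 : Fam := Ext G c V t (t+r) with hG1d
  have hG1 : Str G1 (B+r) := path_str hG hc.red ha hdom hV
  have hgood1 : Good G1 := path_good hG hc.red ha hV hgood
  have hle1 : ∀ l, G l ≤ G1 l := fun l => le_Ext l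
  have hPV : PT (fun i => G1 (c i)) V 0 (t+r) := by
    intro j h1 h2
    by_cases h : j < t
    · have h7 : j ≤ t := by omega
      have h8 : j + 1 ≤ t := by omega
      simp only [hVd, h7, h8, if_true]
      exact hle1 _ (hV0 j h1 (by omega))
    · exact pair_mem_Ext j (by omega) h2
  have hV0u : V 0 = u := by
    simp [hVd, hV00]
  set F : E := V (t+r) with hF
  have hFc : ph B t (t+r) F = 1 := by
    rw [hF, pV ha hV _ _ (by omega) le_rfl (by omega), if_pos rfl]
  have hFdom : F ∉ Dom G1 (c (t+r)) := by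
    intro h
    have := last_dom hG hc ha hV (by omega) h
    rw [hFc] at this
    exact one_ne_zero this
  have hTdom : ∀ {i : ℤ} {z : E}, z ∈ T (fun i => G1 (c i)) i → z ∈ Dom G1 (c i) := by
    rintro i z ⟨x, hx, rfl⟩
    exact mem_Dom.2 ⟨_, hx i⟩
  have huT : u ∉ T (fun i => G1 (c i)) 0 := by
    rintro ⟨y, hy, hyu⟩
    apply hFdom
    have := (hy.pt 0 (t+r)).eq_all (hG1.pi c) hPV (t := 0) le_rfl (by omega) (by rw [hyu, hV0u])
      (t+r) (by omega) le_rfl
    rw [hF, ← this]
    exact mem_Dom.2 ⟨_, hy _⟩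
  have hper : Per (fun i => G1 (c i)) p := fun i j h => by simp only [hc.per i j h]
  obtain ⟨K, hK⟩ := exists_K hp hper (hG1.bdd c)
  -- maximal string
  obtain ⟨k, ⟨s, W, hW, hWB, hu⟩, hmax⟩ := exists_max' (SL G1 (B+r) c p u) (n0 := 0)
    ⟨0, fun _ => u, fun j h1 h2 => absurd h2 (by simp; omega),
      fun j _ _ => EB_mono (Nat.le_add_right _ _) huB,
      Submodule.mem_sup_right (mem_Sp (U := fun _ => u) (j := 0) (by omega) (by simp) (by simp))⟩ (2*K)
    (by
      rintro k ⟨s, W, b1, b2, b3⟩
      by_contra hcon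
      obtain ⟨y, hy1, hy2⟩ := long_closed (hG1.pi c) hK b1 (by omega)
      apply huT
      have : Sp p W s (s+k) 0 ≤ T (fun i => G1 (c i)) 0 := by
        unfold Sp
        rw [span_le]
        rintro _ ⟨j, h1, h2, h3, rfl⟩
        apply T_per hper h3
        exact ⟨y, hy1, (hy2 j h1 h2).symm⟩
      exact (sup_le le_rfl this) b3)
  have he : ∀ y, (W (s+k), y) ∉ G1 (c (s+k)) := by
    intro y hy
    have := hmax (k+1) ⟨s, fun j => if j ≤ s + k then W j else y, ?_, ?_, ?_⟩
    · omega
    · intro j h1 h2
      push_cast at h2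
      by_cases h : j = s + k
      · subst h; simpa using hy
      · have h7 : j ≤ s + k := by omega
        have h8 : j + 1 ≤ s + k := by omega
        simp only [h7, h8, if_true]
        exact hW j h1 (by omega)
    · intro j h1 h2
      push_cast at h2
      by_cases h : j ≤ s + k
      · simp only [h, if_true]; exact hWB j h1 h
      · simp only [h, if_false]; exact (hG1.bd _ _ _ hy).2
    · have hle : Sp p W s (s+k) 0 ≤ Sp p (fun j => if j ≤ s + k then W j else y) s (s + (k+1:ℕ)) 0 := by
        conv_lhs => unfold Sp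
        rw [span_le]
        rintro _ ⟨j, h1, h2, h3, rfl⟩
        have := mem_Sp (U := fun j => if j ≤ s + k then W j else y) (s := s) (e := s + (k+1:ℕ)) (i := 0)
          (p := p) (j := j) h1 (by push_cast; omega) h3
        simpa [h2] using this
      exact (sup_le_sup_left hle (T (fun i => G1 (c i)) 0)) hu
  have hs : ∀ x, (x, W s) ∉ G1 (c (s-1)) := by
    intro y hy
    have := hmax (k+1) ⟨s-1, fun j => if s ≤ j then W j else y, ?_, ?_, ?_⟩
    · omega
    · intro j h1 h2
      push_cast at h2
      by_cases h : j = s - 1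
      · subst h; simpa using hy
      · have h7 : s ≤ j := by omega
        have h8 : s ≤ j + 1 := by omega
        simp only [h7, h8, if_true]
        exact hW j h7 (by omega)
    · intro j h1 h2
      push_cast at h2
      by_cases h : s ≤ j
      · simp only [h, if_true]; exact hWB j h (by omega)
      · simp only [h, if_false]; exact (hG1.bd _ _ _ hy).1
    · have hle : Sp p W s (s+k) 0 ≤ Sp p (fun j => if s ≤ j then W j else y) (s-1) (s - 1 + (k+1:ℕ)) 0 := by
        conv_lhs => unfold Sp
        rw [span_le]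
        rintro _ ⟨j, h1, h2, h3, rfl⟩
        have := mem_Sp (U := fun j => if s ≤ j then W j else y) (s := s-1) (e := s - 1 + (k+1:ℕ)) (i := 0)
          (p := p) (j := j) (by omega) (by push_cast; omega) h3
        simpa [h1] using this
      exact (sup_le_sup_left hle (T (fun i => G1 (c i)) 0)) hu
  have hpure := fun i => pure_of_max hG1 hc hW hWB he hu hmax i
  -- move the relation for `u` forward
  have hmove : ∀ j : ℕ, (j:ℤ) ≤ t + r → V j ∈ T (fun i => G1 (c i)) j ⊔ Sp p W (s+j) (s+k) j := by
    intro j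
    induction j with
    | zero =>
      intro _
      simpa [hV0u] using hu
    | succ j ih =>
      intro hj
      push_cast at hj
      obtain ⟨τ, ⟨y, hy, rfl⟩, w, hw, hsum⟩ := Submodule.mem_sup.1 (ih (by omega))
      have hW' : PT (fun i => G1 (c i)) W (s+j) (s+k) := hW.mono (by omega) le_rfl
      obtain ⟨α, h1, w', h2, h3⟩ := sp_split hc hW' hw
      have hVj := hPV j (by omega) (by omega)
      have hα : α = 0 := by
        by_contra hne
        have hd := h1.resolve_left hne
        have h4 : α • W (s+k) ∈ Dom G1 (c j) := by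
          have h5 := (Dom G1 (c j)).sub_mem ((Dom G1 (c j)).sub_mem (mem_Dom.2 ⟨_, hVj⟩)
            (mem_Dom.2 ⟨_, hy j⟩)) (mem_Dom.2 ⟨_, h3⟩)
          convert h5 using 1
          rw [← hsum]; abel
        have h5 : W (s+k) ∈ Dom G1 (c j) := by
          have := (Dom G1 (c j)).smul_mem α⁻¹ h4
          rwa [smul_smul, inv_mul_cancel₀ hne, one_smul] at this
        obtain ⟨z, hz⟩ := mem_Dom.1 h5
        rw [← hc.per _ _ hd] at hz
        exact he z hz
      rw [hα, zero_smul, sub_zero] at h3
      have h4 := (G1 (c j)).sub_mem ((G1 (c j)).sub_mem hVj (hy j)) h3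
      have h5 : V (j+1) - y (j+1) - w' = 0 := by
        apply hG1.fn (c j)
        have e : ((V j, V (j+1)) - (y j, y (j+1)) - (w, w') : E × E) =
            (0, V (j+1) - y (j+1) - w') := by
          apply Prod.ext
          · simp [← hsum]
          · simp
        rw [← e]; exact h4
      have h6 : V (j+1) = y (j+1) + w' := by
        rw [sub_sub, sub_eq_zero] at h5; exact h5
      push_cast
      rw [h6]
      have e1 : s + ((j:ℤ) + 1) = s + j + 1 := by ring
      rw [e1]
      exact Submodule.add_mem_sup ⟨y, hy, rfl⟩ h2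
  -- at the final time
  obtain ⟨τ, hτ, w, hw, hsum⟩ := Submodule.mem_sup.1 (hmove (t+r) (by push_cast; omega))
  have hlen : s + ((t+r:ℕ):ℤ) ≤ s + k := by
    by_contra hcon
    have hbot : w = 0 := by
      have : Sp p W (s + ((t+r:ℕ):ℤ)) (s+k) ((t+r:ℕ):ℤ) = ⊥ := by
        unfold Sp
        rw [span_eq_bot]
        rintro _ ⟨j, h1, h2, _⟩
        omega
      rw [this] at hw
      exact (Submodule.mem_bot ℚ).1 hw
    apply hFdom
    have hFe : F = V ((t+r:ℕ):ℤ) := by rw [hF]; push_cast; rfl
    rw [hFe, ← hsum, hbot, add_zero]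
    have := hTdom hτ
    push_cast at this
    exact this
  have hW' : PT (fun i => G1 (c i)) W (s+((t+r:ℕ):ℤ)) (s+k) := hW.mono (by omega) le_rfl
  obtain ⟨α0, h1, w', h2, h3⟩ := sp_split hc hW' hw
  have hFα : F - α0 • W (s+k) ∈ Dom G1 (c (t+r)) := by
    have h4 := (Dom G1 (c (t+r))).add_mem (x := τ) (y := w - α0 • W (s+k))
      (by have := hTdom hτ; push_cast at this; exact this)
      (by have := mem_Dom.2 ⟨_, h3⟩; push_cast at this; exact this)
    convert h4 using 1
    have hFe : F = V ((t+r:ℕ):ℤ) := by rw [hF]; push_cast; rfl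
    rw [hFe, ← hsum]; abel
  have hα0 : α0 ≠ 0 := by
    rintro rfl
    apply hFdom
    simpa using hFα
  have hd0 : p ∣ s + k - (t+r) := by
    have := h1.resolve_left hα0
    push_cast at this
    exact this
  have hce : c (s+k) = c (t+r) := hc.per _ _ hd0
  have hm' : ∀ α β : ℚ, ∀ y, (α • W (s+k) + β • W s, y) ∈ G1 (c (s+k)) → α = 0 := by
    intro α β y hy
    by_contra hne
    have h4 : α • W (s+k) + β • W s ∈ Dom G1 (c (t+r)) := by
      rw [← hce]; exact mem_Dom.2 ⟨y, hy⟩
    have h5 : F + (α0 / α * β) • W s ∈ Dom G1 (c (t+r)) := by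
      have := (Dom G1 (c (t+r))).add_mem hFα ((Dom G1 (c (t+r))).smul_mem (α0/α) h4)
      convert this using 1
      rw [smul_add, smul_smul, smul_smul, div_mul_cancel₀ _ hne]
      abel
    have h6 := last_dom hG hc ha hV (by omega) h5
    rw [map_add, hFc, map_smul, smul_eq_mul] at h6
    have h7 : ph B t (t+r) (W s) ≠ 0 := by
      intro h8
      rw [h8, mul_zero, add_zero] at h6
      exact one_ne_zero h6
    exact forced_rev hG hc ha hV hrp (by omega) hW (by push_cast at hlen; omega) h7
  -- apply the gluing lemma to the shifted word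
  obtain ⟨G', B', g1, g2, g3, X, g4, g5⟩ := glue (G := G1) (c := fun i => c (i+s)) (m := k)
    (U := fun i => W (i+s)) hG1 hgood1 (hc.shift s) (by omega)
    (by
      intro j h1 h2
      have := hW (j+s) (by omega) (by omega)
      have e : j + s + 1 = j + 1 + s := by ring
      rw [e] at this
      exact this)
    (fun j h1 h2 => hWB _ (by omega) (by omega))
    (by
      intro x hx
      apply hs x
      have e1 : (-1:ℤ) + s = s - 1 := by ring
      simpa [e1] using hx)
    (by
      intro α β y hy
      apply hm' α β y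
      have e1 : (k:ℤ) + s = s + k := by ring
      simpa [e1] using hy)
    (by
      intro i
      rw [RQ_shift, T_shift (R := RQ G1 c p W s (s+k)), Sp_shift]
      have := T_shift (R := fun i => G1 (c i)) s i
      rw [this]
      exact hpure (i+s))
  refine ⟨G', B', g1, g2, fun l => (hle1 l).trans (g3 l), ?_⟩
  have hper' : Per (fun i => G' (c i)) p := fun i j h => by simp only [hc.per i j h]
  have hX : Tr (fun i => G' (c i)) (fun j => X (j-s)) := by
    intro j
    have := g4 (j-s)
    have e : j - s + 1 = j + 1 - s := by ring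
    simp only [sub_add_cancel, e] at this
    exact this
  have hXW : ∀ j, s ≤ j → j ≤ s + k → X (j-s) = W j := by
    have hW2 : PT (fun i => G' (c i)) W s (s+k) := fun j h1 h2 => g3 _ (hW j h1 h2)
    have := (hX.pt s (s+k)).eq_all (g1.pi c) hW2 (t := s) le_rfl (by omega) (by
      simpa using g5)
    exact this
  have hfin : T (fun i => G1 (c i)) 0 ⊔ Sp p W s (s+k) 0 ≤ T (fun i => G' (c i)) 0 := by
    apply sup_le
    · exact T_mono (fun i => g3 _) 0
    · unfold Sp
      rw [span_le]
      rintro _ ⟨j, h1, h2, h3, rfl⟩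
      apply T_per hper' h3
      exact ⟨_, hX, hXW j h1 h2⟩
  exact hfin hu

theorem Wd.rev {c : ℤ → L} {p : ℤ} (h : Wd c p) : Wd (fun i => inv (c (-1 - i))) p where
  red := rev_red h.red
  pos := h.pos
  per := fun i j hij => by
    rw [h.per (-1-i) (-1-j) (by
      have e : -1 - i - (-1 - j) = -(i - j) := by ring
      rw [e]; exact (dvd_neg).2 hij)]
  min := fun q hq => by
    have h1 : p ∣ -q := h.min (-q) (fun i => by
      have := hq (-1 - i)
      have e1 : -1 - (-1 - i + q) = i + -q := by ring
      have e2 : -1 - (-1 - i) = i := by ring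
      rw [e1, e2] at this
      have := congrArg inv this
      simpa using this)
    exact (dvd_neg).1 h1

theorem close {G : Fam} {B : ℕ} {c : ℤ → L} {p : ℤ} (hG : Str G B) (hgood : Good G)
    (hc : Wd c p) (u : E) :
    ∃ (G' : Fam) (B' : ℕ), Str G' B' ∧ Good G' ∧ (∀ l, G l ≤ G' l) ∧
      u ∈ T (fun i => G' (c i)) 0 := by
  have hp := hc.pos
  have hper : Per (fun i => G (c i)) p := fun i j h => by simp only [hc.per i j h]
  obtain ⟨K, hK⟩ := exists_K hp hper (hG.bdd c)
  by_cases hf : u ∈ Fwd (fun i => G (c i)) K 0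
  · by_cases hb : u ∈ Bwd (fun i => G (c i)) K 0
    · exact ⟨G, B, hG, hgood, fun l => le_rfl, hK 0 u hf hb⟩
    · have hb' : u ∉ Fwd (fun i => G (inv (c (-1 - i)))) K 0 := by
        rintro ⟨x, hx, rfl⟩
        apply hb
        refine ⟨fun j => x (-j), ?_, by simp⟩
        intro j h1 h2
        have := hG.sym' _ _ _ (hx (-1-j) (by omega) (by omega))
        have e1 : -1 - (-1 - j) = j := by ring
        have e2 : -1 - j + 1 = -j := by ring
        have e3 : -(j+1) = -1 - j := by ring
        simp only [e1, e2] at this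
        simp only [e3]
        exact this
      obtain ⟨G', B', g1, g2, g3, x, hx, hx0⟩ := closeFwd hG hgood hc.rev u hb'
      refine ⟨G', B', g1, g2, g3, fun j => x (-j), ?_, by simpa using hx0⟩
      intro j
      have := g1.sym' _ _ _ (hx (-1-j))
      have e1 : -1 - (-1 - j) = j := by ring
      have e2 : -1 - j + 1 = -j := by ring
      have e3 : -(j+1) = -1 - j := by ring
      simp only [e1, e2] at this
      simp only [e3]
      exact this
  · exact closeFwd hG hgood hc u hf

end Pool.Agent.V1114.Nil
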