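import Pool.Agent.V1114.Nil.QStep

set_option autoImplicit false
set_option linter.unusedVariables false

namespace Pool.Agent.V1114.Nil

open Submodule Polynomial

section
variable {G : Fam} {B : ℕ} {c : ℤ → L} {p m : ℤ} {n : ℕ} {U : ℤ → E}

theorem GD.base_step (D : GD G B c p m n U) {j : ℤ} (h0 : 0 ≤ j) (h1 : j < n * p) :
    (Wb B m U j, Cyc B m p n U (j+1)) ∈ Gl G B c p m n U (c j) := by
  have hp := D.hc.pos
  have hN := D.hn
  by_cases h : j < m
  · rw [Cyc_base hp (by omega) (by omega)]
    unfold Wb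
    rw [if_pos h.le, if_pos (by omega)]
    exact le_Ext _ (D.hU j h0 h)
  · have := pair_mem_Ext (G := G) (c := c) (V := Cyc B m p n U) (a := m) (b := n*p) j (by omega) h1
    rw [Cyc_base hp h0 h1] at this
    exact this

theorem GD.cyc_tr (D : GD G B c p m n U) : Tr (fun i => Gl G B c p m n U (c i)) (Cyc B m p n U) := by
  intro j
  have hp := D.hc.pos
  have hr0 := Int.emod_nonneg j hp.ne'
  have hr1 := Int.emod_lt_of_pos j hp
  have hdm := Int.emod_add_mul_ediv j p
  have key : (Cyc B m p n U j, Cyc B m p n U (j+1)) =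
      ∑ i ∈ Finset.range n, (lg n i).eval ((j / p : ℤ) : ℚ) •
        (Wb B m U (j % p + i * p), Cyc B m p n U (j % p + i * p + 1)) := by
    apply Prod.ext
    · rw [Prod.fst_sum]; rfl
    · rw [Prod.snd_sum]
      simp only [Prod.smul_snd]
      by_cases h : j % p + 1 < p
      · have e1 : (j+1) % p = j % p + 1 := by
          rw [Int.add_emod, Int.emod_eq_of_lt (by omega : (0:ℤ) ≤ 1) (by omega : (1:ℤ) < p)]
          exact Int.emod_eq_of_lt (by omega) h
        have e2 : (j+1) / p = j / p := by
          have h3 := Int.emod_add_mul_ediv (j+1) p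
          rw [e1] at h3
          have : p * ((j+1)/p) = p * (j/p) := by linarith
          exact mul_left_cancel₀ hp.ne' this
        have : Cyc B m p n U (j+1) = ∑ i ∈ Finset.range n, (lg n i).eval ((j / p : ℤ) : ℚ) •
            Wb B m U (j % p + 1 + i * p) := by
          unfold Cyc Zs
          rw [e1, e2]
        rw [this]
        apply Finset.sum_congr rfl
        intro i hi
        congr 1
        have hi' : (i:ℤ) + 1 ≤ n := by exact_mod_cast Finset.mem_range.1 hi
        have h4 : ((i:ℤ) + 1) * p ≤ n * p := mul_le_mul_of_nonneg_right hi' hp.le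
        have h5 : ((i:ℤ) + 1) * p = i * p + p := by ring
        have h6 : 0 ≤ (i:ℤ) * p := by positivity
        rw [Cyc_base hp (by omega) (by omega)]
        congr 1; ring
      · have e1 : j % p + 1 = p := by omega
        have e2 : j + 1 = (j / p + 1) * p := by linarith
        rw [e2, Cyc_wrap hp]
        apply Finset.sum_congr rfl
        intro i _
        congr 2
        have : (j / p + 1) * p - p = j / p * p := by ring
        linarith
  show (Cyc B m p n U j, Cyc B m p n U (j+1)) ∈ Gl G B c p m n U (c j)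
  rw [key]
  apply Submodule.sum_mem
  intro i hi
  apply Submodule.smul_mem
  have hi' : (i:ℤ) + 1 ≤ n := by exact_mod_cast Finset.mem_range.1 hi
  have h4 : ((i:ℤ) + 1) * p ≤ n * p := mul_le_mul_of_nonneg_right hi' hp.le
  have h5 : ((i:ℤ) + 1) * p = i * p + p := by ring
  have h6 : 0 ≤ (i:ℤ) * p := by positivity
  have hc : c j = c (j % p + i * p) := D.hc.per _ _ (by
    have e : j - (j % p + i * p) = (j - j % p) - i * p := by ring
    rw [e]
    exact (Int.dvd_self_sub_emod).sub (Dvd.intro_left _ rfl))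
  rw [hc]
  exact D.base_step (by omega) (by omega)

noncomputable def ZT (B : ℕ) (m p : ℤ) (n : ℕ) (U : ℤ → E) (a : ℕ → ℚ) (s : ℤ) : ℤ → E :=
  fun j => ∑ i ∈ Finset.range n, a i • Cyc B m p n U (j + s + i * p)

theorem GD.ZT_tr (D : GD G B c p m n U) (a : ℕ → ℚ) {s : ℤ} (hs : p ∣ s) :
    Tr (fun i => Gl G B c p m n U (c i)) (ZT B m p n U a s) := by
  intro j
  have key : (ZT B m p n U a s j, ZT B m p n U a s (j+1)) = ∑ i ∈ Finset.range n, a i •
      (Cyc B m p n U (j + s + i * p), Cyc B m p n U (j + s + i * p + 1)) := by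
    unfold ZT
    apply Prod.ext
    · simp [Prod.fst_sum]
    · simp only [Prod.snd_sum, Prod.smul_snd]
      apply Finset.sum_congr rfl
      intro i _
      congr 2; ring
  show (ZT B m p n U a s j, ZT B m p n U a s (j+1)) ∈ Gl G B c p m n U (c j)
  rw [key]
  apply Submodule.sum_mem
  intro i _
  apply Submodule.smul_mem
  have hc : c j = c (j + s + i * p) := D.hc.per _ _ (by
    have e : j - (j + s + i * p) = -(s + i * p) := by ring
    rw [e]
    exact (dvd_neg).2 (hs.add (Dvd.intro_left _ rfl)))
  rw [hc]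
  exact D.cyc_tr _

theorem GD.ZT_unip (D : GD G B c p m n U) (a : ℕ → ℚ) (s : ℤ) {q : ℤ} (hq : p ∣ q) :
    Unip q (ZT B m p n U a s) := by
  have e : ZT B m p n U a s = ∑ i ∈ Finset.range n, a i • Sh (s + i * p) (Cyc B m p n U) := by
    funext j
    unfold ZT
    simp only [Finset.sum_apply, Pi.smul_apply, Sh_apply]
    apply Finset.sum_congr rfl
    intro i _
    congr 2; ring
  rw [e]
  apply Unip.sum
  intro i _
  exact ((Cyc_unip D.hc.pos hq).shift _).smul _

theorem GD.SC_repr (D : GD G B c p m n U) {t : ℤ} {v : E} (hv : v ∈ SC B m p n U t) :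
    ∃ a : ℕ → ℚ, v = ∑ i ∈ Finset.range n, a i • Cyc B m p n U (t % p + i * p) := by
  have hp := D.hc.pos
  unfold SC Sp at hv
  induction hv using Submodule.span_induction with
  | mem x hx =>
    obtain ⟨j, h1, h2, h3, rfl⟩ := hx
    have hj : j % p = t % p := Int.emod_eq_emod_iff_emod_sub_eq_zero.2 (Int.emod_eq_zero_of_dvd h3)
    have hdm := Int.emod_add_mul_ediv j p
    have hk0 : 0 ≤ j / p := Int.ediv_nonneg h1 hp.le
    have hk1 : j / p < n := Int.ediv_lt_of_lt_mul hp (by omega)
    refine ⟨fun i => if i = (j/p).toNat then 1 else 0, ?_⟩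
    rw [Finset.sum_eq_single (j/p).toNat]
    · beta_reduce
      rw [if_pos rfl, one_smul]
      congr 1
      have : (((j/p).toNat : ℕ) : ℤ) = j / p := by omega
      rw [this, ← hj]; linarith
    · intro i _ hne
      beta_reduce
      rw [if_neg hne, zero_smul]
    · intro h; exact absurd (Finset.mem_range.2 (by omega)) h
  | zero => exact ⟨0, by simp⟩
  | add x y _ _ hx hy =>
    obtain ⟨a, rfl⟩ := hx
    obtain ⟨b, rfl⟩ := hy
    exact ⟨a + b, by simp [add_smul, Finset.sum_add_distrib]⟩
  | smul r x _ hx =>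
    obtain ⟨a, rfl⟩ := hx
    exact ⟨fun i => r * a i, by simp [mul_smul, Finset.smul_sum]⟩

theorem GD.Cyc_mem_SC (D : GD G B c p m n U) {j t : ℤ} (h : p ∣ j - t) :
    Cyc B m p n U j ∈ SC B m p n U t := by
  have hp := D.hc.pos
  have hr0 := Int.emod_nonneg j hp.ne'
  have hr1 := Int.emod_lt_of_pos j hp
  have e0 : Cyc B m p n U j = ∑ i ∈ Finset.range n, (lg n i).eval ((j / p : ℤ) : ℚ) •
      Wb B m U (j % p + i * p) := rfl
  rw [e0]
  apply Submodule.sum_mem
  intro i hi
  apply Submodule.smul_mem
  have hi' : (i:ℤ) + 1 ≤ n := by exact_mod_cast Finset.mem_range.1 hi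
  have h4 : ((i:ℤ) + 1) * p ≤ n * p := mul_le_mul_of_nonneg_right hi' hp.le
  have h5 : ((i:ℤ) + 1) * p = i * p + p := by ring
  have h6 : 0 ≤ (i:ℤ) * p := by positivity
  have h7 := mem_Sp (p := p) (U := Cyc B m p n U) (s := 0) (e := n*p-1) (i := t)
    (j := j % p + i * p) (by omega) (by omega) (by
      have e : j % p + i * p - t = -(j - j % p) + i * p + (j - t) := by ring
      rw [e]
      exact (((dvd_neg).2 Int.dvd_self_sub_emod).add (Dvd.intro_left _ rfl)).add h)
  rw [Cyc_base hp (by omega) (by omega)] at h7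
  exact h7

/-- a sparse combination of translates of the cycle cannot be unseen at two far apart times -/
theorem GD.endgame (D : GD G B c p m n U) (hn2 : 2 * m + 2 ≤ n) (a : ℕ → ℚ) {i1 i2 : ℤ}
    (hM : i1 + n * p - m ≤ i2)
    (z1 : ∀ k, m < k → k < n * p → p ∣ k - i1 →
      ph B m k (∑ i ∈ Finset.range n, a i • Cyc B m p n U (i1 % p + i * p)) = 0)
    (z2 : ∀ k, m < k → k < n * p → p ∣ k - i2 →
      ph B m k (∑ i ∈ Finset.range n, a i • Cyc B m p n U (i2 - i1 / p * p + i * p)) = 0) :
    ∀ i, i < n → a i = 0 := by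
  have hp := D.hc.pos
  have hm := D.hm
  have hr10 := Int.emod_nonneg i1 hp.ne'
  have hr11 := Int.emod_lt_of_pos i1 hp
  have hr20 := Int.emod_nonneg i2 hp.ne'
  have hr21 := Int.emod_lt_of_pos i2 hp
  have hd1 := Int.emod_add_mul_ediv i1 p
  have hd2 := Int.emod_add_mul_ediv i2 p
  have bnd : ∀ i : ℕ, i < n → (i:ℤ) * p + p ≤ n * p := by
    intro i hi
    have hi' : (i:ℤ) + 1 ≤ n := by exact_mod_cast hi
    have h4 : ((i:ℤ) + 1) * p ≤ n * p := mul_le_mul_of_nonneg_right hi' hp.le
    linarith
  have big : ∀ i : ℕ, m < i → m < (i:ℤ) * p := by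
    intro i hi
    nlinarith
  -- high coefficients vanish
  have a1 : ∀ i : ℕ, m < i → i < n → a i = 0 := by
    intro i hi1 hi2
    have hb := bnd i hi2
    have hg := big i hi1
    have h := z1 (i1 % p + i * p) (by omega) (by omega) (by
      have e : i1 % p + i * p - i1 = -(i1 - i1 % p) + i * p := by ring
      rw [e]
      exact ((dvd_neg).2 Int.dvd_self_sub_emod).add (Dvd.intro_left _ rfl))
    rw [map_sum, Finset.sum_eq_single i] at h
    · rw [map_smul, Cyc_base hp (by omega) (by omega), Wb_ph D.hUB (by omega) (by omega),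
        if_pos rfl] at h
      simpa using h
    · intro i' hi' hne
      have hb' := bnd i' (Finset.mem_range.1 hi')
      have h6 : 0 ≤ (i':ℤ) * p := by positivity
      rw [map_smul, Cyc_base hp (by omega) (by omega), Wb_ph D.hUB (by omega) (by omega), if_neg]
      · simp
      · intro h7
        apply hne
        have h8 : (i':ℤ) * p = i * p := by linarith
        exact_mod_cast mul_right_cancel₀ hp.ne' h8
    · intro h7; exact absurd (Finset.mem_range.2 hi2) h7
  set M : ℤ := i2 / p - i1 / p with hMd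
  have hMm : m < M := by
    have h1 : (n - m - 1) * p < M * p := by
      have e1 : M * p = (i2 - i2 % p) - (i1 - i1 % p) := by
        rw [hMd]; linarith
      have e2 : (n - m - 1) * p = n * p - m * p - p := by ring
      have e3 : m ≤ m * p := by nlinarith
      rw [e1, e2]
      have : i2 - i1 ≥ n * p - m := by linarith
      by_cases hp1 : m * p = m
      · omega
      · omega
    have h2 : (n:ℤ) - m - 1 < M := lt_of_mul_lt_mul_right h1 hp.le
    omega
  -- evaluation equations at the later time
  have a2 : ∀ i : ℕ, m < i → i < n →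
      ∑ i' ∈ Finset.range n, a i' * (lg n i).eval (((M + i' : ℤ)) : ℚ) = 0 := by
    intro i hi1 hi2
    have hb := bnd i hi2
    have hg := big i hi1
    have hk1 : m < i2 % p + i * p := by omega
    have hk2 : i2 % p + i * p < n * p := by omega
    have h := z2 (i2 % p + i * p) hk1 hk2 (by
      have e : i2 % p + i * p - i2 = -(i2 - i2 % p) + i * p := by ring
      rw [e]
      exact ((dvd_neg).2 Int.dvd_self_sub_emod).add (Dvd.intro_left _ rfl))
    rw [map_sum] at h
    rw [← h]
    apply Finset.sum_congr rfl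
    intro i' _
    rw [map_smul, smul_eq_mul]
    congr 1
    unfold Cyc
    rw [Zs_ph hp _ hm D.hUB hk1 hk2, if_pos]
    · have e1 : (i2 % p + i * p) / p = i := by
        rw [Int.add_mul_ediv_right _ _ hp.ne', Int.ediv_eq_zero_of_lt hr20 hr21, zero_add]
      have e2 : (i2 - i1 / p * p + i' * p) / p = M + i' := by
        have : i2 - i1 / p * p + i' * p = i2 + (-(i1/p) + i') * p := by ring
        rw [this, Int.add_mul_ediv_right _ _ hp.ne', hMd]; ring
      rw [e1, e2]
      simp
    · have e : i2 - i1 / p * p + i' * p - (i2 % p + i * p) = (i2 - i2 % p) + (-(i1/p) + i' - i) * p := by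
        ring
      rw [e]
      exact (Int.dvd_self_sub_emod).add (Dvd.intro_left _ rfl)
  -- the polynomial trick
  intro i0 hi0
  by_cases hi0m : m < i0
  · exact a1 i0 hi0m hi0
  set μ := m.toNat with hμ
  have hμm : (μ:ℤ) = m := by omega
  have hi0μ : i0 ≤ μ := by omega
  set f : ℚ[X] := (∏ i ∈ Finset.range (μ+1), (X - C (i:ℚ))) *
    ∏ i ∈ (Finset.range (μ+1)).erase i0, (X - C ((M + i : ℤ) : ℚ)) with hf
  have hfd : f.degree < n := by
    have h1 : f.natDegree ≤ (μ+1) + μ := by
      rw [hf]
      refine natDegree_mul_le.trans (add_le_add ?_ ?_)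
      · rw [natDegree_prod_of_monic _ _ (fun i _ => monic_X_sub_C _)]
        simp only [natDegree_X_sub_C, Finset.sum_const, Finset.card_range, smul_eq_mul, mul_one]
        exact le_rfl
      · rw [natDegree_prod_of_monic _ _ (fun i _ => monic_X_sub_C _)]
        simp only [natDegree_X_sub_C, Finset.sum_const, smul_eq_mul, mul_one]
        rw [Finset.card_erase_of_mem (Finset.mem_range.2 (by omega))]
        simp
    have h2 : f.natDegree < n := by omega
    exact lt_of_le_of_lt degree_le_natDegree (by exact_mod_cast h2)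
  have f1 : ∀ i : ℕ, i ≤ μ → f.eval (i:ℚ) = 0 := by
    intro i hi
    rw [hf, eval_mul, eval_prod, Finset.prod_eq_zero (Finset.mem_range.2 (by omega : i < μ+1)), zero_mul]
    simp
  have f2 : ∀ i : ℕ, i ≤ μ → i ≠ i0 → f.eval ((M + i : ℤ):ℚ) = 0 := by
    intro i hi hne
    rw [hf, eval_mul]
    apply mul_eq_zero_of_right
    rw [eval_prod]
    exact Finset.prod_eq_zero (Finset.mem_erase.2 ⟨hne, Finset.mem_range.2 (by omega : i < μ+1)⟩)
      (by simp)
  have f3 : f.eval ((M + i0 : ℤ):ℚ) ≠ 0 := by
    rw [hf, eval_mul]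
    apply mul_ne_zero
    · rw [eval_prod, Finset.prod_ne_zero_iff]
      intro i hi
      rw [Finset.mem_range] at hi
      simp only [eval_sub, eval_X, eval_C]
      rw [sub_ne_zero]
      have : M + i0 ≠ (i:ℤ) := by omega
      exact_mod_cast this
    · rw [eval_prod, Finset.prod_ne_zero_iff]
      intro i hi
      rw [Finset.mem_erase, Finset.mem_range] at hi
      simp only [eval_sub, eval_X, eval_C]
      rw [sub_ne_zero]
      have : M + i0 ≠ M + i := by omega
      exact_mod_cast this
  have s1 : ∑ i' ∈ Finset.range n, a i' * f.eval ((M + i' : ℤ):ℚ) = 0 := by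
    have h1 : ∀ i' ∈ Finset.range n, a i' * f.eval ((M + i' : ℤ):ℚ) =
        ∑ i ∈ Finset.range n, f.eval (i:ℚ) * (a i' * (lg n i).eval ((M + i' : ℤ):ℚ)) := by
      intro i' _
      rw [lg_interp_eval f hfd, Finset.mul_sum]
      apply Finset.sum_congr rfl
      intro i _; ring
    rw [Finset.sum_congr rfl h1, Finset.sum_comm]
    apply Finset.sum_eq_zero
    intro i hi
    rw [← Finset.mul_sum]
    by_cases h2 : i ≤ μ
    · rw [f1 i h2, zero_mul]
    · rw [a2 i (by omega) (Finset.mem_range.1 hi), mul_zero]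
  rw [Finset.sum_eq_single i0] at s1
  · exact (mul_eq_zero.1 s1).resolve_right f3
  · intro i hi hne
    by_cases h2 : i ≤ μ
    · rw [f2 i h2 hne, mul_zero]
    · rw [a1 i (by omega) (Finset.mem_range.1 hi), zero_mul]
  · intro h; exact absurd (Finset.mem_range.2 hi0) h

end

end Pool.Agent.V1114.Nil
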