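import Pool.Agent.V1114.Nil.Path

set_option autoImplicit false
set_option linter.unusedVariables false

namespace Pool.Agent.V1114.Nil

open Submodule Polynomial

noncomputable def lg (n i : ℕ) : ℚ[X] := Lagrange.basis (Finset.range n) (fun i : ℕ => (i:ℚ)) i

theorem injN (n : ℕ) : Set.InjOn (fun i : ℕ => (i:ℚ)) (Finset.range n) := by
  intro i _ j _ h
  simpa using h

theorem lg_node {n i k : ℕ} (hi : i < n) (hk : k < n) :
    (lg n i).eval (k:ℚ) = if k = i then 1 else 0 := by
  unfold lg
  by_cases h : k = i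
  · subst h
    rw [if_pos rfl]
    exact Lagrange.eval_basis_self (injN n) (Finset.mem_range.2 hk)
  · rw [if_neg h]
    exact Lagrange.eval_basis_of_ne (v := fun i : ℕ => (i:ℚ)) (Ne.symm h) (Finset.mem_range.2 hk)

theorem lg_interp {n : ℕ} (f : ℚ[X]) (hf : f.degree < n) :
    f = ∑ i ∈ Finset.range n, C (f.eval (i:ℚ)) * lg n i := by
  have := Lagrange.eq_interpolate (s := Finset.range n) (v := fun i : ℕ => (i:ℚ)) (f := f) (injN n)
    (by simpa using hf)
  rw [Lagrange.interpolate_apply] at this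
  exact this

theorem lg_interp_eval {n : ℕ} (f : ℚ[X]) (hf : f.degree < n) (t : ℚ) :
    f.eval t = ∑ i ∈ Finset.range n, f.eval (i:ℚ) * (lg n i).eval t := by
  conv_lhs => rw [lg_interp f hf]
  simp [eval_finsetSum]

theorem lg_degree {n i : ℕ} (hi : i < n) : (lg n i).degree < n := by
  unfold lg
  rw [Lagrange.degree_basis (injN n) (Finset.mem_range.2 hi)]
  simp only [Finset.card_range]
  exact_mod_cast Nat.sub_lt (by omega) one_pos

theorem lg_zero_ne {n : ℕ} (hn : 0 < n) : (lg n 0).eval (n:ℚ) ≠ 0 := by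
  unfold lg Lagrange.basis
  rw [eval_prod, Finset.prod_ne_zero_iff]
  intro j hj
  rw [Finset.mem_erase, Finset.mem_range] at hj
  unfold Lagrange.basisDivisor
  simp only [eval_mul, eval_C, eval_sub, eval_X]
  apply mul_ne_zero
  · apply inv_ne_zero
    rw [sub_ne_zero]
    exact_mod_cast hj.1.symm
  · rw [sub_ne_zero]
    exact_mod_cast (by omega : n ≠ j)

/-- base vectors -/
noncomputable def Wb (B : ℕ) (m : ℤ) (U : ℤ → E) (j : ℤ) : E :=
  if j ≤ m then U j else Finsupp.single (B + (j - m - 1).toNat) 1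

/-- sequences given by polynomial coefficients -/
noncomputable def Zs (B : ℕ) (m p : ℤ) (n : ℕ) (U : ℤ → E) (f : ℕ → ℚ[X]) (j : ℤ) : E :=
  ∑ i ∈ Finset.range n, (f i).eval ((j / p : ℤ) : ℚ) • Wb B m U (j % p + i * p)

noncomputable def Cyc (B : ℕ) (m p : ℤ) (n : ℕ) (U : ℤ → E) : ℤ → E := Zs B m p n U (lg n)

section
variable {B : ℕ} {m p : ℤ} {n : ℕ} {U : ℤ → E}

theorem Cyc_base (hp : 0 < p) {j : ℤ} (h0 : 0 ≤ j) (h1 : j < n * p) :
    Cyc B m p n U j = Wb B m U j := by
  have hk0 : 0 ≤ j / p := Int.ediv_nonneg h0 hp.le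
  have hk1 : j / p < n := Int.ediv_lt_of_lt_mul hp h1
  obtain ⟨k, hk⟩ := Int.eq_ofNat_of_zero_le hk0
  have hk' : k < n := by omega
  unfold Cyc Zs
  rw [Finset.sum_eq_single k]
  · rw [hk]
    have := lg_node hk' hk'
    rw [if_pos rfl] at this
    push_cast
    rw [this, one_smul]
    congr 1
    have := Int.emod_add_mul_ediv j p
    rw [hk] at this
    linarith [this]
  · intro i hi hne
    rw [hk]
    have := lg_node (Finset.mem_range.1 hi) hk'
    rw [if_neg hne.symm] at this
    push_cast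
    rw [this, zero_smul]
  · intro h; exact absurd (Finset.mem_range.2 hk') h

theorem Cyc_mul (hp : 0 < p) (k : ℤ) :
    Cyc B m p n U (k * p) = ∑ i ∈ Finset.range n, (lg n i).eval (k : ℚ) • Wb B m U (i * p) := by
  unfold Cyc Zs
  rw [Int.mul_ediv_cancel _ hp.ne', Int.mul_emod_left]
  simp

/-- the step inside the cycle, wrap-around identity -/
theorem Cyc_wrap (hp : 0 < p) (k : ℤ) :
    Cyc B m p n U ((k+1) * p) = ∑ i ∈ Finset.range n, (lg n i).eval (k : ℚ) •
      Cyc B m p n U ((i+1) * p) := by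
  rw [Cyc_mul hp]
  have h1 : ∀ i ∈ Finset.range n, (lg n i).eval (k : ℚ) • Cyc B m p n U (((i:ℤ)+1) * p) =
      ∑ l ∈ Finset.range n, ((lg n i).eval (k : ℚ) * (lg n l).eval ((i:ℚ)+1)) • Wb B m U (l * p) := by
    intro i _
    rw [Cyc_mul hp, Finset.smul_sum]
    apply Finset.sum_congr rfl
    intro l _
    rw [smul_smul]; push_cast; rfl
  rw [Finset.sum_congr rfl h1, Finset.sum_comm]
  apply Finset.sum_congr rfl
  intro l hl
  rw [← Finset.sum_smul]
  congr 1
  have h2 := lg_interp_eval (n := n) ((lg n l).comp (X + C 1)) (by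
    have : ((lg n l).comp (X + C 1)) = taylor 1 (lg n l) := rfl
    rw [this, degree_taylor]
    exact lg_degree (Finset.mem_range.1 hl)) (k:ℚ)
  simp only [eval_comp, eval_add, eval_X, eval_C] at h2
  push_cast
  rw [h2]
  apply Finset.sum_congr rfl
  intro i _
  ring

theorem Wb_ph {k : ℤ} (hU : ∀ j, 0 ≤ j → j ≤ m → U j ∈ EB B) (hk : m < k) {j : ℤ} (hj : 0 ≤ j) :
    ph B m k (Wb B m U j) = if j = k then 1 else 0 := by
  unfold Wb
  by_cases h : j ≤ m
  · rw [if_pos h, ph_EB (hU j hj h), if_neg (by omega)]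
  · rw [if_neg h]
    exact ph_single (by omega) hk

theorem Zs_ph (hp : 0 < p) (f : ℕ → ℚ[X]) {k : ℤ} (hm : 0 ≤ m) (hU : ∀ j, 0 ≤ j → j ≤ m → U j ∈ EB B)
    (hk : m < k)
    (hk1 : k < n * p) (j : ℤ) :
    ph B m k (Zs B m p n U f j) =
      if p ∣ j - k then (f (k / p).toNat).eval ((j / p : ℤ) : ℚ) else 0 := by
  unfold Zs
  rw [map_sum]
  have hk0 : 0 ≤ k / p := Int.ediv_nonneg (by omega) hp.le
  have hk2 : k / p < n := Int.ediv_lt_of_lt_mul hp hk1
  have hj0 := Int.emod_nonneg j hp.ne'
  have hj1 := Int.emod_lt_of_pos j hp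
  have hkd := Int.emod_add_mul_ediv k p
  have hk3 := Int.emod_nonneg k hp.ne'
  have hk4 := Int.emod_lt_of_pos k hp
  have key : ∀ i : ℕ, (j % p + i * p = k ↔ (j % p = k % p ∧ (i:ℤ) = k / p)) := by
    intro i
    constructor
    · intro h
      have h1 : k % p = j % p := by
        rw [← h, Int.add_mul_emod_self_right, Int.emod_emod_of_dvd _ (dvd_refl p)]
      refine ⟨h1.symm, ?_⟩
      have h2 : (i:ℤ) * p = (k/p) * p := by linarith
      exact mul_right_cancel₀ hp.ne' h2
    · rintro ⟨h1, h2⟩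
      rw [h1, h2]; linarith
  by_cases h : p ∣ j - k
  · rw [if_pos h, Finset.sum_eq_single (k/p).toNat]
    · rw [map_smul, Wb_ph hU hk (by positivity)]
      have : j % p + ((k/p).toNat : ℤ) * p = k := by
        rw [key]
        exact ⟨Int.emod_eq_emod_iff_emod_sub_eq_zero.2 (Int.emod_eq_zero_of_dvd h), by omega⟩
      rw [if_pos this]; simp
    · intro i _ hne
      rw [map_smul, Wb_ph hU hk (by positivity)]
      have : ¬ (j % p + (i : ℤ) * p = k) := by
        rw [key]
        rintro ⟨_, h2⟩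
        apply hne; omega
      rw [if_neg this]; simp
    · intro h3
      exact absurd (Finset.mem_range.2 (by omega)) h3
  · rw [if_neg h]
    apply Finset.sum_eq_zero
    intro i _
    rw [map_smul, Wb_ph hU hk (by positivity)]
    have : ¬ (j % p + (i : ℤ) * p = k) := by
      rw [key]
      rintro ⟨h1, _⟩
      exact h (Int.dvd_of_emod_eq_zero (Int.emod_eq_emod_iff_emod_sub_eq_zero.1 h1))
    rw [if_neg this]; simp

/-- unipotence of the polynomial sequences -/
theorem Zs_unip (hp : 0 < p) {q : ℤ} (hq : p ∣ q) : ∀ (N : ℕ) (f : ℕ → ℚ[X]),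
    (∀ i, i < n → (f i).degree < N) → ((Sh q - 1)^N) (Zs B m p n U f) = 0 := by
  obtain ⟨q', rfl⟩ := hq
  intro N
  induction N with
  | zero =>
    intro f hf
    have : Zs B m p n U f = 0 := by
      funext j
      unfold Zs
      apply Finset.sum_eq_zero
      intro i hi
      have := hf i (Finset.mem_range.1 hi)
      simp only [CharP.cast_eq_zero] at this
      have : f i = 0 := by
        rw [← degree_eq_bot]
        exact Nat.WithBot.lt_zero_iff.1 this
      rw [this]; simp
    rw [this, map_zero]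
  | succ N ih =>
    intro f hf
    rw [pow_succ, Module.End.mul_apply]
    have h1 : (Sh (p * q') - 1) (Zs B m p n U f) =
        Zs B m p n U (fun i => taylor (q':ℚ) (f i) - f i) := by
      funext j
      simp only [LinearMap.sub_apply, Pi.sub_apply, Sh_apply, Module.End.one_apply]
      unfold Zs
      rw [← Finset.sum_sub_distrib]
      apply Finset.sum_congr rfl
      intro i _
      have e1 : (j + p * q') % p = j % p := by simp
      have e2 : (j + p * q') / p = j / p + q' := by
        rw [Int.add_mul_ediv_left _ _ hp.ne']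
      rw [e1, e2, ← sub_smul]
      congr 1
      rw [eval_sub, taylor_eval]
      push_cast; rfl
    rw [h1]
    apply ih
    intro i hi
    have hd := hf i hi
    by_cases h0 : f i = 0
    · rw [h0]; simp
    · have h2 : (taylor (q':ℚ) (f i) - f i).degree < (taylor (q':ℚ) (f i)).degree := by
        apply degree_sub_lt_left (degree_taylor _ _)
        · rwa [ne_eq, taylor_eq_zero]
        · exact leadingCoeff_taylor _ _
      rw [degree_taylor] at h2
      have h3 : (f i).degree ≤ N := by
        rw [degree_eq_natDegree h0] at hd ⊢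
        exact_mod_cast Nat.lt_succ_iff.1 (by exact_mod_cast hd)
      exact lt_of_lt_of_le h2 h3

theorem Cyc_unip (hp : 0 < p) {q : ℤ} (hq : p ∣ q) : Unip q (Cyc B m p n U) :=
  ⟨n, Zs_unip hp hq n _ (fun i hi => lg_degree hi)⟩

end

end Pool.Agent.V1114.Nil
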