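import Pool.Agent.V1114.Nil.Basic

set_option autoImplicit false
set_option linter.unusedVariables false

namespace Pool.Agent.V1114.Nil

open Submodule

/-- letters: (generator, sign) -/
abbrev L := Bool × Bool

def inv (l : L) : L := (l.1, !l.2)

@[simp] theorem inv_inv (l : L) : inv (inv l) = l := by simp [inv]

theorem ne_inv (l : L) : l ≠ inv l := by
  intro h
  have := congrArg Prod.snd h
  simp [inv] at this

theorem inv_ne (l : L) : inv l ≠ l := fun h => ne_inv l h.symm

theorem inv_eq_iff {l m : L} : inv l = m ↔ l = inv m := by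
  constructor
  · rintro rfl; simp
  · rintro rfl; simp

abbrev Fam := L → Submodule ℚ (E × E)

structure Str (G : Fam) (B : ℕ) : Prop where
  sym : ∀ l x y, (x,y) ∈ G l → (y,x) ∈ G (inv l)
  fn : ∀ l y, ((0:E),y) ∈ G l → y = 0
  bd : ∀ l x y, (x,y) ∈ G l → x ∈ EB B ∧ y ∈ EB B

theorem Str.inj {G : Fam} {B : ℕ} (h : Str G B) (l : L) (x : E) (hx : (x, (0:E)) ∈ G l) : x = 0 :=
  h.fn _ _ (h.sym _ _ _ hx)

theorem Str.mono {G : Fam} {B B' : ℕ} (h : Str G B) (hB : B ≤ B') : Str G B' :=
  ⟨h.sym, h.fn, fun l x y hxy => ⟨EB_mono hB (h.bd l x y hxy).1, EB_mono hB (h.bd l x y hxy).2⟩⟩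

theorem Str.pi {G : Fam} {B : ℕ} (h : Str G B) (g : ℤ → L) : PI (fun i => G (g i)) :=
  fun i => ⟨fun y hy => h.fn _ y hy, fun x hx => h.inj _ x hx⟩

theorem Str.bdd {G : Fam} {B : ℕ} (h : Str G B) (g : ℤ → L) : Bdd (fun i => G (g i)) B :=
  fun i x y hxy => h.bd _ x y hxy

theorem Str.sym' {G : Fam} {B : ℕ} (h : Str G B) (l : L) (x y : E) (hx : (x,y) ∈ G (inv l)) :
    (y,x) ∈ G l := by
  have := h.sym _ _ _ hx
  rwa [inv_inv] at this

def Red (g : ℤ → L) : Prop := ∀ i, g (i+1) ≠ inv (g i)

def Good (G : Fam) : Prop := ∀ g : ℤ → L, Red g → ∀ q : ℤ, 0 < q → (∀ i, g (i+q) = g i) →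
  ∀ x, Tr (fun i => G (g i)) x → Unip q x

/-- a reduced periodic word with its minimal period -/
structure Wd (c : ℤ → L) (p : ℤ) : Prop where
  red : Red c
  pos : 0 < p
  per : ∀ i j, p ∣ i - j → c i = c j
  min : ∀ h, (∀ i, c (i+h) = c i) → p ∣ h

theorem Wd.shift {c : ℤ → L} {p : ℤ} (h : Wd c p) (s : ℤ) : Wd (fun i => c (i+s)) p where
  red := fun i => by
    have := h.red (i+s)
    have e : i + s + 1 = i + 1 + s := by ring
    rw [e] at this; exact this
  pos := h.pos
  per := fun i j hij => h.per _ _ (by simpa using hij)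
  min := fun k hk => h.min k (fun i => by
    have := hk (i - s)
    have e1 : i - s + k + s = i + k := by ring
    have e2 : i - s + s = i := by ring
    rw [e1, e2] at this; exact this)

theorem Wd.m1 {c : ℤ → L} {p : ℤ} (hw : Wd c p) {a h : ℤ}
    (H : ∀ i, a ≤ i → i < a + p → c (i+h) = c i) : p ∣ h := by
  apply hw.min
  intro i
  have hp := hw.pos
  have h1 : p ∣ i - (a + (i-a) % p) := by
    have := Int.dvd_self_sub_emod (x := i - a) (m := p)
    have e : i - (a + (i-a)%p) = i - a - (i-a)%p := by ring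
    rw [e]; exact this
  have h2 := Int.emod_nonneg (i-a) hp.ne'
  have h3 := Int.emod_lt_of_pos (i-a) hp
  have h4 := H (a + (i-a)%p) (by omega) (by omega)
  rw [hw.per i _ h1, ← h4]
  exact hw.per _ _ (by
    have e : i + h - (a + (i-a)%p + h) = i - (a + (i-a)%p) := by ring
    rw [e]; exact h1)

theorem Wd.m2 {c : ℤ → L} {p : ℤ} (hw : Wd c p) {a h : ℤ}
    (H : ∀ i, a ≤ i → i < a + p → c (h - i) = inv (c i)) : False := by
  have hp := hw.pos
  have H' : ∀ i, c (h - i) = inv (c i) := by
    intro i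
    have h1 : p ∣ i - (a + (i-a) % p) := by
      have := Int.dvd_self_sub_emod (x := i - a) (m := p)
      have e : i - (a + (i-a)%p) = i - a - (i-a)%p := by ring
      rw [e]; exact this
    have h2 := Int.emod_nonneg (i-a) hp.ne'
    have h3 := Int.emod_lt_of_pos (i-a) hp
    have h4 := H (a + (i-a)%p) (by omega) (by omega)
    rw [hw.per i _ h1, ← h4]
    apply hw.per
    have e : h - i - (h - (a + (i-a)%p)) = -(i - (a + (i-a)%p)) := by ring
    rw [e]; exact (dvd_neg).2 h1
  rcases Int.even_or_odd' h with ⟨k, hk | hk⟩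
  · have := H' k
    have e : h - k = k := by omega
    rw [e] at this
    exact ne_inv _ this
  · have := H' k
    have e : h - k = k + 1 := by omega
    rw [e] at this
    exact hw.red k this

/-- the pair added for position `j`, in letter `l` -/
noncomputable def P (c : ℤ → L) (V : ℤ → E) (l : L) (j : ℤ) : E × E :=
  if c j = l then (V j, V (j+1)) else if c j = inv l then (V (j+1), V j) else 0

theorem P_inv (c : ℤ → L) (V : ℤ → E) (l : L) (j : ℤ) : P c V (inv l) j = (P c V l j).swap := by
  unfold P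
  by_cases h1 : c j = l
  · have h2 : c j ≠ inv l := by rw [h1]; exact ne_inv l
    simp [h1, ne_inv]
  · by_cases h2 : c j = inv l
    · simp [h2, inv_ne]
    · simp [h1, h2]

/-- extension by a path -/
noncomputable def Ext (G : Fam) (c : ℤ → L) (V : ℤ → E) (a b : ℤ) : Fam := fun l =>
  G l ⊔ span ℚ (P c V l '' (Finset.Ico a b : Set ℤ))

def Dec (G : Fam) (c : ℤ → L) (V : ℤ → E) (a b : ℤ) (l : L) (x y : E) (κ : ℤ → ℚ) : Prop :=
  ((x, y) - ∑ j ∈ Finset.Ico a b, κ j • P c V l j) ∈ G l

section
variable {G : Fam} {c : ℤ → L} {V : ℤ → E} {a b : ℤ}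

theorem le_Ext (l : L) : G l ≤ Ext G c V a b l := le_sup_left

theorem P_mem_Ext (l : L) (j : ℤ) (h1 : a ≤ j) (h2 : j < b) : P c V l j ∈ Ext G c V a b l :=
  (le_sup_right : _ ≤ Ext G c V a b l) (subset_span ⟨j, by simp [h1, h2], rfl⟩)

theorem pair_mem_Ext (j : ℤ) (h1 : a ≤ j) (h2 : j < b) : (V j, V (j+1)) ∈ Ext G c V a b (c j) := by
  have := P_mem_Ext (G := G) (c := c) (V := V) (c j) j h1 h2
  simpa [P] using this

theorem mem_Ext {l : L} {x y : E} (h : (x, y) ∈ Ext G c V a b l) : ∃ κ, Dec G c V a b l x y κ := by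
  obtain ⟨g, hg, s, hs, hgs⟩ := Submodule.mem_sup.1 h
  rw [Submodule.mem_span_image_finset_iff_exists_fun] at hs
  obtain ⟨κ, hκ⟩ := hs
  refine ⟨fun j => if h : j ∈ Finset.Ico a b then κ ⟨j, h⟩ else 0, ?_⟩
  unfold Dec
  have e : ∑ j ∈ Finset.Ico a b, (if h : j ∈ Finset.Ico a b then κ ⟨j, h⟩ else 0) • P c V l j = s := by
    rw [← hκ, ← Finset.sum_coe_sort]
    apply Finset.sum_congr rfl
    intro j _
    simp
  rw [e, ← hgs]
  simpa using hg

theorem Dec.swap (hG : ∀ l x y, (x,y) ∈ G l → (y,x) ∈ G (inv l)) {l : L} {x y : E} {κ : ℤ → ℚ}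
    (h : Dec G c V a b l x y κ) : Dec G c V a b (inv l) y x κ := by
  unfold Dec at *
  have h1 := hG l _ _ h
  have e : ((y, x) : E × E) - ∑ j ∈ Finset.Ico a b, κ j • P c V (inv l) j =
      (((x, y) - ∑ j ∈ Finset.Ico a b, κ j • P c V l j).2,
        ((x, y) - ∑ j ∈ Finset.Ico a b, κ j • P c V l j).1) := by
    apply Prod.ext
    · simp [Prod.fst_sum, Prod.snd_sum, P_inv]
    · simp [Prod.fst_sum, Prod.snd_sum, P_inv]
  rw [e]
  exact h1

theorem Ext_sym (hG : ∀ l x y, (x,y) ∈ G l → (y,x) ∈ G (inv l)) (l : L) (x y : E)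
    (h : (x,y) ∈ Ext G c V a b l) : (y,x) ∈ Ext G c V a b (inv l) := by
  obtain ⟨κ, hκ⟩ := mem_Ext h
  have h1 := hκ.swap hG
  have h2 : ∑ j ∈ Finset.Ico a b, κ j • P c V (inv l) j ∈ Ext G c V a b (inv l) :=
    Submodule.sum_mem _ (fun j hj => Submodule.smul_mem _ _
      (P_mem_Ext _ _ (Finset.mem_Ico.1 hj).1 (Finset.mem_Ico.1 hj).2))
  have h3 := (Ext G c V a b (inv l)).add_mem (le_Ext _ h1) h2
  simpa using h3

/-- coordinate formula -/
theorem Dec.coord {B : ℕ} (hG : ∀ l x y, (x,y) ∈ G l → x ∈ EB B ∧ y ∈ EB B)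
    {l : L} {x y : E} {κ : ℤ → ℚ}
    (h : Dec G c V a b l x y κ) (φ : E →ₗ[ℚ] ℚ) (k : ℤ) (ω : ℚ)
    (h0 : ∀ z ∈ EB B, φ z = 0) (hV : ∀ j, a ≤ j → j < b → φ (V j) = if j = k then 1 else 0)
    (hb : φ (V b) = ω) (hk : a < k) :
    φ x = (if k < b ∧ c k = l then κ k else 0) + (if k < b ∧ c (k-1) = inv l then κ (k-1) else 0)
      + (if a < b ∧ c (b-1) = inv l then κ (b-1) * ω else 0) := by
  have h1 : φ (x - ∑ j ∈ Finset.Ico a b, κ j • (P c V l j).1) = 0 := by
    apply h0
    have := (hG l _ _ h).1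
    simpa [Prod.fst_sum] using this
  rw [map_sub, map_sum, sub_eq_zero] at h1
  rw [h1]
  have h2 : ∀ j ∈ Finset.Ico a b, φ (κ j • (P c V l j).1) =
      (if j = k then (if c k = l then κ k else 0) else 0) +
      (if j = k - 1 then (if k < b ∧ c (k-1) = inv l then κ (k-1) else 0) else 0) +
      (if j = b - 1 then (if c (b-1) = inv l then κ (b-1) * ω else 0) else 0) := by
    intro j hj
    have hj := Finset.mem_Ico.1 hj
    rw [map_smul, smul_eq_mul]
    unfold P
    by_cases h1 : c j = l
    · have h2 : ¬ c j = inv l := by rw [h1]; exact ne_inv l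
      have e2 : (if j = k - 1 then (if k < b ∧ c (k-1) = inv l then κ (k-1) else 0) else (0:ℚ)) = 0 := by
        split_ifs with h3 h4
        · subst h3; exact absurd h4.2 h2
        · rfl
        · rfl
      have e3 : (if j = b - 1 then (if c (b-1) = inv l then κ (b-1) * ω else 0) else (0:ℚ)) = 0 := by
        split_ifs with h3 h4
        · subst h3; exact absurd h4 h2
        · rfl
        · rfl
      rw [e2, e3, add_zero, add_zero, if_pos h1]
      simp only
      rw [hV j hj.1 hj.2]
      split_ifs with h3 h4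
      · subst h3; ring
      · subst h3; exact absurd h1 h4
      · ring
    · by_cases h2 : c j = inv l
      · have e1 : (if j = k then (if c k = l then κ k else 0) else (0:ℚ)) = 0 := by
          split_ifs with h3 h4
          · subst h3; exact absurd h4 h1
          · rfl
          · rfl
        rw [e1, zero_add, if_neg h1, if_pos h2]
        simp only
        by_cases h5 : j + 1 = b
        · have hjb : j = b - 1 := by omega
          rw [h5, hb]
          have e2 : (if j = k - 1 then (if k < b ∧ c (k-1) = inv l then κ (k-1) else 0) else (0:ℚ)) = 0 := by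
            split_ifs with h3 h4
            · omega
            · rfl
            · rfl
          rw [e2, zero_add, if_pos hjb, ← hjb, if_pos h2]
        · rw [hV (j+1) (by omega) (by omega)]
          have e3 : (if j = b - 1 then (if c (b-1) = inv l then κ (b-1) * ω else 0) else (0:ℚ)) = 0 := by
            rw [if_neg (by omega)]
          rw [e3, add_zero]
          by_cases h3 : j = k - 1
          · have hk2 : j + 1 = k := by omega
            rw [if_pos hk2, if_pos h3, if_pos ⟨by omega, by rw [← h3]; exact h2⟩, h3]; ring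
          · rw [if_neg (by omega), if_neg h3]; ring
      · rw [if_neg h1, if_neg h2]
        simp only [Prod.fst_zero, map_zero, mul_zero]
        have e1 : (if j = k then (if c k = l then κ k else 0) else (0:ℚ)) = 0 := by
          split_ifs with h3 h4
          · subst h3; exact absurd h4 h1
          · rfl
          · rfl
        have e2 : (if j = k - 1 then (if k < b ∧ c (k-1) = inv l then κ (k-1) else 0) else (0:ℚ)) = 0 := by
          split_ifs with h3 h4
          · subst h3; exact absurd h4.2 h2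
          · rfl
          · rfl
        have e3 : (if j = b - 1 then (if c (b-1) = inv l then κ (b-1) * ω else 0) else (0:ℚ)) = 0 := by
          split_ifs with h3 h4
          · subst h3; exact absurd h4 h2
          · rfl
          · rfl
        rw [e1, e2, e3]; ring
  rw [Finset.sum_congr rfl h2, Finset.sum_add_distrib, Finset.sum_add_distrib,
    Finset.sum_ite_eq', Finset.sum_ite_eq', Finset.sum_ite_eq']
  congr 1
  · congr 1
    · by_cases h3 : k < b
      · have : k ∈ Finset.Ico a b := by simp [h3, hk.le]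
        simp [this, h3]
      · have : k ∉ Finset.Ico a b := by simp [h3]
        simp [this, h3]
    · by_cases h3 : k < b
      · have : k - 1 ∈ Finset.Ico a b := by simp; omega
        simp [this, h3]
      · simp [h3]
  · by_cases h3 : a < b
    · have : b - 1 ∈ Finset.Ico a b := by simp; omega
      simp [this, h3]
    · have : b - 1 ∉ Finset.Ico a b := by simp; omega
      simp [this, h3]

end

end Pool.Agent.V1114.Nil
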