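import Pool.Agent.V1114.Nil.Cyc

set_option autoImplicit false
set_option linter.unusedVariables false

namespace Pool.Agent.V1114.Nil

open Submodule Polynomial

noncomputable def Dom (G : Fam) (l : L) : Submodule ℚ E := (G l).map (LinearMap.fst ℚ E E)

theorem mem_Dom {G : Fam} {l : L} {x : E} : x ∈ Dom G l ↔ ∃ y, (x, y) ∈ G l := by
  unfold Dom
  rw [Submodule.mem_map]
  constructor
  · rintro ⟨⟨a, b⟩, h, rfl⟩; exact ⟨b, h⟩
  · rintro ⟨y, h⟩; exact ⟨(x, y), h, rfl⟩

/-- projection onto the first `B` coordinates -/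
noncomputable def rho (B : ℕ) : E →ₗ[ℚ] E :=
  ∑ i ∈ Finset.range B, (Finsupp.lapply i : E →ₗ[ℚ] ℚ).smulRight (Finsupp.single i (1:ℚ))

theorem rho_apply (B : ℕ) (x : E) (j : ℕ) : rho B x j = if j < B then x j else 0 := by
  unfold rho
  rw [LinearMap.sum_apply, Finsupp.finsetSum_apply]
  by_cases h : j < B
  · rw [if_pos h, Finset.sum_eq_single j]
    · simp
    · intro i _ hne; simp [Finsupp.single_apply, hne]
    · intro h2; exact absurd (Finset.mem_range.2 h) h2
  · rw [if_neg h]
    apply Finset.sum_eq_zero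
    intro i hi
    have : i ≠ j := by rintro rfl; exact h (Finset.mem_range.1 hi)
    simp [Finsupp.single_apply, this]

theorem rho_EB {B : ℕ} {x : E} (hx : x ∈ EB B) : rho B x = x := by
  ext j
  rw [rho_apply]
  split_ifs with h
  · rfl
  · exact (hx j (not_lt.1 h)).symm

theorem rho_single {B k : ℕ} : rho B (Finsupp.single (B + k) 1) = 0 := by
  ext j
  rw [rho_apply, Finsupp.single_apply]
  split_ifs with h h2
  · omega
  · rfl
  · rfl

theorem rho_mem (B : ℕ) (x : E) : rho B x ∈ EB B := by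
  intro i hi
  rw [rho_apply, if_neg (by omega)]

structure GD (G : Fam) (B : ℕ) (c : ℤ → L) (p m : ℤ) (n : ℕ) (U : ℤ → E) : Prop where
  hG : Str G B
  hc : Wd c p
  hm : 0 ≤ m
  hU : PT (fun i => G (c i)) U 0 m
  hUB : ∀ j, 0 ≤ j → j ≤ m → U j ∈ EB B
  h0 : ∀ x, (x, U 0) ∉ G (c (-1))
  hm' : ∀ α β : ℚ, ∀ y, (α • U m + β • U 0, y) ∈ G (c m) → α = 0
  hn : m + 2 * p + 2 ≤ n * p

/-- the glued family -/
noncomputable def Gl (G : Fam) (B : ℕ) (c : ℤ → L) (p m : ℤ) (n : ℕ) (U : ℤ → E) : Fam :=
  Ext G c (Cyc B m p n U) m (n * p)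

noncomputable def om (B : ℕ) (p m : ℤ) (n : ℕ) (U : ℤ → E) (k : ℤ) : ℚ :=
  ph B m k (Cyc B m p n U (n * p))

section
variable {G : Fam} {B : ℕ} {c : ℤ → L} {p m : ℤ} {n : ℕ} {U : ℤ → E}

theorem Red.ne' (hc : Red c) (k : ℤ) : c k ≠ inv (c (k-1)) := by
  have := hc (k-1)
  simpa using this

theorem GD.npos (D : GD G B c p m n U) : 0 < n := by
  have h1 := D.hn
  have h2 := D.hc.pos
  have h3 := D.hm
  by_contra h
  have : n = 0 := by omega
  subst this
  simp at h1
  omega

theorem GD.om_dvd (D : GD G B c p m n U) {k : ℤ} (h1 : m < k) (h2 : k < n * p)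
    (h : om B p m n U k ≠ 0) : p ∣ k := by
  unfold om Cyc at h
  rw [Zs_ph D.hc.pos _ D.hm D.hUB h1 h2] at h
  have h3 : p ∣ (n:ℤ) * p - k := by
    by_contra h4
    exact h (if_neg h4)
  have h4 : p ∣ (n:ℤ) * p := Dvd.intro_left _ rfl
  exact (Int.dvd_iff_dvd_of_dvd_sub h3).1 h4

theorem GD.cyc_ph (D : GD G B c p m n U) {k : ℤ} (h1 : m < k) (j : ℤ) (h3 : m ≤ j) (h4 : j < n * p) :
    ph B m k (Cyc B m p n U j) = if j = k then 1 else 0 := by
  rw [Cyc_base D.hc.pos (D.hm.trans h3) h4]
  exact Wb_ph D.hUB h1 (D.hm.trans h3)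

theorem GD.coord (D : GD G B c p m n U) {l : L} {x y : E} {κ : ℤ → ℚ}
    (h : Dec G c (Cyc B m p n U) m (n*p) l x y κ) (k : ℤ) (h1 : m < k) (h2 : k < n * p) :
    ph B m k x = (if c k = l then κ k else 0) + (if c (k-1) = inv l then κ (k-1) else 0)
      + (if c (n*p-1) = inv l then κ (n*p-1) * om B p m n U k else 0) := by
  have h3 : m < n * p := h1.trans h2
  rw [h.coord D.hG.bd (ph B m k) k (om B p m n U k) (fun z hz => ph_EB hz)
    (fun j hj1 hj2 => D.cyc_ph h1 j hj1 hj2) rfl h1]
  simp [h2, h3]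

theorem GD.cN (D : GD G B c p m n U) {k : ℤ} (h : p ∣ k) : c (n*p-1) = c (k-1) := by
  apply D.hc.per
  have : (n:ℤ) * p - 1 - (k-1) = n * p - k := by ring
  rw [this]
  exact (Dvd.intro_left _ rfl).sub h

theorem GD.g1 (D : GD G B c p m n U) {l : L} {x y : E} {κ : ℤ → ℚ}
    (h : Dec G c (Cyc B m p n U) m (n*p) l x y κ) (k : ℤ) (h1 : m < k) (h2 : k < n * p)
    (hk : c k = l) : ph B m k x = κ k := by
  rw [D.coord h k h1 h2]
  have h3 : ¬ c (k-1) = inv l := by
    intro h3
    have := D.hc.red.ne' k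
    rw [h3, inv_inv] at this
    exact this hk
  rw [if_pos hk, if_neg h3]
  have h4 : (if c (n*p-1) = inv l then κ (n*p-1) * om B p m n U k else 0) = 0 := by
    split_ifs with h5
    · by_cases h6 : om B p m n U k = 0
      · rw [h6, mul_zero]
      · rw [D.cN (D.om_dvd h1 h2 h6)] at h5
        exact absurd h5 h3
    · rfl
  rw [h4]; ring

theorem GD.g2 (D : GD G B c p m n U) {l : L} {x y : E} {κ : ℤ → ℚ}
    (h : Dec G c (Cyc B m p n U) m (n*p) l x y κ) (k : ℤ) (h1 : m < k) (h2 : k < n * p)
    (hk : c (k-1) = inv l) : ph B m k x = κ (k-1) + κ (n*p-1) * om B p m n U k := by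
  rw [D.coord h k h1 h2]
  have h3 : ¬ c k = l := by
    intro h3
    have := D.hc.red.ne' k
    rw [hk, inv_inv] at this
    exact this h3
  rw [if_pos hk, if_neg h3, zero_add]
  congr 1
  split_ifs with h5
  · rfl
  · by_cases h6 : om B p m n U k = 0
    · rw [h6, mul_zero]
    · rw [D.cN (D.om_dvd h1 h2 h6)] at h5
      exact absurd hk h5

theorem GD.g3 (D : GD G B c p m n U) {l : L} {x y : E} {κ : ℤ → ℚ}
    (h : Dec G c (Cyc B m p n U) m (n*p) l x y κ) (k : ℤ) (h1 : m < k) (h2 : k < n * p)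
    (hk : c k ≠ l) (hk' : c (k-1) ≠ inv l) : ph B m k x = 0 := by
  rw [D.coord h k h1 h2, if_neg hk, if_neg hk', zero_add, zero_add]
  split_ifs with h5
  · by_cases h6 : om B p m n U k = 0
    · rw [h6, mul_zero]
    · rw [D.cN (D.om_dvd h1 h2 h6)] at h5
      exact absurd h5 hk'
  · rfl

/-- a nonzero fresh coordinate restricts the letter -/
theorem GD.d0 (D : GD G B c p m n U) {l : L} {x y : E} (h : (x, y) ∈ Gl G B c p m n U l)
    (k : ℤ) (h1 : m < k) (h2 : k < n * p) (hne : ph B m k x ≠ 0) : c k = l ∨ c (k-1) = inv l := by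
  obtain ⟨κ, hκ⟩ := mem_Ext h
  by_contra hcon
  push Not at hcon
  exact hne (D.g3 hκ k h1 h2 hcon.1 hcon.2)

theorem GD.sym (D : GD G B c p m n U) {l : L} {x y : E} (h : (x, y) ∈ Gl G B c p m n U l) :
    (y, x) ∈ Gl G B c p m n U (inv l) := Ext_sym D.hG.sym _ _ _ h

/-- transport of fresh coordinates along the forward step -/
theorem GD.d1 (D : GD G B c p m n U) {x y : E} (k : ℤ) (h1 : m < k) (h2 : k + 1 < n * p)
    (h : (x, y) ∈ Gl G B c p m n U (c k)) :
    ph B m (k+1) y = ph B m k x + om B p m n U (k+1) * ph B m (n*p-1) x := by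
  obtain ⟨κ, hκ⟩ := mem_Ext h
  have hs := hκ.swap D.hG.sym
  rw [D.g1 hκ k h1 (by omega) rfl, D.g2 hs (k+1) (by omega) h2 (by simp)]
  have e : k + 1 - 1 = k := by ring
  rw [e]
  congr 1
  by_cases h6 : om B p m n U (k+1) = 0
  · rw [h6]; ring
  · have h7 := D.cN (D.om_dvd (by omega) h2 h6)
    rw [e] at h7
    rw [D.g1 hκ (n*p-1) (by omega) (by omega) h7]; ring

theorem rho_Wb (hUB : ∀ j, 0 ≤ j → j ≤ m → U j ∈ EB B) {j : ℤ} (hj : 0 ≤ j) :
    rho B (Wb B m U j) = if j ≤ m then U j else 0 := by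
  unfold Wb
  split_ifs with h
  · exact rho_EB (hUB j hj h)
  · exact rho_single

theorem GD.rho_cyc (D : GD G B c p m n U) (j : ℤ) (h3 : m < j) (h4 : j < n * p) :
    rho B (Cyc B m p n U j) = 0 := by
  rw [Cyc_base D.hc.pos (by have := D.hm; omega) h4, rho_Wb D.hUB (by have := D.hm; omega),
    if_neg (by omega)]

theorem GD.rho_cyc_m (D : GD G B c p m n U) : Cyc B m p n U m = U m := by
  rw [Cyc_base D.hc.pos D.hm (by have := D.hn; have := D.hc.pos; omega)]
  unfold Wb
  rw [if_pos le_rfl]

theorem GD.rho_fst (D : GD G B c p m n U) {l : L} {x y : E} {κ : ℤ → ℚ}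
    (h : Dec G c (Cyc B m p n U) m (n*p) l x y κ) :
    rho B x = (x - ∑ j ∈ Finset.Ico m (n*p), κ j • (P c (Cyc B m p n U) l j).1) +
      (if c m = l then κ m • U m else 0) +
      (if c (n*p-1) = inv l then κ (n*p-1) • rho B (Cyc B m p n U (n*p)) else 0) := by
  have hN := D.hn
  have hp := D.hc.pos
  have h1 : (x - ∑ j ∈ Finset.Ico m (n*p), κ j • (P c (Cyc B m p n U) l j).1) ∈ EB B := by
    have := (D.hG.bd l _ _ h).1
    simpa [Prod.fst_sum] using this
  have h2 := rho_EB h1
  rw [map_sub, sub_eq_iff_eq_add] at h2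
  rw [h2, map_sum, add_assoc]
  congr 1
  have h3 : ∀ j ∈ Finset.Ico m (n*p), rho B (κ j • (P c (Cyc B m p n U) l j).1) =
      (if j = m then (if c m = l then κ m • U m else 0) else 0) +
      (if j = n*p-1 then (if c (n*p-1) = inv l then κ (n*p-1) • rho B (Cyc B m p n U (n*p)) else 0)
        else 0) := by
    intro j hj
    have hj := Finset.mem_Ico.1 hj
    rw [map_smul]
    unfold P
    by_cases hcj : c j = l
    · have h2 : ¬ c j = inv l := by rw [hcj]; exact ne_inv l
      rw [if_pos hcj]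
      simp only
      have e3 : (if j = n*p-1 then (if c (n*p-1) = inv l then κ (n*p-1) •
          rho B (Cyc B m p n U (n*p)) else 0) else (0:E)) = 0 := by
        split_ifs with h3 h4
        · subst h3; exact absurd h4 h2
        · rfl
        · rfl
      rw [e3, add_zero]
      by_cases h5 : j = m
      · subst h5
        rw [D.rho_cyc_m, rho_EB (D.hUB _ D.hm le_rfl)]
        simp [hcj]
      · rw [D.rho_cyc j (by omega) hj.2, if_neg h5, smul_zero]
    · by_cases h2 : c j = inv l
      · rw [if_neg hcj, if_pos h2]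
        simp only
        have e1 : (if j = m then (if c m = l then κ m • U m else 0) else (0:E)) = 0 := by
          split_ifs with h3 h4
          · subst h3; exact absurd h4 hcj
          · rfl
          · rfl
        rw [e1, zero_add]
        by_cases h5 : j = n * p - 1
        · rw [if_pos h5, ← h5, if_pos h2]
          have e : j + 1 = n * p := by omega
          rw [e]
        · rw [if_neg h5, D.rho_cyc (j+1) (by omega) (by omega), smul_zero]
      · rw [if_neg hcj, if_neg h2]
        simp only [Prod.fst_zero, map_zero, smul_zero]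
        have e1 : (if j = m then (if c m = l then κ m • U m else 0) else (0:E)) = 0 := by
          split_ifs with h3 h4
          · subst h3; exact absurd h4 hcj
          · rfl
          · rfl
        have e3 : (if j = n*p-1 then (if c (n*p-1) = inv l then κ (n*p-1) •
            rho B (Cyc B m p n U (n*p)) else 0) else (0:E)) = 0 := by
          split_ifs with h3 h4
          · subst h3; exact absurd h4 h2
          · rfl
          · rfl
        rw [e1, e3, add_zero]
  have hm1 : m ∈ Finset.Ico m (n*p) := Finset.mem_Ico.2 ⟨le_rfl, by omega⟩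
  have hm2 : n*p-1 ∈ Finset.Ico m (n*p) := Finset.mem_Ico.2 ⟨by omega, by omega⟩
  rw [Finset.sum_congr rfl h3, Finset.sum_add_distrib, Finset.sum_ite_eq', Finset.sum_ite_eq']
  simp only [hm1, hm2, if_true]

theorem GD.rho_snd (D : GD G B c p m n U) {l : L} {x y : E} {κ : ℤ → ℚ}
    (h : Dec G c (Cyc B m p n U) m (n*p) l x y κ) :
    rho B y = (y - ∑ j ∈ Finset.Ico m (n*p), κ j • (P c (Cyc B m p n U) l j).2) +
      (if c m = inv l then κ m • U m else 0) +
      (if c (n*p-1) = l then κ (n*p-1) • rho B (Cyc B m p n U (n*p)) else 0) := by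
  have := D.rho_fst (h.swap D.hG.sym)
  simpa only [P_inv, Prod.fst_swap, inv_inv] using this

/-- the image of the closing vector -/
theorem GD.rho_N (D : GD G B c p m n U) :
    rho B (Cyc B m p n U (n*p)) = ∑ i ∈ Finset.range n, (lg n i).eval (n:ℚ) •
      (if (i:ℤ) * p ≤ m then U (i * p) else 0) := by
  have := Cyc_mul (B := B) (m := m) (n := n) (U := U) D.hc.pos (n:ℤ)
  rw [this, map_sum]
  apply Finset.sum_congr rfl
  intro i _
  rw [map_smul, rho_Wb D.hUB (mul_nonneg (by positivity) D.hc.pos.le)]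
  push_cast; rfl

theorem GD.rho_N_dom (D : GD G B c p m n U) :
    rho B (Cyc B m p n U (n*p)) - (lg n 0).eval (n:ℚ) • U 0 ∈ Dom G (inv (c (-1))) := by
  rw [D.rho_N, ← Finset.add_sum_erase _ _ (Finset.mem_range.2 D.npos)]
  have e : (if ((0:ℕ):ℤ) * p ≤ m then U ((0:ℕ) * p) else 0) = U 0 := by
    have := D.hm
    simp [this]
  rw [e, add_sub_cancel_left]
  apply Submodule.sum_mem
  intro i hi
  rw [Finset.mem_erase, Finset.mem_range] at hi
  apply Submodule.smul_mem
  split_ifs with h
  · have hp := D.hc.pos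
    have h1 : 0 < (i:ℤ) * p := mul_pos (by omega) hp
    have h2 := D.hU (i*p-1) (by omega) (by omega)
    have h3 : c (i * p - 1) = c (-1) := D.hc.per _ _ (by
      have : (i:ℤ) * p - 1 - -1 = i * p := by ring
      rw [this]; exact Dvd.intro_left _ rfl)
    simp only at h2
    rw [h3] at h2
    have h4 : (i:ℤ) * p - 1 + 1 = i * p := by ring
    rw [h4] at h2
    exact mem_Dom.2 ⟨_, D.hG.sym _ _ _ h2⟩
  · exact Submodule.zero_mem _

theorem GD.str (D : GD G B c p m n U) : Str (Gl G B c p m n U) (B + (n*p-m-1).toNat) where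
  sym := Ext_sym D.hG.sym
  bd := by
    have hN := D.hn
    have hp := D.hc.pos
    have hm := D.hm
    have hW : ∀ j, 0 ≤ j → j < n * p → Wb B m U j ∈ EB (B + (n*p-m-1).toNat) := by
      intro j h0 h1
      unfold Wb
      split_ifs with h
      · exact EB_mono (Nat.le_add_right _ _) (D.hUB j h0 h)
      · intro i hi
        rw [Finsupp.single_apply, if_neg (by omega)]
    apply Ext_bd D.hG.bd (Nat.le_add_right _ _)
    intro j h1 h2
    by_cases h : j < n * p
    · rw [Cyc_base D.hc.pos (by omega) h]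
      exact hW j (by omega) h
    · have : j = n * p := by omega
      rw [this, Cyc_mul hp (n:ℤ)]
      apply Submodule.sum_mem
      intro i hi
      apply Submodule.smul_mem
      apply hW
      · positivity
      · have : (i:ℤ) < n := by exact_mod_cast Finset.mem_range.1 hi
        exact mul_lt_mul_of_pos_right this hp
  fn := by
    intro l y h
    have hN := D.hn
    have hp := D.hc.pos
    have hm := D.hm
    obtain ⟨κ, hκ⟩ := mem_Ext h
    have hl : ∀ j, m < j → j < n * p → c j = l → κ j = 0 := by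
      intro j h1 h2 h3
      rw [← D.g1 hκ j h1 h2 h3, map_zero]
    have hx := D.rho_fst hκ
    rw [map_zero] at hx
    have hx0 : (0 - ∑ j ∈ Finset.Ico m (n*p), κ j • (P c (Cyc B m p n U) l j).1) ∈ Dom G l := by
      apply mem_Dom.2
      unfold Dec at hκ
      refine ⟨((0, y) - ∑ j ∈ Finset.Ico m (n*p), κ j • P c (Cyc B m p n U) l j).2, ?_⟩
      have e : ((0 - ∑ j ∈ Finset.Ico m (n*p), κ j • (P c (Cyc B m p n U) l j).1,
          ((0, y) - ∑ j ∈ Finset.Ico m (n*p), κ j • P c (Cyc B m p n U) l j).2) : E × E) =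
          ((0, y) - ∑ j ∈ Finset.Ico m (n*p), κ j • P c (Cyc B m p n U) l j) :=
        Prod.ext (by simp [Prod.fst_sum]) rfl
      rw [e]; exact hκ
    set x0 := (0 - ∑ j ∈ Finset.Ico m (n*p), κ j • (P c (Cyc B m p n U) l j).1) with hx0d
    -- coefficient of the closing pair
    have hth : c (n*p-1) = inv l → κ (n*p-1) = 0 := by
      intro h1
      have h2 : inv (c (-1)) = l := by
        have := D.cN (k := 0) (dvd_zero _)
        rw [zero_sub] at this
        rw [← this, h1, inv_inv]
      have h3 := D.rho_N_dom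
      rw [h2] at h3
      rw [if_pos h1] at hx
      have h4 : (if c m = l then κ m • U m else 0) + (κ (n*p-1) * (lg n 0).eval (n:ℚ)) • U 0 ∈ Dom G l := by
        have h5 := (Dom G l).add_mem hx0 ((Dom G l).smul_mem (κ (n*p-1)) h3)
        have h6 := (Dom G l).neg_mem h5
        convert h6 using 1
        rw [smul_sub, smul_smul]
        have : x0 = -((if c m = l then κ m • U m else 0) +
          κ (n*p-1) • rho B (Cyc B m p n U (n*p))) := by
          have h7 := hx.symm
          rw [add_assoc] at h7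
          exact eq_neg_of_add_eq_zero_left h7
        rw [this]; abel
      have h5 : (κ (n*p-1) * (lg n 0).eval (n:ℚ)) • U 0 ∈ Dom G l := by
        by_cases h6 : c m = l
        · rw [if_pos h6] at h4
          obtain ⟨y', hy'⟩ := mem_Dom.1 h4
          have h7 := D.hm' _ _ _ (h6 ▸ hy')
          rw [h7, zero_smul, zero_add] at h4
          exact h4
        · rw [if_neg h6, zero_add] at h4
          exact h4
      by_contra h6
      have h7 : κ (n*p-1) * (lg n 0).eval (n:ℚ) ≠ 0 := mul_ne_zero h6 (lg_zero_ne D.npos)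
      have h8 : U 0 ∈ Dom G l := by
        have := (Dom G l).smul_mem (κ (n*p-1) * (lg n 0).eval (n:ℚ))⁻¹ h5
        rwa [smul_smul, inv_mul_cancel₀ h7, one_smul] at this
      obtain ⟨z, hz⟩ := mem_Dom.1 h8
      apply D.h0 z
      have := D.hG.sym _ _ _ hz
      rwa [← h2, inv_inv] at this
    have hinv : ∀ j, m ≤ j → j < n * p → c j = inv l → κ j = 0 := by
      intro j h1 h2 h3
      by_cases h4 : j = n * p - 1
      · subst h4; exact hth h3
      · have h5 := D.g2 hκ (j+1) (by omega) (by omega) (by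
          have : j + 1 - 1 = j := by ring
          rw [this]; exact h3)
        have e : j + 1 - 1 = j := by ring
        rw [map_zero, e] at h5
        by_cases h6 : om B p m n U (j+1) = 0
        · rw [h6, mul_zero, add_zero] at h5; exact h5.symm
        · have h7 := D.cN (D.om_dvd (by omega) (by omega) h6)
          rw [e] at h7
          rw [hth (by rw [h7, h3]), zero_mul, add_zero] at h5; exact h5.symm
    have hm0 : c m = l → κ m = 0 := by
      intro h1
      rw [if_pos h1] at hx
      have h2 : (if c (n*p-1) = inv l then κ (n*p-1) • rho B (Cyc B m p n U (n*p)) else 0) = 0 := by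
        split_ifs with h3
        · rw [hth h3, zero_smul]
        · rfl
      rw [h2, add_zero] at hx
      have h3 : κ m • U m ∈ Dom G l := by
        have : κ m • U m = - x0 := by
          rw [eq_neg_iff_add_eq_zero, add_comm]; exact hx.symm
        rw [this]; exact (Dom G l).neg_mem hx0
      obtain ⟨y', hy'⟩ := mem_Dom.1 h3
      apply D.hm' (κ m) 0 y'
      rw [zero_smul, add_zero, h1]; exact hy'
    apply D.hG.fn l y
    apply hκ.of_zero
    intro j h1 h2 h3
    rcases h3 with h3 | h3
    · by_cases h4 : j = m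
      · subst h4; exact hm0 h3
      · exact hl j (by omega) h2 h3
    · exact hinv j h1 h2 h3

end

end Pool.Agent.V1114.Nil
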