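import Pool.Agent.V1114.Nil.Core

set_option autoImplicit false
set_option linter.unusedVariables false

namespace Pool.Agent.V1114.Nil

open Submodule Polynomial

theorem per_mul {α : Type*} {g : ℤ → α} {q : ℤ} (h : ∀ i, g (i+q) = g i) (k : ℤ) (i : ℤ) :
    g (i + k * q) = g i := by
  induction k using Int.induction_on with
  | zero => simp
  | succ k ih =>
    have e : i + ((k:ℤ)+1) * q = (i + k * q) + q := by ring
    rw [e, h, ih]
  | pred k ih =>
    have e : i + (-(k:ℤ)) * q = (i + (-(k:ℤ)-1) * q) + q := by ring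
    rw [← h, ← e, ih]

section
variable {G : Fam} {B : ℕ} {c : ℤ → L} {p m : ℤ} {n : ℕ} {U : ℤ → E}

theorem GD.tr_G (D : GD G B c p m n U) {y : ℤ → E} (hy : Tr (fun t => G (c t)) y) :
    Tr (fun t => Gl G B c p m n U (c t)) y := fun i => le_Ext _ (hy i)

theorem GD.core (D : GD G B c p m n U) (hn2 : 2 * m + 2 ≤ n) {K : ℕ}
    (hK : ∀ i z, z ∈ Fwd (RQ G c p U 0 m) K i → z ∈ Bwd (RQ G c p U 0 m) K i →
      z ∈ T (RQ G c p U 0 m) i)
    (pure : ∀ i, T (RQ G c p U 0 m) i ≤ T (fun t => G (c t)) i ⊔ Sp p U 0 m i)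
    (hnK : m + 2 * p + 2 * K + 2 ≤ n * p) (hgood : Good G)
    {g : ℤ → L} (hg : Red g) {q : ℤ} (hq : 0 < q) (hper : ∀ i, g (i+q) = g i) {x : ℤ → E}
    (hx : Tr (fun i => Gl G B c p m n U (g i)) x) {j : ℤ} (h1 : m < j) (h2 : j < n*p)
    (hne : ph B m j (x j) ≠ 0) (hgj : g j = c j) : Unip q x := by
  have hp := D.hc.pos
  have hm := D.hm
  have hpi := D.str.pi c
  by_cases hall : ∀ s, g s = c s
  · have hgc : g = c := funext hall
    subst hgc
    obtain ⟨y, hy, hv⟩ := D.claimA hK pure (hx.pt (-(p+K)) (p+K)) (t := 0) (by omega) (by omega)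
    obtain ⟨a, ha⟩ := D.SC_repr hv
    have hz := D.ZT_tr a (dvd_zero p)
    have e0 : x 0 = (y + ZT B m p n U a 0) 0 := by
      have : ZT B m p n U a 0 0 = x 0 - y 0 := by
        rw [ha]; unfold ZT; simp
      rw [Pi.add_apply, this]; abel
    have e : x = y + ZT B m p n U a 0 := by
      funext s
      exact hx.eq_all hpi ((D.tr_G hy).add hz) e0 s
    rw [e]
    exact (hgood g hg q hq hper y hy).add (D.ZT_unip a 0 (D.hc.min q hper))
  · push Not at hall
    obtain ⟨s0, hs0⟩ := hall
    exfalso
    have hbad : ∀ k : ℤ, g (s0 + k * (q * p)) ≠ c (s0 + k * (q * p)) := by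
      intro k
      have e1 : g (s0 + k * (q * p)) = g s0 := by
        have : s0 + k * (q * p) = s0 + (k * p) * q := by ring
        rw [this, per_mul hper]
      have e2 : c (s0 + k * (q * p)) = c s0 := D.hc.per _ _ (by
        have : s0 + k * (q * p) - s0 = (k * q) * p := by ring
        rw [this]; exact Dvd.intro_left _ rfl)
      rw [e1, e2]; exact hs0
    have hqp : 0 < q * p := mul_pos hq hp
    obtain ⟨J, q1, q2, q3⟩ := D.window hg (hx.pt (j - n*p - 1) (j + n*p + 1)) (i := j)
      (by omega) (by omega) h1 h2 hne hgj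
    have hmatch : ∀ s, j - (J-m) ≤ s → s ≤ j + (n*p-1-J) → g s = c s := by
      intro s hs1 hs2
      have := q3 s (by omega) (by omega) hs1 hs2
      simpa using this
    obtain ⟨i2, ⟨r1, r2⟩, r3⟩ := Int.exists_least_of_bdd (P := fun s => j ≤ s ∧ g s ≠ c s)
      ⟨j, fun z hz => hz.1⟩ ⟨s0 + (|s0| + |j|) * (q*p), by
        constructor
        · have : |s0| + |j| ≤ (|s0| + |j|) * (q*p) := by
            have h0 : 0 ≤ |s0| + |j| := by positivity
            nlinarith
          have := neg_abs_le s0
          have := le_abs_self j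
          linarith
        · exact hbad _⟩
    obtain ⟨i1', ⟨r4, r5⟩, r6⟩ := Int.exists_greatest_of_bdd (P := fun s => s ≤ j ∧ g s ≠ c s)
      ⟨j, fun z hz => hz.1⟩ ⟨s0 + (-(|s0| + |j|)) * (q*p), by
        constructor
        · have : |s0| + |j| ≤ (|s0| + |j|) * (q*p) := by
            have h0 : 0 ≤ |s0| + |j| := by positivity
            nlinarith
          have := le_abs_self s0
          have := neg_abs_le j
          linarith
        · exact hbad _⟩
    set i1 := i1' + 1 with hi1
    have b1 : i1 ≤ j - (J - m) := by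
      by_contra h
      exact r5 (hmatch i1' (by omega) (by omega))
    have b2 : j + (n*p-J) ≤ i2 := by
      by_contra h
      exact r2 (hmatch i2 (by omega) (by omega))
    have hmt : ∀ s, i1 ≤ s → s < i2 → g s = c s := by
      intro s hs1 hs2
      by_contra hcon
      rcases le_total j s with h | h
      · have := r3 s ⟨h, hcon⟩; omega
      · have := r6 s ⟨h, hcon⟩; omega
    have hxc : PT (fun i => Gl G B c p m n U (c i)) x i1 i2 := by
      intro s hs1 hs2
      have := hx s
      simp only at this
      rw [hmt s hs1 hs2] at this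
      exact this
    -- fresh coordinates vanish at both ends
    have v2 : ∀ k, m < k → k < n * p → p ∣ k - i2 → ph B m k (x i2) = 0 := by
      intro k hk1 hk2 hk3
      by_contra hcon
      have hck : c k = c i2 := D.hc.per _ _ hk3
      have hck' : c (k-1) = c (i2-1) := D.hc.per _ _ (by
        have : k - 1 - (i2-1) = k - i2 := by ring
        rw [this]; exact hk3)
      rcases D.letters hg (hx.pt (i2-1) (i2+1)) (by omega) (by omega) hk1 hk2 hcon with h | h
      · exact r2 (h.1.trans hck)
      · have h3 := hmt (i2-1) (by omega) (by omega)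
        apply D.hc.red.ne' k
        rw [hck', ← h3, h.2, inv_inv]
    have v1 : ∀ k, m < k → k < n * p → p ∣ k - i1 → ph B m k (x i1) = 0 := by
      intro k hk1 hk2 hk3
      by_contra hcon
      have hck : c k = c i1 := D.hc.per _ _ hk3
      have hck' : c (k-1) = c (i1-1) := D.hc.per _ _ (by
        have : k - 1 - (i1-1) = k - i1 := by ring
        rw [this]; exact hk3)
      have e1 : i1 - 1 = i1' := by omega
      rcases D.letters hg (hx.pt (i1-1) (i1+1)) (by omega) (by omega) hk1 hk2 hcon with h | h
      · rw [hck', e1] at h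
        exact r5 h.2
      · have h3 := hmt i1 (by omega) (by omega)
        apply D.hc.red.ne' k
        rw [hck, ← h3, h.1]
    obtain ⟨y, hy, hv⟩ := D.claimA hK pure hxc (t := i1 + p + K) (by omega) (by omega)
    obtain ⟨a, ha⟩ := D.SC_repr hv
    set t := i1 + p + K with ht
    have hts : p ∣ t % p - t := by
      have := (dvd_neg).2 (Int.dvd_self_sub_emod (x := t) (m := p))
      simpa using this
    have hz := D.ZT_tr a hts
    have e0 : x t = (y + ZT B m p n U a (t % p - t)) t := by
      have : ZT B m p n U a (t % p - t) t = x t - y t := by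
        rw [ha]; unfold ZT
        apply Finset.sum_congr rfl
        intro i _
        congr 2; ring
      rw [Pi.add_apply, this]; abel
    have e1 := hxc.eq_all hpi (((D.tr_G hy).add hz).pt i1 i2) (by omega) (by omega) e0
    -- re-express at time `i1`
    have hz1 : ZT B m p n U a (t % p - t) i1 ∈ SC B m p n U i1 := by
      unfold ZT
      apply Submodule.sum_mem
      intro i _
      apply Submodule.smul_mem
      apply D.Cyc_mem_SC
      have : i1 + (t % p - t) + i * p - i1 = (t % p - t) + i * p := by ring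
      rw [this]; exact hts.add (Dvd.intro_left _ rfl)
    obtain ⟨b, hb⟩ := D.SC_repr hz1
    have hi1s : p ∣ i1 % p - i1 := by
      have := (dvd_neg).2 (Int.dvd_self_sub_emod (x := i1) (m := p))
      simpa using this
    have hzb := D.ZT_tr b hi1s
    have e2 : ZT B m p n U b (i1 % p - i1) i1 = ZT B m p n U a (t % p - t) i1 := by
      rw [hb]; unfold ZT
      apply Finset.sum_congr rfl
      intro i _
      congr 2; ring
    have e3 : x i1 = (y + ZT B m p n U b (i1 % p - i1)) i1 := by
      rw [Pi.add_apply, e2]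
      exact e1 i1 le_rfl (by omega)
    have e4 := hxc.eq_all hpi (((D.tr_G hy).add hzb).pt i1 i2) le_rfl (by omega) e3
    have hyE : ∀ s k, m < k → ph B m k (y s) = 0 := fun s k hk =>
      ph_EB (D.hG.bd _ _ _ (hy s)).1
    have hb0 := D.endgame hn2 b (i1 := i1) (i2 := i2) (by omega) (by
      intro k hk1 hk2 hk3
      rw [← hb]
      have h5 := v1 k hk1 hk2 hk3
      rw [e1 i1 le_rfl (by omega), Pi.add_apply, map_add, hyE _ _ hk1, zero_add] at h5
      exact h5) (by
      intro k hk1 hk2 hk3
      have h5 := v2 k hk1 hk2 hk3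
      rw [e4 i2 (by omega) le_rfl, Pi.add_apply, map_add, hyE _ _ hk1, zero_add] at h5
      rw [← h5]
      congr 1
      unfold ZT
      apply Finset.sum_congr rfl
      intro i _
      congr 2
      have := Int.emod_add_mul_ediv i1 p
      linarith)
    apply hne
    rw [e4 j (by omega) (by omega), Pi.add_apply, map_add, hyE _ _ h1, zero_add]
    unfold ZT
    rw [map_sum]
    apply Finset.sum_eq_zero
    intro i hi
    rw [hb0 i (Finset.mem_range.1 hi), zero_smul, map_zero]

theorem GD.good (D : GD G B c p m n U) (hn2 : 2 * m + 2 ≤ n) {K : ℕ}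
    (hK : ∀ i z, z ∈ Fwd (RQ G c p U 0 m) K i → z ∈ Bwd (RQ G c p U 0 m) K i →
      z ∈ T (RQ G c p U 0 m) i)
    (pure : ∀ i, T (RQ G c p U 0 m) i ≤ T (fun t => G (c t)) i ⊔ Sp p U 0 m i)
    (hnK : m + 2 * p + 2 * K + 2 ≤ n * p) (hgood : Good G) : Good (Gl G B c p m n U) := by
  intro g hg q hq hper x hx
  have hN := D.hn
  have hp := D.hc.pos
  by_cases h : ∃ i j, m < j ∧ j < n * p ∧ ph B m j (x i) ≠ 0
  · obtain ⟨i, j, h1, h2, hne⟩ := h
    rcases D.letters hg (hx.pt (i-1) (i+1)) (by omega) (by omega) h1 h2 hne with hl | hl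
    · apply Unip.of_shift (i - j)
      refine D.core hn2 hK pure hnK hgood (g := fun s => g (s + (i-j))) (j := j)
        ?_ hq ?_ ?_ h1 h2 ?_ ?_
      · intro s
        have := hg (s + (i-j))
        have e : s + 1 + (i-j) = s + (i-j) + 1 := by ring
        simp only [e]; exact this
      · intro s
        have e : s + q + (i-j) = s + (i-j) + q := by ring
        rw [e]; exact hper _
      · intro s
        have := hx (s + (i-j))
        have e : s + 1 + (i-j) = s + (i-j) + 1 := by ring
        simp only [Sh_apply, e]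
        exact this
      · have e : j + (i-j) = i := by ring
        simpa [e] using hne
      · have e : j + (i-j) = i := by ring
        simp only [e]
        exact hl.1
    · apply Unip.rev
      apply Unip.of_shift (-i - j)
      refine D.core hn2 hK pure hnK hgood (g := fun s => inv (g (-1 - (s + (-i-j))))) (j := j)
        ?_ hq ?_ ?_ h1 h2 ?_ ?_
      · intro s
        have := rev_red hg (s + (-i-j))
        have e : s + 1 + (-i-j) = s + (-i-j) + 1 := by ring
        simp only [e]; exact this
      · intro s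
        have e : -1 - (s + q + (-i-j)) + q = -1 - (s + (-i-j)) := by ring
        rw [← e, hper]
      · intro s
        have := D.rev_PT (hx.pt (-(s + (-i-j) + 1)) (-(s + (-i-j)))) (s + (-i-j)) (by omega) (by omega)
        have e : s + 1 + (-i-j) = s + (-i-j) + 1 := by ring
        simp only [Sh_apply, e]
        exact this
      · have e : j + (-i-j) = -i := by ring
        simpa [e, rev] using hne
      · have e : -1 - (j + (-i-j)) = i - 1 := by ring
        simp only [e]
        rw [hl.2, inv_inv]
  · push Not at h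
    apply hgood g hg q hq hper x
    intro i
    obtain ⟨κ, hκ⟩ := mem_Ext (hx i)
    have hs := hκ.swap D.hG.sym
    apply hκ.of_zero
    have k1 : ∀ j, m < j → j < n * p → c j = g i → κ j = 0 := by
      intro j h1 h2 h3
      rw [← D.g1 hκ j h1 h2 h3]; exact h _ _ h1 h2
    have k2 : ∀ j, m < j → j < n * p → c j = inv (g i) → κ j = 0 := by
      intro j h1 h2 h3
      rw [← D.g1 hs j h1 h2 h3]; exact h _ _ h1 h2
    have e : m + 1 - 1 = m := by ring
    intro j h1 h2 h3
    by_cases hj : j = m
    · subst hj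
      rcases h3 with h3 | h3
      · have h4 := D.g2 hs (j+1) (by omega) (by omega) (by rw [e, h3, inv_inv])
        rw [h _ _ (by omega) (by omega), e] at h4
        have h5 : κ (n*p-1) * om B p j n U (j+1) = 0 := by
          by_cases h6 : om B p j n U (j+1) = 0
          · rw [h6, mul_zero]
          · have h7 := D.cN (D.om_dvd (by omega) (by omega) h6)
            rw [e, h3] at h7
            rw [k1 _ (by omega) (by omega) h7, zero_mul]
        rw [h5, add_zero] at h4
        exact h4.symm
      · have h4 := D.g2 hκ (j+1) (by omega) (by omega) (by rw [e, h3])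
        rw [h _ _ (by omega) (by omega), e] at h4
        have h5 : κ (n*p-1) * om B p j n U (j+1) = 0 := by
          by_cases h6 : om B p j n U (j+1) = 0
          · rw [h6, mul_zero]
          · have h7 := D.cN (D.om_dvd (by omega) (by omega) h6)
            rw [e, h3] at h7
            rw [k2 _ (by omega) (by omega) h7, zero_mul]
        rw [h5, add_zero] at h4
        exact h4.symm
    · rcases h3 with h3 | h3
      · exact k1 j (by omega) h2 h3
      · exact k2 j (by omega) h2 h3

end

/-- closing a pure string -/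
theorem glue {G : Fam} {B : ℕ} {c : ℤ → L} {p m : ℤ} {U : ℤ → E}
    (hG : Str G B) (hgood : Good G) (hc : Wd c p) (hm : 0 ≤ m)
    (hU : PT (fun i => G (c i)) U 0 m) (hUB : ∀ j, 0 ≤ j → j ≤ m → U j ∈ EB B)
    (h0 : ∀ x, (x, U 0) ∉ G (c (-1)))
    (hm' : ∀ α β : ℚ, ∀ y, (α • U m + β • U 0, y) ∈ G (c m) → α = 0)
    (pure : ∀ i, T (RQ G c p U 0 m) i ≤ T (fun t => G (c t)) i ⊔ Sp p U 0 m i) :
    ∃ (G' : Fam) (B' : ℕ), Str G' B' ∧ Good G' ∧ (∀ l, G l ≤ G' l) ∧
      ∃ X, Tr (fun i => G' (c i)) X ∧ X 0 = U 0 := by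
  have hp := hc.pos
  obtain ⟨K, hK⟩ := exists_K hp (RQ_per hc 0 m) (RQ_bdd (c := c) (p := p) hG hUB)
  set n : ℕ := (2 * m + 2 + m + 2 * p + 2 * K + 2).toNat with hn
  have hn1 : (n:ℤ) = 2 * m + 2 + m + 2 * p + 2 * K + 2 := by omega
  have hn3 : (n:ℤ) ≤ n * p := by nlinarith
  have D : GD G B c p m n U := ⟨hG, hc, hm, hU, hUB, h0, hm', by omega⟩
  refine ⟨Gl G B c p m n U, _, D.str, D.good (by omega) hK pure (by omega) hgood,
    fun l => le_Ext l, Cyc B m p n U, D.cyc_tr, ?_⟩
  rw [Cyc_base hp le_rfl (by omega)]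
  unfold Wb
  rw [if_pos hm]

end Pool.Agent.V1114.Nil
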