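import Pool.Agent.V1114.Nil.Close

set_option autoImplicit false
set_option linter.unusedVariables false

namespace Pool.Agent.V1114.Nil

open Submodule

noncomputable def e0 : E := Finsupp.single 0 1
noncomputable def e1 : E := Finsupp.single 1 1

/-- domain vector of a letter of the initial family -/
noncomputable def dv (l : L) : E := if l.2 then (if l.1 then e0 else e1) else e0 + e1

noncomputable def G0 : Fam := fun l => span ℚ {(dv l, dv (inv l))}

theorem mem_G0 {l : L} {x y : E} : (x, y) ∈ G0 l ↔ ∃ α : ℚ, x = α • dv l ∧ y = α • dv (inv l) := by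
  unfold G0
  rw [mem_span_singleton]
  constructor
  · rintro ⟨α, h⟩
    exact ⟨α, (congrArg Prod.fst h).symm, (congrArg Prod.snd h).symm⟩
  · rintro ⟨α, rfl, rfl⟩
    exact ⟨α, rfl⟩

theorem dv_ne (l : L) : dv l ≠ 0 := by
  unfold dv e0 e1
  intro h
  split_ifs at h
  · have := DFunLike.congr_fun h 0; simp at this
  · have := DFunLike.congr_fun h 1; simp at this
  · have := DFunLike.congr_fun h 0; simp at this

theorem G0_str : Str G0 2 where
  sym := by
    intro l x y h
    obtain ⟨α, rfl, rfl⟩ := mem_G0.1 h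
    exact mem_G0.2 ⟨α, rfl, by rw [inv_inv]⟩
  fn := by
    intro l y h
    obtain ⟨α, h1, rfl⟩ := mem_G0.1 h
    have : α = 0 := (smul_eq_zero.1 h1.symm).resolve_right (dv_ne l)
    rw [this, zero_smul]
  bd := by
    have key : ∀ l, dv l ∈ EB 2 := by
      intro l i hi
      have i0 : (0:ℕ) ≠ i := by omega
      have i1 : (1:ℕ) ≠ i := by omega
      unfold dv e0 e1
      split_ifs <;> simp [Finsupp.single_apply, i0, i1]
    intro l x y h
    obtain ⟨α, rfl, rfl⟩ := mem_G0.1 h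
    exact ⟨Submodule.smul_mem _ _ (key l), Submodule.smul_mem _ _ (key _)⟩

/-- parallel domain vectors -/
theorem dv_par {l m : L} {α β : ℚ} (hα : α ≠ 0) (h : α • dv l = β • dv m) : l.2 = m.2 ∧
    (l.2 = true → l = m) := by
  have h0 := DFunLike.congr_fun h 0
  have h1 := DFunLike.congr_fun h 1
  obtain ⟨l1, l2⟩ := l
  obtain ⟨m1, m2⟩ := m
  unfold dv e0 e1 at h0 h1
  cases l1 <;> cases l2 <;> cases m1 <;> cases m2 <;> simp_all

theorem G0_good : Good G0 := by
  intro g hg q hq hper x hx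
  have hz : ∀ i, x i = 0 := by
    intro i
    by_contra hne
    have key : ∀ i, x i ≠ 0 → (g (i-1)).2 = true ∧ (g i).2 = false ∧ x (i+1) ≠ 0 := by
      intro i hne
      obtain ⟨α, h1, h2⟩ := mem_G0.1 (hx (i-1))
      obtain ⟨β, h3, h4⟩ := mem_G0.1 (hx i)
      have e : i - 1 + 1 = i := by ring
      rw [e] at h2
      have hα : α ≠ 0 := by rintro rfl; apply hne; rw [h2, zero_smul]
      have hβ : β ≠ 0 := by rintro rfl; apply hne; rw [h3, zero_smul]
      have hp := dv_par hα (h2.symm.trans h3)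
      have h5 : (g (i-1)).2 = true := by
        by_contra hcon
        have h6 : (inv (g (i-1))).2 = true := by
          unfold inv; simpa using hcon
        exact hg.ne' i (hp.2 h6).symm
      refine ⟨h5, ?_, ?_⟩
      · rw [← hp.1]; unfold inv; simp [h5]
      · rw [h4]
        exact smul_ne_zero hβ (dv_ne _)
    obtain ⟨a1, a2, a3⟩ := key i hne
    obtain ⟨b1, b2, b3⟩ := key (i+1) a3
    have e : i + 1 - 1 = i := by ring
    rw [e, a2] at b1
    exact absurd b1 (by simp)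
  have : x = 0 := funext hz
  rw [this]; exact Unip.zero

/-! ### the chain -/

noncomputable def eb (k : ℕ) : E := Finsupp.single k 1

def cw (w : List L) (i : ℤ) : L := w.getD (i % w.length).toNat (true, true)

theorem cw_per (w : List L) (i : ℤ) : cw w (i + w.length) = cw w i := by
  unfold cw
  rw [Int.add_emod_right]

theorem exists_wd {c : ℤ → L} (hc : Red c) {q : ℤ} (hq : 0 < q) (hper : ∀ i, c (i+q) = c i) :
    ∃ p, Wd c p := by
  classical
  have hex : ∃ n : ℕ, 0 < n ∧ ∀ i, c (i + n) = c i := ⟨q.toNat, by omega, by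
    intro i
    have : ((q.toNat : ℕ) : ℤ) = q := by omega
    rw [this]; exact hper i⟩
  set p := Nat.find hex with hp
  obtain ⟨hp0, hp1⟩ := Nat.find_spec hex
  rw [← hp] at hp0 hp1
  refine ⟨p, hc, by exact_mod_cast hp0, ?_, ?_⟩
  · rintro i j ⟨k, hk⟩
    have : i = j + k * p := by linarith
    rw [this]
    exact per_mul hp1 k j
  · intro h hh
    have h1 : ∀ i, c (i + h % p) = c i := by
      intro i
      have e : i + h % p = (i + (-(h/p)) * p) + h := by
        have := Int.emod_add_mul_ediv h p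
        linarith
      rw [e, hh, per_mul hp1]
    have hpz : (0:ℤ) < p := by exact_mod_cast hp0
    have h2 := Int.emod_nonneg h hpz.ne'
    have h3 := Int.emod_lt_of_pos h hpz
    by_cases h4 : h % p = 0
    · exact Int.dvd_of_emod_eq_zero h4
    · exfalso
      have h5 : (h % p).toNat < p := by omega
      apply Nat.find_min hex h5
      refine ⟨by omega, ?_⟩
      intro i
      have : (((h % p).toNat : ℕ) : ℤ) = h % p := by omega
      rw [this]; exact h1 i

abbrev Req := (ℕ × L) ⊕ (ℕ × List L)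

def Sat (G : Fam) : Req → Prop
  | Sum.inl (k, l) => ∃ y, (eb k, y) ∈ G l
  | Sum.inr (k, w) => Red (cw w) → w ≠ [] → eb k ∈ T (fun i => G (cw w i)) 0

theorem Sat.mono {G G' : Fam} (h : ∀ l, G l ≤ G' l) {ρ : Req} (hs : Sat G ρ) : Sat G' ρ := by
  rcases ρ with ⟨k, l⟩ | ⟨k, w⟩
  · obtain ⟨y, hy⟩ := hs
    exact ⟨y, h _ hy⟩
  · intro h1 h2
    exact T_mono (fun i => h _) 0 (hs h1 h2)

abbrev St := {GB : Fam × ℕ // Str GB.1 GB.2 ∧ Good GB.1}

theorem step (S : St) (ρ : Req) : ∃ S' : St, (∀ l, S.1.1 l ≤ S'.1.1 l) ∧ Sat S'.1.1 ρ := by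
  obtain ⟨⟨G, B⟩, h1, h2⟩ := S
  rcases ρ with ⟨k, l⟩ | ⟨k, w⟩
  · obtain ⟨G', B', a1, a2, a3, a4⟩ := free_ext h1 h2 (eb k) l
    exact ⟨⟨(G', B'), a1, a2⟩, a3, a4⟩
  · by_cases h3 : Red (cw w) ∧ w ≠ []
    · have h4 : 0 < (w.length : ℤ) := by
        have := List.length_pos_of_ne_nil h3.2
        exact_mod_cast this
      obtain ⟨p, hp⟩ := exists_wd h3.1 h4 (cw_per w)
      obtain ⟨G', B', a1, a2, a3, a4⟩ := close h1 h2 hp (eb k)
      exact ⟨⟨(G', B'), a1, a2⟩, a3, fun _ _ => a4⟩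
    · exact ⟨⟨(G, B), h1, h2⟩, fun l => le_rfl, fun h5 h6 => absurd ⟨h5, h6⟩ h3⟩

theorem exists_limit : ∃ G : ℕ → Fam, (∀ n, Good (G n)) ∧ (∀ n, ∃ B, Str (G n) B) ∧ (G 0 = G0) ∧
    (∀ n m, n ≤ m → ∀ l, G n l ≤ G m l) ∧ ∀ ρ : Req, ∃ n, Sat (G n) ρ := by
  obtain ⟨f, hf⟩ := exists_surjective_nat Req
  choose nx h1 h2 using step
  let S : ℕ → St := fun n => Nat.rec ⟨(G0, 2), G0_str, G0_good⟩ (fun n S => nx S (f n)) n
  have hS : ∀ n, S (n+1) = nx (S n) (f n) := fun n => rfl
  refine ⟨fun n => (S n).1.1, fun n => (S n).2.2, fun n => ⟨_, (S n).2.1⟩, rfl, ?_, ?_⟩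
  · intro n m hnm l
    induction hnm with
    | refl => exact le_rfl
    | step h ih =>
      refine ih.trans ?_
      show (S _).1.1 l ≤ (S (_ + 1)).1.1 l
      rw [hS]
      exact h1 _ _ l
  · intro ρ
    obtain ⟨n, rfl⟩ := hf ρ
    refine ⟨n+1, ?_⟩
    show Sat (S (n+1)).1.1 (f n)
    rw [hS]; exact h2 _ _

end Pool.Agent.V1114.Nil
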