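import Pool.Agent.V1114.Nil.Init

set_option autoImplicit false
set_option linter.unusedVariables false

namespace Pool.Agent.V1114.Nil

open Submodule

/-- product of operators along a word -/
noncomputable def opw (A : L → (E →ₗ[ℚ] E)) : List L → (E →ₗ[ℚ] E)
  | [] => 1
  | (l :: w) => opw A w * A l

theorem opw_append (A : L → (E →ₗ[ℚ] E)) (u v : List L) :
    opw A (u ++ v) = opw A v * opw A u := by
  induction u with
  | nil => simp [opw]
  | cons l u ih => simp [opw, ih, mul_assoc]

def NilOp (f : E →ₗ[ℚ] E) : Prop := ∀ v, ∃ N : ℕ, ((f - 1)^N) v = 0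

theorem NilOp.one : NilOp 1 := fun v => ⟨1, by simp⟩

theorem pow_zero_mono {f : E →ₗ[ℚ] E} {v : E} {N M : ℕ} (h : (f^N) v = 0) (hM : N ≤ M) :
    (f^M) v = 0 := by
  obtain ⟨k, rfl⟩ := Nat.exists_eq_add_of_le hM
  rw [add_comm, pow_add, Module.End.mul_apply, h, map_zero]

theorem nilOp_of_basis {f : E →ₗ[ℚ] E} (h : ∀ k, ∃ N : ℕ, ((f - 1)^N) (eb k) = 0) : NilOp f := by
  intro v
  induction v using Finsupp.induction_linear with
  | zero => exact ⟨0, by simp⟩
  | add x y hx hy =>
    obtain ⟨N, hN⟩ := hx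
    obtain ⟨M, hM⟩ := hy
    exact ⟨max N M, by rw [map_add, pow_zero_mono hN (le_max_left _ _),
      pow_zero_mono hM (le_max_right _ _), add_zero]⟩
  | single k c =>
    obtain ⟨N, hN⟩ := h k
    refine ⟨N, ?_⟩
    have : (Finsupp.single k c : E) = c • eb k := by simp [eb]
    rw [this, map_smul, hN, smul_zero]

theorem NilOp.conj {f a b : E →ₗ[ℚ] E} (h : NilOp f) (h1 : a * b = 1) (h2 : b * a = 1) :
    NilOp (a * f * b) := by
  have key : ∀ N : ℕ, (a * f * b - 1)^N = a * (f-1)^N * b := by
    intro N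
    induction N with
    | zero => simp [h1]
    | succ N ih =>
      rw [pow_succ, ih, pow_succ]
      have : a * f * b - 1 = a * (f - 1) * b := by
        rw [mul_sub, sub_mul, mul_one, h1]
      rw [this]
      calc a * (f-1)^N * b * (a * (f-1) * b) = a * (f-1)^N * (b * a) * (f-1) * b := by
            simp only [mul_assoc]
        _ = _ := by rw [h2, mul_one]; simp only [mul_assoc]
  intro v
  obtain ⟨N, hN⟩ := h (b v)
  refine ⟨N, ?_⟩
  rw [key, Module.End.mul_apply, Module.End.mul_apply, hN, map_zero]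

theorem traj_opw {A : L → (E →ₗ[ℚ] E)} {x : ℤ → E} (u : List L) : ∀ i : ℤ,
    (∀ j (hj : j < u.length), x (i + j + 1) = A (u[j]) (x (i+j))) →
    x (i + u.length) = opw A u (x i) := by
  induction u with
  | nil => intro i _; simp [opw]
  | cons l u ih =>
    intro i h
    have h0 := h 0 (by simp)
    simp only [Nat.cast_zero, add_zero, List.getElem_cons_zero] at h0
    have h1 := ih (i+1) (by
      intro j hj
      have := h (j+1) (by simpa using hj)
      simp only [List.getElem_cons_succ] at this
      have e1 : i + ((j+1 : ℕ):ℤ) = i + 1 + j := by push_cast; ring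
      rw [e1] at this
      exact this)
    have e : i + ((l :: u).length : ℤ) = i + 1 + u.length := by simp; ring
    rw [e, h1, h0]
    rfl

theorem cw_add (w : List L) (m : ℤ) (j : ℕ) (hj : j < w.length) : cw w (m * w.length + j) = w[j] := by
  unfold cw
  have h1 : (m * (w.length:ℤ) + j) % w.length = j := by
    rw [add_comm, mul_comm, Int.add_mul_emod_self_left]
    exact Int.emod_eq_of_lt (by omega) (by exact_mod_cast hj)
  rw [h1]
  simp [hj]

theorem pow_eval {f : E →ₗ[ℚ] E} {q : ℤ} {x : ℤ → E} (h : ∀ m : ℤ, x (m*q+q) = f (x (m*q))) :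
    ∀ (N : ℕ) (m : ℤ), (((Sh q - 1)^N) x) (m*q) = ((f-1)^N) (x (m*q)) := by
  intro N
  induction N with
  | zero => intro m; simp
  | succ N ih =>
    intro m
    rw [pow_succ', Module.End.mul_apply, LinearMap.sub_apply, Pi.sub_apply, Sh_apply,
      Module.End.one_apply, ih m]
    have e : m*q+q = (m+1)*q := by ring
    have h2 : x ((m+1)*q) = f (x (m*q)) := by rw [← e]; exact h m
    rw [e, ih (m+1), h2, pow_succ, Module.End.mul_apply, ← map_sub]
    rfl

theorem exists_ops : ∃ A : L → (E →ₗ[ℚ] E), (∀ l x, A (inv l) (A l x) = x) ∧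
    A (true,true) e0 = e0 + e1 ∧ A (false,true) e1 = e0 + e1 ∧
    ∀ w : List L, Red (cw w) → w ≠ [] → NilOp (opw A w) := by
  obtain ⟨G, hgood, hstr, h0, hmono, hsat⟩ := exists_limit
  let Gi : L → Submodule ℚ (E × E) := fun l =>
    { carrier := {z | ∃ n, z ∈ G n l}
      add_mem' := by
        rintro a b ⟨n, hn⟩ ⟨m, hm⟩
        exact ⟨max n m, (G _ l).add_mem (hmono _ _ (le_max_left _ _) l hn)
          (hmono _ _ (le_max_right _ _) l hm)⟩
      zero_mem' := ⟨0, (G 0 l).zero_mem⟩
      smul_mem' := by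
        rintro c a ⟨n, hn⟩
        exact ⟨n, (G n l).smul_mem c hn⟩ }
  have hGi : ∀ l z, z ∈ Gi l ↔ ∃ n, z ∈ G n l := fun l z => Iff.rfl
  have fn : ∀ l y, ((0:E), y) ∈ Gi l → y = 0 := by
    rintro l y ⟨n, hn⟩
    obtain ⟨B, hB⟩ := hstr n
    exact hB.fn l y hn
  have sym : ∀ l x y, (x,y) ∈ Gi l → (y,x) ∈ Gi (inv l) := by
    rintro l x y ⟨n, hn⟩
    obtain ⟨B, hB⟩ := hstr n
    exact ⟨n, hB.sym l x y hn⟩
  have tot : ∀ l x, ∃ y, (x, y) ∈ Gi l := by
    intro l x
    induction x using Finsupp.induction_linear with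
    | zero => exact ⟨0, (Gi l).zero_mem⟩
    | add x y hx hy =>
      obtain ⟨x', hx'⟩ := hx
      obtain ⟨y', hy'⟩ := hy
      exact ⟨x' + y', (Gi l).add_mem hx' hy'⟩
    | single k c =>
      obtain ⟨n, y, hy⟩ := hsat (Sum.inl (k, l))
      refine ⟨c • y, ?_⟩
      have : (Finsupp.single k c : E) = c • eb k := by simp [eb]
      rw [this]
      exact (Gi l).smul_mem c (show (eb k, y) ∈ Gi l from ⟨n, hy⟩)
  choose F hF using tot
  have uniq : ∀ l x y, (x, y) ∈ Gi l → y = F l x := by
    intro l x y h
    have := (Gi l).sub_mem h (hF l x)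
    have h2 : ((0:E), y - F l x) ∈ Gi l := by simpa using this
    exact sub_eq_zero.1 (fn l _ h2)
  let A : L → (E →ₗ[ℚ] E) := fun l =>
    { toFun := F l
      map_add' := fun x y => (uniq l _ _ ((Gi l).add_mem (hF l x) (hF l y))).symm
      map_smul' := fun c x => (uniq l _ _ ((Gi l).smul_mem c (hF l x))).symm }
  have hA : ∀ l x y, (x, y) ∈ Gi l → y = A l x := uniq
  refine ⟨A, ?_, ?_, ?_, ?_⟩
  · intro l x
    exact (hA _ _ _ (sym _ _ _ (hF l x))).symm
  · refine (hA _ _ _ ⟨0, ?_⟩).symm
    rw [h0]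
    exact mem_G0.2 ⟨1, by simp [dv], by simp [dv, inv]⟩
  · refine (hA _ _ _ ⟨0, ?_⟩).symm
    rw [h0]
    exact mem_G0.2 ⟨1, by simp [dv], by simp [dv, inv]⟩
  · intro w hred hne
    apply nilOp_of_basis
    intro k
    obtain ⟨n, hn⟩ := hsat (Sum.inr (k, w))
    obtain ⟨x, hx, hx0⟩ := hn hred hne
    have hlen : 0 < (w.length : ℤ) := by
      have := List.length_pos_of_ne_nil hne
      exact_mod_cast this
    obtain ⟨N, hN⟩ := hgood n (cw w) hred w.length hlen (cw_per w) x hx
    have hstep : ∀ i, x (i+1) = A (cw w i) (x i) := fun i => hA _ _ _ ⟨n, hx i⟩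
    have hper : ∀ m : ℤ, x (m*w.length+w.length) = opw A w (x (m*w.length)) := by
      intro m
      apply traj_opw
      intro j hj
      rw [hstep, cw_add w m j hj]
    have := pow_eval hper N 0
    refine ⟨N, ?_⟩
    rw [hN, zero_mul, hx0] at this
    simpa using this.symm

theorem nil_all {A : L → (E →ₗ[ℚ] E)} (hinv : ∀ l x, A (inv l) (A l x) = x)
    (h : ∀ w : List L, Red (cw w) → w ≠ [] → NilOp (opw A w)) :
    ∀ n : ℕ, ∀ w : List L, w.length = n → NilOp (opw A w) := by
  have hinv1 : ∀ l, A (inv l) * A l = 1 := fun l => by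
    apply LinearMap.ext; intro x; exact hinv l x
  have hinv2 : ∀ l, A l * A (inv l) = 1 := fun l => by
    have := hinv1 (inv l)
    rwa [inv_inv] at this
  intro n
  induction n using Nat.strong_induction_on with
  | _ n ih =>
  intro w hw
  by_cases hne : w = []
  · subst hne; exact NilOp.one
  by_cases hred : Red (cw w)
  · exact h w hred hne
  have hlen : 0 < w.length := List.length_pos_of_ne_nil hne
  have hlenz : (0:ℤ) < w.length := by exact_mod_cast hlen
  unfold Red at hred
  push Not at hred
  obtain ⟨i, hi⟩ := hred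
  have hj0 := Int.emod_nonneg i hlenz.ne'
  have hj1 := Int.emod_lt_of_pos i hlenz
  obtain ⟨j, hj⟩ : ∃ j : ℕ, (j:ℤ) = i % w.length := ⟨(i % w.length).toNat, by omega⟩
  have hjl : j < w.length := by omega
  have hdm := Int.emod_add_mul_ediv i w.length
  have e1 : i = (i / w.length) * w.length + j := by rw [hj]; linarith
  have c1 : cw w i = w[j] := by
    rw [e1]; exact cw_add w _ j hjl
  by_cases hj2 : j + 1 < w.length
  · have c2 : cw w (i+1) = w[j+1] := by
      have : i + 1 = (i / w.length) * w.length + ((j+1 : ℕ):ℤ) := by push_cast; linarith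
      rw [this]; exact cw_add w _ (j+1) hj2
    rw [c1, c2] at hi
    have hw2 : w = w.take j ++ (w[j] :: w[j+1] :: w.drop (j+2)) := by
      conv_lhs => rw [← List.take_append_drop j w, List.drop_eq_getElem_cons hjl,
        List.drop_eq_getElem_cons hj2]
    have : opw A w = opw A (w.take j ++ w.drop (j+2)) := by
      conv_lhs => rw [hw2]
      rw [opw_append, opw_append, opw, opw, hi]
      rw [mul_assoc (opw A (List.drop (j+2) w)), hinv1, mul_one]
    rw [this]
    apply ih (n-2) (by omega)
    rw [List.length_append, List.length_take, List.length_drop]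
    omega
  · have hjj : j + 1 = w.length := by omega
    have c2 : cw w (i+1) = w[0] := by
      have h4 : ((j:ℤ) + 1) = w.length := by exact_mod_cast hjj
      have : i + 1 = (i / w.length + 1) * w.length + ((0 : ℕ):ℤ) := by
        push_cast; linarith
      rw [this]; exact cw_add w _ 0 hlen
    rw [c1, c2] at hi
    -- w has length at least 2
    have hl2 : 1 < w.length := by
      by_contra hcon
      have : j = 0 := by omega
      subst this
      exact ne_inv _ hi
    have hj0' : 1 ≤ j := by omega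
    -- w = w0 :: u ++ [wj]
    have hw2 : w = w[0] :: ((w.drop 1).take (j-1) ++ [w[j]]) := by
      have a1 : w = w[0] :: w.drop 1 := by
        have := List.drop_eq_getElem_cons hlen
        rwa [List.drop_zero] at this
      have a2 : w.drop 1 = (w.drop 1).take (j-1) ++ [w[j]] := by
        have b1 := List.take_append_drop (j-1) (w.drop 1)
        have b2 : (w.drop 1).drop (j-1) = [w[j]] := by
          rw [List.drop_drop]
          have : 1 + (j-1) = j := by omega
          rw [this, List.drop_eq_getElem_cons hjl, hjj, List.drop_length]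
        rw [b2] at b1
        exact b1.symm
      rw [← a2]; exact a1
    set u := (w.drop 1).take (j-1) with hu
    have : opw A w = A w[j] * opw A u * A w[0] := by
      conv_lhs => rw [hw2]
      rw [opw, opw_append, opw, opw, one_mul]
    rw [this, hi]
    refine (ih (n-2) (by omega) u ?_).conj ?_ ?_
    · rw [hu, List.length_take, List.length_drop]; omega
    · exact hinv2 _
    · exact hinv1 _

end Pool.Agent.V1114.Nil
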