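import Pool.Agent.V1114.Nil.Ext

set_option autoImplicit false
set_option linter.unusedVariables false

namespace Pool.Agent.V1114.Nil

open Submodule

/-- the coordinate functional of the fresh vector at position `k` -/
noncomputable def ph (B : ℕ) (a k : ℤ) : E →ₗ[ℚ] ℚ := Finsupp.lapply (B + (k - a - 1).toNat)

theorem ph_EB {B : ℕ} {a k : ℤ} {z : E} (hz : z ∈ EB B) : ph B a k z = 0 :=
  hz _ (Nat.le_add_right _ _)

theorem ph_single {B : ℕ} {a j k : ℤ} (hj : a < j) (hk : a < k) :
    ph B a k (Finsupp.single (B + (j - a - 1).toNat) 1) = if j = k then 1 else 0 := by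
  unfold ph
  rw [Finsupp.lapply_apply, Finsupp.single_apply]
  by_cases h : j = k
  · subst h; simp
  · have : ¬ (B + (j - a - 1).toNat = B + (k - a - 1).toNat) := by omega
    rw [if_neg this, if_neg h]

theorem Ext_bd {G : Fam} {B B' : ℕ} {c : ℤ → L} {V : ℤ → E} {a b : ℤ}
    (hG : ∀ l x y, (x,y) ∈ G l → x ∈ EB B ∧ y ∈ EB B) (hB : B ≤ B')
    (hV : ∀ j, a ≤ j → j ≤ b → V j ∈ EB B') (l : L) (x y : E) (h : (x, y) ∈ Ext G c V a b l) :
    x ∈ EB B' ∧ y ∈ EB B' := by
  have key : Ext G c V a b l ≤ (EB B').prod (EB B') := by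
    refine sup_le ?_ ?_
    · rintro ⟨x, y⟩ hxy
      exact ⟨EB_mono hB (hG l x y hxy).1, EB_mono hB (hG l x y hxy).2⟩
    · rw [span_le]
      rintro _ ⟨j, hj, rfl⟩
      have hj : a ≤ j ∧ j < b := by simpa using hj
      have h1 := hV j hj.1 hj.2.le
      have h2 := hV (j+1) (by omega) (by omega)
      show P c V l j ∈ (EB B').prod (EB B')
      unfold P
      split_ifs
      · exact ⟨h1, h2⟩
      · exact ⟨h2, h1⟩
      · exact Submodule.zero_mem _
  exact key h

theorem Dec.of_zero {G : Fam} {c : ℤ → L} {V : ℤ → E} {a b : ℤ} {l : L} {x y : E} {κ : ℤ → ℚ}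
    (h : Dec G c V a b l x y κ)
    (h0 : ∀ j, a ≤ j → j < b → (c j = l ∨ c j = inv l) → κ j = 0) : (x, y) ∈ G l := by
  unfold Dec at h
  rw [Finset.sum_eq_zero] at h
  · simpa using h
  · intro j hj
    have hj := Finset.mem_Ico.1 hj
    by_cases h1 : c j = l ∨ c j = inv l
    · rw [h0 j hj.1 hj.2 h1, zero_smul]
    · push Not at h1
      unfold P
      rw [if_neg h1.1, if_neg h1.2, smul_zero]

section
variable {G : Fam} {B : ℕ} {c : ℤ → L} {V : ℤ → E} {a : ℤ} {r : ℕ}
  (hG : Str G B) (hc : Red c) (ha : V a ∈ EB B) (hdom : ∀ y, (V a, y) ∉ G (c a))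
  (hV : ∀ j, a < j → j ≤ a + r → V j = Finsupp.single (B + (j - a - 1).toNat) 1)

include ha hV in
theorem pV (j k : ℤ) (h1 : a ≤ j) (h2 : j ≤ a + r) (h3 : a < k) :
    ph B a k (V j) = if j = k then 1 else 0 := by
  by_cases h : j = a
  · subst h
    rw [ph_EB ha, if_neg (by omega)]
  · rw [hV j (by omega) h2]
    exact ph_single (by omega) h3

include hG ha hV in
theorem path_coord {l : L} {x y : E} {κ : ℤ → ℚ} (h : Dec G c V a (a+r) l x y κ)
    (k : ℤ) (h1 : a < k) (h2 : k ≤ a + r) :
    ph B a k x = (if k < a + r ∧ c k = l then κ k else 0) +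
      (if c (k-1) = inv l then κ (k-1) else 0) := by
  rw [h.coord hG.bd (ph B a k) k (if a + r = k then 1 else 0) (fun z hz => ph_EB hz)
    (fun j hj1 hj2 => pV ha hV j k hj1 hj2.le h1)
    (pV ha hV _ k (by omega) le_rfl h1) h1, add_assoc]
  congr 1
  by_cases h3 : k < a + r
  · have : ¬ (a + (r:ℤ) = k) := by omega
    simp [h3, this]
  · have h4 : k = a + r := by omega
    subst h4
    have : a < a + (r:ℤ) := h1
    simp [this]

include hG ha hV hc in
/-- `κ j` read off from the first component -/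
theorem kap_inv {l : L} {x y : E} {κ : ℤ → ℚ} (h : Dec G c V a (a+r) l x y κ)
    (j : ℤ) (h1 : a ≤ j) (h2 : j < a + r) (hl : c j = inv l) : ph B a (j+1) x = κ j := by
  rw [path_coord hG ha hV h (j+1) (by omega) (by omega)]
  have : ¬ (c (j+1) = l) := by
    intro h3
    apply hc j
    rw [h3, hl, inv_inv]
  simp [this, hl]

include hG ha hV hc in
theorem kap {l : L} {x y : E} {κ : ℤ → ℚ} (h : Dec G c V a (a+r) l x y κ)
    (j : ℤ) (h1 : a ≤ j) (h2 : j < a + r) (hl : c j = l) : ph B a (j+1) y = κ j :=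
  kap_inv hG hc ha hV (h.swap hG.sym) j h1 h2 (by rw [inv_inv, hl])

include hG ha hV in
theorem pF1 {l : L} {x y : E} (h : (x, y) ∈ Ext G c V a (a+r) l) (k : ℤ) (h1 : a < k)
    (h2 : k ≤ a + r) (hne : ph B a k x ≠ 0) : (k < a + r ∧ c k = l) ∨ c (k-1) = inv l := by
  obtain ⟨κ, hκ⟩ := mem_Ext h
  rw [path_coord hG ha hV hκ k h1 h2] at hne
  by_contra hcon
  push Not at hcon
  apply hne
  rw [if_neg (fun h => hcon.1 h.1 h.2), if_neg hcon.2, add_zero]

include hG ha hV hc in
theorem pF2 {x y : E} (k : ℤ) (h1 : a < k) (h2 : k < a + r)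
    (h : (x, y) ∈ Ext G c V a (a+r) (c k)) : ph B a (k+1) y = ph B a k x := by
  obtain ⟨κ, hκ⟩ := mem_Ext h
  rw [kap hG hc ha hV hκ k h1.le h2 rfl, path_coord hG ha hV hκ k h1 h2.le]
  have : ¬ (c (k-1) = inv (c k)) := by
    intro h3
    have := hc (k-1)
    rw [h3] at this
    simp at this
  simp [h2, this]

include hG ha hV hc hdom in
theorem path_str : Str (Ext G c V a (a+r)) (B+r) where
  sym := Ext_sym hG.sym
  bd := by
    apply Ext_bd hG.bd (Nat.le_add_right _ _)
    intro j h1 h2
    by_cases h : j = a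
    · subst h; exact EB_mono (Nat.le_add_right _ _) ha
    · rw [hV j (by omega) h2]
      intro i hi
      rw [Finsupp.single_apply, if_neg (by omega)]
  fn := by
    intro l y h
    obtain ⟨κ, hκ⟩ := mem_Ext h
    have hinv : ∀ j, a ≤ j → j < a + r → c j = inv l → κ j = 0 := by
      intro j h1 h2 h3
      rw [← kap_inv hG hc ha hV hκ j h1 h2 h3, map_zero]
    have hl : ∀ j, a < j → j < a + r → c j = l → κ j = 0 := by
      intro j h1 h2 h3
      have := path_coord hG ha hV hκ j h1 h2.le
      rw [map_zero] at this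
      have h4 : ¬ (c (j-1) = inv l) := by
        intro h5
        have := hc (j-1)
        rw [h5] at this
        simp [h3] at this
      simpa [h2, h3, h4] using this.symm
    -- the entry coefficient
    have ha0 : a < a + r → c a = l → κ a = 0 := by
      intro h1 h2
      by_contra h3
      unfold Dec at hκ
      have e : ∑ j ∈ Finset.Ico a (a+r), κ j • P c V l j = κ a • P c V l a := by
        apply Finset.sum_eq_single a
        · intro j hj hne
          have hj := Finset.mem_Ico.1 hj
          by_cases h5 : c j = l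
          · rw [hl j (by omega) hj.2 h5, zero_smul]
          · by_cases h6 : c j = inv l
            · rw [hinv j hj.1 hj.2 h6, zero_smul]
            · unfold P; rw [if_neg h5, if_neg h6, smul_zero]
        · intro h; simp at h; omega
      rw [e] at hκ
      unfold P at hκ
      rw [if_pos h2] at hκ
      apply hdom (-(κ a)⁻¹ • (y - κ a • V (a+1)))
      rw [h2]
      have := (G l).smul_mem (-(κ a)⁻¹) hκ
      convert this using 1
      apply Prod.ext
      · simp [h3]
      · simp
    apply hG.fn l y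
    apply hκ.of_zero
    intro j h1 h2 h3
    rcases h3 with h3 | h3
    · by_cases h4 : j = a
      · subst h4; exact ha0 h2 h3
      · exact hl j (by omega) h2 h3
    · exact hinv j h1 h2 h3

include hG ha hV hc in
theorem path_zero {g : ℤ → L} (hg : Red g) {x : ℤ → E}
    (hx : Tr (fun i => Ext G c V a (a+r) (g i)) x) (n : ℕ) :
    ∀ k, k = a + r - n → a < k → ∀ i, ph B a k (x i) = 0 := by
  have hsym := Ext_sym (c := c) (V := V) (a := a) (b := a+r) hG.sym
  have harr : ∀ i, (x i, x (i-1)) ∈ Ext G c V a (a+r) (inv (g (i-1))) := by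
    intro i
    have := hsym _ _ _ (hx (i-1))
    simpa using this
  have hred : ∀ i, g i ≠ inv (g (i-1)) := by
    intro i
    have := hg (i-1)
    simpa using this
  induction n with
  | zero =>
    intro k hk hak i
    have hk : k = a + r := by simpa using hk
    subst hk
    by_contra hne
    have h1 := pF1 hG ha hV (hx i) (a+r) hak le_rfl hne
    have h2 := pF1 hG ha hV (harr i) (a+r) hak le_rfl hne
    rw [inv_inv] at h2
    rcases h1 with h1 | h1
    · exact absurd h1.1 (lt_irrefl _)
    rcases h2 with h2 | h2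
    · exact absurd h2.1 (lt_irrefl _)
    apply hred i
    rw [← h2, h1, inv_inv]
  | succ n ih =>
    intro k hk hak i
    have hk1 : k + 1 = a + r - n := by push_cast at hk; omega
    have hk2 : k < a + r := by push_cast at hk; omega
    by_contra hne
    have h1 := pF1 hG ha hV (hx i) k hak hk2.le hne
    have h2 := pF1 hG ha hV (harr i) k hak hk2.le hne
    rw [inv_inv] at h2
    rcases h1 with h1 | h1
    · have h3 := hx i
      simp only at h3
      rw [← h1.2] at h3
      have h4 := pF2 hG hc ha hV k hak hk2 h3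
      rw [ih (k+1) hk1 (by omega) (i+1)] at h4
      exact hne h4.symm
    · rcases h2 with h2 | h2
      · have h3 := harr i
        rw [← h2.2] at h3
        have h4 := pF2 hG hc ha hV k hak hk2 h3
        rw [ih (k+1) hk1 (by omega) (i-1)] at h4
        exact hne h4.symm
      · apply hred i
        rw [← h2, h1, inv_inv]

include hG ha hV hc in
theorem path_good (hgood : Good G) : Good (Ext G c V a (a+r)) := by
  intro g hg q hq hper x hx
  apply hgood g hg q hq hper x
  have h0 : ∀ k, a < k → k ≤ a + r → ∀ i, ph B a k (x i) = 0 := by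
    intro k h1 h2 i
    exact path_zero hG hc ha hV hg hx (a + r - k).toNat k (by omega) h1 i
  intro i
  obtain ⟨κ, hκ⟩ := mem_Ext (hx i)
  apply hκ.of_zero
  intro j h1 h2 h3
  rcases h3 with h3 | h3
  · rw [← kap hG hc ha hV hκ j h1 h2 h3]
    exact h0 _ (by omega) (by omega) _
  · rw [← kap_inv hG hc ha hV hκ j h1 h2 h3]
    exact h0 _ (by omega) (by omega) _

end

/-- free extension: every vector can be put in the domain of a letter -/
theorem free_ext {G : Fam} {B : ℕ} (hG : Str G B) (hgood : Good G) (x : E) (l : L) :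
    ∃ (G' : Fam) (B' : ℕ), Str G' B' ∧ Good G' ∧ (∀ l, G l ≤ G' l) ∧ ∃ y, (x, y) ∈ G' l := by
  by_cases h : ∃ y, (x, y) ∈ G l
  · exact ⟨G, B, hG, hgood, fun l => le_rfl, h⟩
  · push Not at h
    obtain ⟨B1, hB1⟩ := exists_EB x
    have hG' := hG.mono (le_max_left B B1)
    have hx : x ∈ EB (max B B1) := EB_mono (le_max_right _ _) hB1
    have hc : Red (fun _ : ℤ => l) := fun i => ne_inv l
    let V : ℤ → E := fun j => if j = 0 then x else Finsupp.single (max B B1 + (j - 0 - 1).toNat) 1
    have hV0 : V 0 = x := by simp [V]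
    have hV : ∀ j, (0:ℤ) < j → j ≤ 0 + ((1:ℕ):ℤ) → V j = Finsupp.single (max B B1 + (j - 0 - 1).toNat) 1 := by
      intro j hj _
      simp only [V]
      rw [if_neg (by omega)]
    refine ⟨Ext G (fun _ => l) V 0 (0 + ((1:ℕ):ℤ)), _, path_str hG' hc (hV0 ▸ hx) (by rw [hV0]; exact h) hV,
      path_good hG' hc (hV0 ▸ hx) hV hgood, fun l => le_Ext l, V 1, ?_⟩
    have := pair_mem_Ext (G := G) (c := fun _ => l) (V := V) (a := 0) (b := 0 + ((1:ℕ):ℤ)) 0 le_rfl (by norm_num)
    simpa [hV0] using this

end Pool.Agent.V1114.Nil
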