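import Pool.Agent.V1114.Nil.GlueGood

set_option autoImplicit false
set_option linter.unusedVariables false

namespace Pool.Agent.V1114.Nil

open Submodule

theorem exists_max' (P : ℕ → Prop) {n0 : ℕ} (h0 : P n0) (N : ℕ) (hN : ∀ n, P n → n ≤ N) :
    ∃ n, P n ∧ ∀ m, P m → m ≤ n := by
  classical
  refine ⟨Nat.findGreatest P N, Nat.findGreatest_spec (hN _ h0) h0, fun m hm => ?_⟩
  exact Nat.le_findGreatest (hN m hm) hm

section
variable {G : Fam} {B : ℕ} {c : ℤ → L} {p : ℤ} {W : ℤ → E} {s e : ℤ}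

theorem sp_split (hc : Wd c p) (hW : PT (fun i => G (c i)) W s e) {i : ℤ} {z : E}
    (hz : z ∈ Sp p W s e i) : ∃ α : ℚ, (α = 0 ∨ p ∣ e - i) ∧ ∃ w ∈ Sp p W (s+1) e (i+1),
      (z - α • W e, w) ∈ G (c i) := by
  unfold Sp at hz
  induction hz using Submodule.span_induction with
  | mem x hx =>
    obtain ⟨j, h1, h2, h3, rfl⟩ := hx
    by_cases h : j = e
    · subst h
      refine ⟨1, Or.inr h3, 0, Submodule.zero_mem _, ?_⟩
      rw [one_smul, sub_self]; exact (G (c i)).zero_mem
    · refine ⟨0, Or.inl rfl, W (j+1), ?_, ?_⟩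
      · exact mem_Sp (by omega) (by omega) (by simpa using h3)
      · rw [zero_smul, sub_zero]
        have := hW j h1 (by omega)
        simp only at this
        rwa [hc.per _ _ h3] at this
  | zero => exact ⟨0, Or.inl rfl, 0, Submodule.zero_mem _, by
      rw [zero_smul, sub_zero]; exact (G (c i)).zero_mem⟩
  | add x y _ _ hx hy =>
    obtain ⟨α, h1, w, h2, h3⟩ := hx
    obtain ⟨β, h4, w', h5, h6⟩ := hy
    refine ⟨α + β, ?_, w + w', Submodule.add_mem _ h2 h5, ?_⟩
    · rcases h1 with h1 | h1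
      · rcases h4 with h4 | h4
        · left; rw [h1, h4, add_zero]
        · right; exact h4
      · right; exact h1
    · have := (G (c i)).add_mem h3 h6
      convert this using 1
      apply Prod.ext
      · simp only [Prod.fst_add, add_smul]; abel
      · rfl
  | smul r x _ hx =>
    obtain ⟨α, h1, w, h2, h3⟩ := hx
    refine ⟨r * α, ?_, r • w, Submodule.smul_mem _ _ h2, ?_⟩
    · rcases h1 with h1 | h1
      · left; rw [h1, mul_zero]
      · right; exact h1
    · have := (G (c i)).smul_mem r h3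
      convert this using 1
      apply Prod.ext
      · simp only [Prod.smul_fst, smul_sub, mul_smul]
      · rfl

theorem Sp_mono {s' e' : ℤ} (hs : s ≤ s') (he : e' ≤ e) (i : ℤ) : Sp p W s' e' i ≤ Sp p W s e i := by
  unfold Sp
  rw [span_le]
  rintro _ ⟨j, h1, h2, h3, rfl⟩
  exact mem_Sp (by omega) (by omega) h3

theorem q_fun (hG : Str G B) (hc : Wd c p) (hW : PT (fun i => G (c i)) W s e)
    (he : ∀ y, (W e, y) ∉ G (c e)) {i : ℤ} {x0 y0 : E} (h : (x0, y0) ∈ G (c i))
    (hx : x0 ∈ Sp p W s e i) : y0 ∈ Sp p W s e (i+1) := by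
  obtain ⟨α, h1, w, h2, h3⟩ := sp_split hc hW hx
  have h4 : (α • W e, y0 - w) ∈ G (c i) := by
    have := (G (c i)).sub_mem h h3
    simpa using this
  have hα : α = 0 := by
    by_contra hne
    rcases h1 with h1 | h1
    · exact hne h1
    · apply he (α⁻¹ • (y0 - w))
      rw [hc.per _ _ h1]
      have := (G (c i)).smul_mem α⁻¹ h4
      simpa [smul_smul, inv_mul_cancel₀ hne] using this
  rw [hα, zero_smul] at h4
  have := hG.fn _ _ h4
  rw [sub_eq_zero] at this
  rw [this]
  exact Sp_mono (by omega) le_rfl _ h2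

theorem Sp_le_TQ (i : ℤ) : Sp p W s e i ≤ T (RQ G c p W s e) i := by
  intro z hz
  refine ⟨fun j => if j = i then z else 0, ?_, by simp⟩
  intro j
  rw [mem_RQ]
  refine ⟨0, 0, (G (c j)).zero_mem, ?_, ?_⟩
  · rw [sub_zero]
    beta_reduce
    split_ifs with h
    · rw [h]; exact hz
    · exact Submodule.zero_mem _
  · rw [sub_zero]
    beta_reduce
    split_ifs with h
    · rw [h]; exact hz
    · exact Submodule.zero_mem _

theorem T_le_TQ (i : ℤ) : T (fun i => G (c i)) i ≤ T (RQ G c p W s e) i := by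
  rintro z ⟨x, hx, rfl⟩
  refine ⟨x, fun j => ?_, rfl⟩
  rw [mem_RQ]
  exact ⟨x j, x (j+1), hx j, by simp, by simp⟩

theorem TQ_step (hG : Str G B) (hc : Wd c p) (hW : PT (fun i => G (c i)) W s e)
    (he : ∀ y, (W e, y) ∉ G (c e)) {i : ℤ} {z y : E} (hz : z ∈ T (RQ G c p W s e) i)
    (h : (z, y) ∈ G (c i)) : y ∈ T (RQ G c p W s e) (i+1) := by
  obtain ⟨x, hx, rfl⟩ := hz
  obtain ⟨x0, y0, h1, h2, h3⟩ := mem_RQ.1 (hx i)
  have h4 : (x i - x0, y - y0) ∈ G (c i) := (G (c i)).sub_mem h h1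
  have h5 := q_fun hG hc hW he h4 h2
  have h6 : y - x (i+1) ∈ Sp p W s e (i+1) := by
    have := Submodule.sub_mem _ h5 h3
    simpa using this
  have h7 := (T (RQ G c p W s e) (i+1)).add_mem (Sp_le_TQ _ h6) (mem_T.2 ⟨x, hx, rfl⟩ : x (i+1) ∈ T (RQ G c p W s e) (i+1))
  simpa using h7

theorem TQ_path (hG : Str G B) (hc : Wd c p) (hW : PT (fun i => G (c i)) W s e)
    (he : ∀ y, (W e, y) ∉ G (c e)) {i : ℤ} {x : ℤ → E} (hz : x i ∈ T (RQ G c p W s e) i)
    {b : ℤ} (hx : PT (fun i => G (c i)) x i b) :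
    ∀ k : ℕ, i + k ≤ b → x (i+k) ∈ T (RQ G c p W s e) (i+k) := by
  intro k
  induction k with
  | zero => intro _; simpa using hz
  | succ k ih =>
    intro hk
    push_cast at hk
    have := TQ_step hG hc hW he (ih (by omega)) (hx (i+k) (by omega) (by omega))
    push_cast
    rw [← add_assoc]; exact this

theorem H_sigma (hc : Wd c p) (hW : PT (fun i => G (c i)) W s e) {i : ℤ} {z : E}
    (hz : z ∈ T (RQ G c p W s e) i) :
    ∃ α : ℚ, (α = 0 ∨ p ∣ e - i) ∧ z - α • W e ∈ Dom G (c i) := by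
  obtain ⟨x, hx, rfl⟩ := hz
  obtain ⟨x0, y0, h1, h2, h3⟩ := mem_RQ.1 (hx i)
  obtain ⟨α, h4, w, h5, h6⟩ := sp_split hc hW h2
  refine ⟨α, h4, ?_⟩
  have h7 := (Dom G (c i)).add_mem (mem_Dom.2 ⟨_, h1⟩) (mem_Dom.2 ⟨_, h6⟩)
  have e1 : x0 + (x i - x0 - α • W e) = x i - α • W e := by abel
  rwa [e1] at h7

theorem claimE (hG : Str G B) (hc : Wd c p) (hW : PT (fun i => G (c i)) W s e)
    (he : ∀ y, (W e, y) ∉ G (c e))
    {v : ℤ → E} {s' e' : ℤ} (hv : PT (fun i => G (c i)) v s' e')
    (hvQ : ∀ j, s' ≤ j → j ≤ e' → v j ∈ T (RQ G c p W s e) j)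
    (Hv : ∀ i z, z ∈ T (RQ G c p W s e) i →
      ∃ α : ℚ, (α = 0 ∨ p ∣ e' - i) ∧ z - α • v e' ∈ Dom G (c i)) :
    ∀ f : ℕ, (f:ℤ) ≤ e' - s' + 1 → ∀ i z, z ∈ T (RQ G c p W s e) i →
      ∃ z' ∈ T (RQ G c p W s e) i, z' ∈ Fwd (fun i => G (c i)) f i ∧ z - z' ∈ Sp p v s' e' i := by
  intro f
  have hper : Per (fun i => G (c i)) p := fun i j h => by simp only [hc.per i j h]
  induction f with
  | zero =>
    intro _ i z hz
    exact ⟨z, hz, ⟨fun _ => z, fun j h1 h2 => absurd h2 (by simp; omega), rfl⟩, by simp⟩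
  | succ f ih =>
    intro hf i z hz
    push_cast at hf
    obtain ⟨z', h1, ⟨x, hx, rfl⟩, h3⟩ := ih (by omega) i z hz
    have hy := TQ_path hG hc hW he h1 hx f (by omega)
    obtain ⟨α, h4, h5⟩ := Hv _ _ hy
    obtain ⟨w, hw⟩ := mem_Dom.1 h5
    by_cases hα : α = 0
    · refine ⟨x i, h1, ⟨fun j => if j ≤ i + f then x j else w, ?_, by simp⟩, h3⟩
      intro j hj1 hj2
      push_cast at hj2
      by_cases h6 : j = i + f
      · subst h6
        rw [hα, zero_smul, sub_zero] at hw
        simpa using hw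
      · have h7 : j ≤ i + f := by omega
        have h8 : j + 1 ≤ i + f := by omega
        simp only [h7, h8, if_true]
        exact hx j hj1 (by omega)
    · have hd : p ∣ e' - (i + f) := h4.resolve_left hα
      have hd' : p ∣ (e' - f) - i := by
        have e1 : e' - f - i = e' - (i + f) := by ring
        rw [e1]; exact hd
      have hvs := shift_PT hper hd' hv
      refine ⟨x i - α • v (e' - f), ?_, ?_, ?_⟩
      · apply Submodule.sub_mem _ h1
        apply Submodule.smul_mem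
        exact T_per (RQ_per hc s e) hd' (hvQ (e'-f) (by omega) (by omega))
      · refine ⟨fun j => if j ≤ i + f then x j - α • v (j + (e' - f - i)) else w, ?_, ?_⟩
        · intro j hj1 hj2
          push_cast at hj2
          by_cases h6 : j = i + f
          · subst h6
            have e1 : i + (f:ℤ) + (e' - f - i) = e' := by ring
            simpa [e1] using hw
          · have h7 : j ≤ i + f := by omega
            have h8 : j + 1 ≤ i + f := by omega
            simp only [h7, h8, if_true]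
            have h9 := (hx j hj1 (by omega))
            have h10 := hvs j (by omega) (by omega)
            have := (G (c j)).sub_mem h9 ((G (c j)).smul_mem α h10)
            simpa using this
        · have e1 : i + (e' - f - i) = e' - f := by ring
          simp [e1]
      · have h6 := Submodule.add_mem _ h3 (Submodule.smul_mem _ α
          (mem_Sp (p := p) (U := v) (s := s') (e := e') (i := i) (j := e' - f) (by omega) (by omega) hd'))
        have e1 : z - x i + α • v (e' - f) = z - (x i - α • v (e' - f)) := by abel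
        rwa [e1] at h6

/-- admissible string lengths -/
def SL (G : Fam) (B : ℕ) (c : ℤ → L) (p : ℤ) (u : E) (k : ℕ) : Prop :=
  ∃ (s : ℤ) (W : ℤ → E), PT (fun i => G (c i)) W s (s+k) ∧ (∀ j, s ≤ j → j ≤ s + k → W j ∈ EB B) ∧
    u ∈ T (fun i => G (c i)) 0 ⊔ Sp p W s (s+k) 0

theorem pure_of_max (hG : Str G B) (hc : Wd c p) {u : E} {k : ℕ}
    (hW : PT (fun i => G (c i)) W s (s+k)) (hWB : ∀ j, s ≤ j → j ≤ s + k → W j ∈ EB B)
    (he : ∀ y, (W (s+k), y) ∉ G (c (s+k)))
    (hu : u ∈ T (fun i => G (c i)) 0 ⊔ Sp p W s (s+k) 0)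
    (hmax : ∀ k', SL G B c p u k' → k' ≤ k) (i : ℤ) :
    T (RQ G c p W s (s+k)) i ≤ T (fun i => G (c i)) i ⊔ Sp p W s (s+k) i := by
  have hp := hc.pos
  have hper : Per (fun i => G (c i)) p := fun i j h => by simp only [hc.per i j h]
  obtain ⟨K, hK⟩ := exists_K hp hper (hG.bdd c)
  intro z hz
  have hWQ : ∀ j, s ≤ j → j ≤ s + k → W j ∈ T (RQ G c p W s (s+k)) j := fun j h1 h2 =>
    Sp_le_TQ _ (mem_Sp h1 h2 (by simp))
  obtain ⟨z', h1, h2, h3⟩ := claimE hG hc hW he hW hWQ (fun i z hz => H_sigma hc hW hz) (k+1)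
    (by push_cast; omega) i z hz
  by_cases h4 : z' ∈ T (fun i => G (c i)) i
  · have := Submodule.add_mem_sup h4 h3
    simpa using this
  · exfalso
    -- the longest real non-closed path with Q-closed start
    obtain ⟨k', ⟨i0, z0, a1, ⟨v, a2, rfl⟩, a3⟩, a4⟩ := exists_max'
      (fun k' => ∃ i z, z ∈ T (RQ G c p W s (s+k)) i ∧ z ∈ Fwd (fun i => G (c i)) k' i ∧
        z ∉ T (fun i => G (c i)) i) (n0 := k+1) ⟨i, z', h1, h2, h4⟩ (2*K) (by
        rintro n ⟨i, z, b1, ⟨x, b2, rfl⟩, b3⟩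
        by_contra hcon
        obtain ⟨y, hy1, hy2⟩ := long_closed (hG.pi c) hK b2 (by omega)
        exact b3 ⟨y, hy1, (hy2 i le_rfl (by omega)).symm⟩)
    have hk' : k + 1 ≤ k' := a4 _ ⟨i, z', h1, h2, h4⟩
    have hvQ : ∀ j, i0 ≤ j → j ≤ i0 + k' → v j ∈ T (RQ G c p W s (s+k)) j := by
      intro j hj1 hj2
      have := TQ_path hG hc hW he a1 a2 (j-i0).toNat (by omega)
      have e1 : i0 + ((j-i0).toNat:ℤ) = j := by omega
      rwa [e1] at this
    have hvend : v (i0+k') ∉ Dom G (c (i0+k')) := by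
      intro hcon
      obtain ⟨w, hw⟩ := mem_Dom.1 hcon
      have := a4 (k'+1) ⟨i0, v i0, a1, ⟨fun j => if j ≤ i0 + k' then v j else w, by
        intro j hj1 hj2
        push_cast at hj2
        by_cases h6 : j = i0 + k'
        · subst h6; simpa using hw
        · have h7 : j ≤ i0 + k' := by omega
          have h8 : j + 1 ≤ i0 + k' := by omega
          simp only [h7, h8, if_true]
          exact a2 j hj1 (by omega), by simp⟩, a3⟩
      omega
    have Hv : ∀ i z, z ∈ T (RQ G c p W s (s+k)) i →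
        ∃ α : ℚ, (α = 0 ∨ p ∣ (i0 + k') - i) ∧ z - α • v (i0+k') ∈ Dom G (c i) := by
      intro i z hz
      obtain ⟨α, b1, b2⟩ := H_sigma hc hW hz
      by_cases hα : α = 0
      · refine ⟨0, Or.inl rfl, ?_⟩
        rw [hα] at b2
        simpa using b2
      · have hd := b1.resolve_left hα
        obtain ⟨β, b3, b4⟩ := H_sigma hc hW (hvQ (i0+k') (by omega) le_rfl)
        have hβ : β ≠ 0 := by
          rintro rfl
          apply hvend
          simpa using b4
        have hd' := b3.resolve_left hβ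
        have hd2 : p ∣ i0 + k' - i := by
          have e1 : i0 + k' - i = (s + k - i) - (s + k - (i0 + k')) := by ring
          rw [e1]; exact hd.sub hd'
        refine ⟨α / β, Or.inr hd2, ?_⟩
        rw [hc.per _ _ hd2] at b4
        have := (Dom G (c i)).sub_mem b2 ((Dom G (c i)).smul_mem (α/β) b4)
        convert this using 1
        rw [smul_sub, smul_smul, div_mul_cancel₀ _ hβ]
        abel
    have key : T (RQ G c p W s (s+k)) 0 ≤ T (fun i => G (c i)) 0 ⊔ Sp p v i0 (i0+k') 0 := by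
      intro z hz
      obtain ⟨z'', c1, c2, c3⟩ := claimE hG hc hW he a2 hvQ Hv (k'+1) (by push_cast; omega) 0 z hz
      have c4 : z'' ∈ T (fun i => G (c i)) 0 := by
        by_contra hcon
        have := a4 (k'+1) ⟨0, z'', c1, c2, hcon⟩
        omega
      have := Submodule.add_mem_sup c4 c3
      simpa using this
    have hle : T (fun i => G (c i)) 0 ⊔ Sp p W s (s+k) 0 ≤ T (RQ G c p W s (s+k)) 0 :=
      sup_le (T_le_TQ 0) (Sp_le_TQ 0)
    have hu' := key (hle hu)
    have := hmax k' ⟨i0, v, a2, ?_, hu'⟩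
    · omega
    · intro j hj1 hj2
      by_cases hj : j < i0 + k'
      · exact (hG.bd _ _ _ (a2 j hj1 hj)).1
      · have e1 : j - 1 + 1 = j := by ring
        have := (hG.bd _ _ _ (a2 (j-1) (by omega) (by omega))).2
        rwa [e1] at this

end

end Pool.Agent.V1114.Nil
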