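import Pool.Agent.V1114.Nil.Chain

set_option autoImplicit false
set_option linter.unusedVariables false

namespace Pool.Agent.V1114.Nil

open Submodule Polynomial

/-- span of the vectors of a string at the right phase -/
noncomputable def Sp (p : ℤ) (U : ℤ → E) (s e : ℤ) (i : ℤ) : Submodule ℚ E :=
  span ℚ {z | ∃ j, s ≤ j ∧ j ≤ e ∧ p ∣ j - i ∧ U j = z}

theorem mem_Sp {p : ℤ} {U : ℤ → E} {s e i j : ℤ} (h1 : s ≤ j) (h2 : j ≤ e) (h3 : p ∣ j - i) :
    U j ∈ Sp p U s e i := subset_span ⟨j, h1, h2, h3, rfl⟩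

theorem Sp_per {p : ℤ} {U : ℤ → E} {s e i i' : ℤ} (h : p ∣ i - i') : Sp p U s e i ≤ Sp p U s e i' := by
  unfold Sp
  rw [span_le]
  rintro _ ⟨j, h1, h2, h3, rfl⟩
  exact mem_Sp h1 h2 (by
    have e : j - i' = (j - i) + (i - i') := by ring
    rw [e]; exact h3.add h)

/-- the relation family modulo the string -/
noncomputable def RQ (G : Fam) (c : ℤ → L) (p : ℤ) (U : ℤ → E) (s e : ℤ) : Rel := fun t =>
  G (c t) ⊔ (Sp p U s e t).prod (Sp p U s e (t+1))

theorem mem_RQ {G : Fam} {c : ℤ → L} {p : ℤ} {U : ℤ → E} {s e t : ℤ} {x y : E} :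
    (x, y) ∈ RQ G c p U s e t ↔ ∃ x0 y0, (x0, y0) ∈ G (c t) ∧ x - x0 ∈ Sp p U s e t ∧
      y - y0 ∈ Sp p U s e (t+1) := by
  unfold RQ
  rw [Submodule.mem_sup]
  constructor
  · rintro ⟨⟨x0, y0⟩, h1, ⟨u, v⟩, h2, h3⟩
    have h4 := congrArg Prod.fst h3
    have h5 := congrArg Prod.snd h3
    simp only [Prod.fst_add, Prod.snd_add] at h4 h5
    refine ⟨x0, y0, h1, ?_, ?_⟩
    · rw [← h4, add_sub_cancel_left]; exact h2.1
    · rw [← h5, add_sub_cancel_left]; exact h2.2
  · rintro ⟨x0, y0, h1, h2, h3⟩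
    exact ⟨(x0, y0), h1, (x - x0, y - y0), ⟨h2, h3⟩, by simp⟩

section
variable {G : Fam} {B : ℕ} {c : ℤ → L} {p m : ℤ} {n : ℕ} {U : ℤ → E}

theorem RQ_per (hc : Wd c p) (s e : ℤ) : Per (RQ G c p U s e) p := by
  intro i j h
  unfold RQ
  have h' : p ∣ j - i := by
    have := (dvd_neg).2 h; simpa using this
  have h1 : p ∣ (i+1) - (j+1) := by simpa using h
  have h1' : p ∣ (j+1) - (i+1) := by simpa using h'
  rw [hc.per i j h, le_antisymm (Sp_per (s := s) (e := e) (U := U) h) (Sp_per h'),
    le_antisymm (Sp_per (s := s) (e := e) (U := U) h1) (Sp_per h1')]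

theorem RQ_bdd (hG : Str G B) {s e : ℤ} (hU : ∀ j, s ≤ j → j ≤ e → U j ∈ EB B) :
    Bdd (RQ G c p U s e) B := by
  have hS : ∀ t, Sp p U s e t ≤ EB B := by
    intro t
    unfold Sp
    rw [span_le]
    rintro _ ⟨j, h1, h2, _, rfl⟩
    exact hU j h1 h2
  intro i x y h
  obtain ⟨x0, y0, h1, h2, h3⟩ := mem_RQ.1 h
  have h4 := hG.bd _ _ _ h1
  constructor
  · have := (EB B).add_mem h4.1 (hS _ h2)
    simpa using this
  · have := (EB B).add_mem h4.2 (hS _ h3)
    simpa using this

theorem GD.rhoN_mem (D : GD G B c p m n U) {t : ℤ} (h : p ∣ t + 1) :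
    rho B (Cyc B m p n U (n*p)) ∈ Sp p U 0 m (t+1) := by
  rw [D.rho_N]
  apply Submodule.sum_mem
  intro i _
  apply Submodule.smul_mem
  split_ifs with h1
  · exact mem_Sp (mul_nonneg (by positivity) D.hc.pos.le) h1 ((Dvd.intro_left _ rfl).sub h)
  · exact Submodule.zero_mem _

/-- a step of `Gl` with only right-phase fresh coordinates projects to a `RQ` step -/
theorem GD.qstep (D : GD G B c p m n U) {x y : E} {t : ℤ} (h : (x, y) ∈ Gl G B c p m n U (c t))
    (hx : ∀ k, m < k → k < n * p → ¬ p ∣ k - t → ph B m k x = 0)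
    (hy : ∀ k, m < k → k < n * p → ¬ p ∣ k - (t+1) → ph B m k y = 0) :
    (rho B x, rho B y) ∈ RQ G c p U 0 m t := by
  obtain ⟨κ, hκ⟩ := mem_Ext h
  have hs := hκ.swap D.hG.sym
  have hp := D.hc.pos
  have hN := D.hn
  have hm := D.hm
  have hr := D.hc.red
  -- reversed coefficients vanish
  have hinv : ∀ j, m < j → j < n * p → c j = inv (c t) → κ j = 0 := by
    intro j h1 h2 h3
    rw [← D.g1 hs j h1 h2 h3]
    apply hy j h1 h2
    intro h4
    have := D.hc.per _ _ h4
    rw [this] at h3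
    exact hr t h3
  have hinvm : c m = inv (c t) → κ m = 0 := by
    intro h3
    have h4 := D.g2 hκ (m+1) (by omega) (by omega) (by
      have : m + 1 - 1 = m := by ring
      rw [this]; exact h3)
    have e : m + 1 - 1 = m := by ring
    rw [e] at h4
    have h5 : κ (n*p-1) * om B p m n U (m+1) = 0 := by
      by_cases h6 : om B p m n U (m+1) = 0
      · rw [h6, mul_zero]
      · have h7 := D.cN (D.om_dvd (by omega) (by omega) h6)
        rw [e, h3] at h7
        rw [hinv _ (by omega) (by omega) h7, zero_mul]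
    rw [h5, add_zero] at h4
    rw [← h4]
    apply hx (m+1) (by omega) (by omega)
    intro h6
    have h7 : c m = c (t-1) := D.hc.per _ _ (by
      have : m - (t-1) = m + 1 - t := by ring
      rw [this]; exact h6)
    apply hr.ne' t
    rw [← h7, h3, inv_inv]
  have hfw : ∀ j, m < j → j < n * p → c j = c t → ¬ p ∣ j - t → κ j = 0 := by
    intro j h1 h2 h3 h4
    rw [← D.g1 hκ j h1 h2 h3]
    exact hx j h1 h2 h4
  have hfwm : c m = c t → ¬ p ∣ m - t → κ m = 0 := by
    intro h3 h4
    have h5 := D.g2 hs (m+1) (by omega) (by omega) (by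
      have : m + 1 - 1 = m := by ring
      rw [this, h3, inv_inv])
    have e : m + 1 - 1 = m := by ring
    rw [e] at h5
    have h6 : κ (n*p-1) * om B p m n U (m+1) = 0 := by
      by_cases h6 : om B p m n U (m+1) = 0
      · rw [h6, mul_zero]
      · have h8 := D.om_dvd (by omega) (by omega) h6
        have h7 := D.cN h8
        rw [e, h3] at h7
        rw [hfw _ (by omega) (by omega) h7 ?_, zero_mul]
        intro h9
        apply h4
        have e2 : m - t = ((n:ℤ)*p-1-t) - (n*p - (m+1)) := by ring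
        rw [e2]
        exact h9.sub ((Dvd.intro_left _ rfl).sub h8)
    rw [h6, add_zero] at h5
    rw [← h5]
    apply hy (m+1) (by omega) (by omega)
    intro h7
    apply h4
    have e2 : m - t = m + 1 - (t+1) := by ring
    rw [e2]; exact h7
  have r1 := D.rho_fst hκ
  have r2 := D.rho_snd hκ
  rw [mem_RQ]
  refine ⟨(x - ∑ j ∈ Finset.Ico m (n*p), κ j • (P c (Cyc B m p n U) (c t) j).1),
    (y - ∑ j ∈ Finset.Ico m (n*p), κ j • (P c (Cyc B m p n U) (c t) j).2), ?_, ?_, ?_⟩
  · unfold Dec at hκ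
    have e : ((x - ∑ j ∈ Finset.Ico m (n*p), κ j • (P c (Cyc B m p n U) (c t) j).1,
        y - ∑ j ∈ Finset.Ico m (n*p), κ j • (P c (Cyc B m p n U) (c t) j).2) : E × E) =
        ((x, y) - ∑ j ∈ Finset.Ico m (n*p), κ j • P c (Cyc B m p n U) (c t) j) :=
      Prod.ext (by simp [Prod.fst_sum]) (by simp [Prod.snd_sum])
    rw [e]; exact hκ
  · rw [r1, add_assoc, add_sub_cancel_left]
    have e1 : (if c (n*p-1) = inv (c t) then κ (n*p-1) • rho B (Cyc B m p n U (n*p)) else 0) = 0 := by
      split_ifs with h1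
      · rw [hinv _ (by omega) (by omega) h1, zero_smul]
      · rfl
    rw [e1, add_zero]
    split_ifs with h1
    · by_cases h2 : p ∣ m - t
      · exact Submodule.smul_mem _ _ (mem_Sp hm le_rfl h2)
      · rw [hfwm h1 h2, zero_smul]; exact Submodule.zero_mem _
    · exact Submodule.zero_mem _
  · rw [r2, add_assoc, add_sub_cancel_left]
    have e1 : (if c m = inv (c t) then κ m • U m else 0) = 0 := by
      split_ifs with h1
      · rw [hinvm h1, zero_smul]
      · rfl
    rw [e1, zero_add]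
    split_ifs with h1
    · by_cases h2 : p ∣ (n:ℤ)*p - 1 - t
      · apply Submodule.smul_mem
        apply D.rhoN_mem
        have e2 : t + 1 = n * p - (n*p-1-t) := by ring
        rw [e2]
        exact (Dvd.intro_left _ rfl).sub h2
      · rw [hfw _ (by omega) (by omega) h1 h2, zero_smul]; exact Submodule.zero_mem _
    · exact Submodule.zero_mem _

/-- span of all cycle vectors at the right phase -/
noncomputable def SC (B : ℕ) (m p : ℤ) (n : ℕ) (U : ℤ → E) (t : ℤ) : Submodule ℚ E :=
  Sp p (Cyc B m p n U) 0 (n*p-1) t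

theorem GD.Sp_le_SC (D : GD G B c p m n U) (t : ℤ) : Sp p U 0 m t ≤ SC B m p n U t := by
  have hp := D.hc.pos
  have hN := D.hn
  unfold SC
  conv_lhs => unfold Sp
  rw [span_le]
  rintro _ ⟨j, h1, h2, h3, rfl⟩
  have := mem_Sp (U := Cyc B m p n U) (s := 0) (e := n*p-1) h1 (by omega) h3
  rw [Cyc_base hp h1 (by omega)] at this
  unfold Wb at this
  rw [if_pos h2] at this
  exact this

/-- decomposition of a vector with right-phase fresh coordinates only -/
theorem GD.decomp (D : GD G B c p m n U) {x : E} {t : ℤ} (hx : x ∈ EB (B + (n*p-m-1).toNat))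
    (h : ∀ k, m < k → k < n * p → ¬ p ∣ k - t → ph B m k x = 0) :
    x - rho B x ∈ SC B m p n U t := by
  have hp := D.hc.pos
  have hN := D.hn
  have hm := D.hm
  have e : x - rho B x = ∑ k ∈ (Finset.Ioo m (n*p)).filter (fun k => p ∣ k - t),
      ph B m k x • Cyc B m p n U k := by
    ext i
    rw [Finsupp.sub_apply, rho_apply, Finsupp.finsetSum_apply]
    have hc : ∀ k ∈ (Finset.Ioo m (n*p)).filter (fun k => p ∣ k - t),
        (ph B m k x • Cyc B m p n U k) i = if B + (k - m - 1).toNat = i then ph B m k x else 0 := by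
      intro k hk
      rw [Finset.mem_filter, Finset.mem_Ioo] at hk
      rw [Cyc_base hp (by omega) hk.1.2]
      unfold Wb
      rw [if_neg (by omega), Finsupp.smul_apply, Finsupp.single_apply]
      split_ifs <;> simp
    rw [Finset.sum_congr rfl hc]
    by_cases h1 : i < B
    · rw [if_pos h1, sub_self]
      symm
      apply Finset.sum_eq_zero
      intro k _
      rw [if_neg (by omega)]
    · rw [if_neg h1, sub_zero]
      by_cases h2 : i < B + (n*p-m-1).toNat
      · set k0 : ℤ := (i:ℤ) - B + m + 1 with hk0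
        have hk1 : m < k0 := by omega
        have hk2 : k0 < n * p := by omega
        have hk3 : B + (k0 - m - 1).toNat = i := by omega
        have hxi : x i = ph B m k0 x := by
          unfold ph; rw [Finsupp.lapply_apply, hk3]
        by_cases h3 : p ∣ k0 - t
        · rw [Finset.sum_eq_single k0]
          · rw [if_pos hk3, hxi]
          · intro k hk hne
            rw [Finset.mem_filter, Finset.mem_Ioo] at hk
            rw [if_neg (by omega)]
          · intro h4
            exact absurd (Finset.mem_filter.2 ⟨Finset.mem_Ioo.2 ⟨hk1, hk2⟩, h3⟩) h4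
        · rw [hxi, h k0 hk1 hk2 h3]
          symm
          apply Finset.sum_eq_zero
          intro k hk
          rw [Finset.mem_filter, Finset.mem_Ioo] at hk
          rw [if_neg]
          intro h4
          have : k = k0 := by omega
          rw [this] at hk
          exact h3 hk.2
      · rw [hx i (not_lt.1 h2)]
        symm
        apply Finset.sum_eq_zero
        intro k hk
        rw [Finset.mem_filter, Finset.mem_Ioo] at hk
        rw [if_neg (by omega)]
  rw [e]
  apply Submodule.sum_mem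
  intro k hk
  rw [Finset.mem_filter, Finset.mem_Ioo] at hk
  exact Submodule.smul_mem _ _ (mem_Sp (by omega) (by omega) hk.2)

/-- Claim A -/
theorem GD.claimA (D : GD G B c p m n U) {K : ℕ}
    (hK : ∀ i z, z ∈ Fwd (RQ G c p U 0 m) K i → z ∈ Bwd (RQ G c p U 0 m) K i →
      z ∈ T (RQ G c p U 0 m) i)
    (pure : ∀ i, T (RQ G c p U 0 m) i ≤ T (fun t => G (c t)) i ⊔ Sp p U 0 m i)
    {x : ℤ → E} {a b : ℤ} (hx : PT (fun i => Gl G B c p m n U (c i)) x a b) {t : ℤ}
    (h1 : a + p + K ≤ t) (h2 : t + p + K ≤ b) :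
    ∃ y, Tr (fun t => G (c t)) y ∧ x t - y t ∈ SC B m p n U t := by
  have hp := D.hc.pos
  have hq : PT (RQ G c p U 0 m) (fun i => rho B (x i)) (a+p) (b-p) := by
    intro s hs1 hs2
    apply D.qstep (hx s (by omega) (by omega))
    · intro k hk1 hk2 hk3
      by_contra hne
      exact hk3 (D.right_phase hx hs1 (by omega) hk1 hk2 hne)
    · intro k hk1 hk2 hk3
      by_contra hne
      exact hk3 (D.right_phase hx (by omega) (by omega) hk1 hk2 hne)
  have ht : rho B (x t) ∈ T (RQ G c p U 0 m) t := by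
    apply hK
    · exact ⟨_, hq.mono (by omega) (by omega), rfl⟩
    · exact ⟨_, hq.mono (by omega) (by omega), rfl⟩
  obtain ⟨y0, ⟨y, hy, rfl⟩, s, hs, hys⟩ := Submodule.mem_sup.1 (pure t ht)
  refine ⟨y, hy, ?_⟩
  have hxt : x t ∈ EB (B + (n*p-m-1).toNat) := (D.str.bd _ _ _ (hx t (by omega) (by omega))).1
  have h3 := D.decomp (t := t) hxt (by
    intro k hk1 hk2 hk3
    by_contra hne
    exact hk3 (D.right_phase hx (by omega) (by omega) hk1 hk2 hne))
  have h4 := (SC B m p n U t).add_mem h3 (D.Sp_le_SC t hs)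
  have e : x t - y t = (x t - rho B (x t)) + s := by
    rw [← hys]; abel
  rw [e]; exact h4

end

end Pool.Agent.V1114.Nil
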