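import Pool.Agent.V1114.Nil.Main

set_option autoImplicit false
set_option linter.unusedVariables false

namespace Pool.Agent.V1114.Nil

/-- A representation of the free group of rank two in which every element acts with `g - 1` locally
nilpotent, and in which `(s-1)(t-1)` fixes a nonzero vector. -/
theorem exists_rep : ∃ ρ : Representation ℚ (FreeGroup Bool) E,
    (∀ g, NilOp (ρ g)) ∧
    ∃ s t, (ρ s - 1) ((ρ t - 1) e0) = e0 := by
  obtain ⟨A, hinv, ht, hs, hw⟩ := exists_ops
  have hnil := nil_all hinv hw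
  have hinv' : ∀ l x, A l (A (inv l) x) = x := fun l x => by
    have := hinv (inv l) x
    rwa [inv_inv] at this
  let Au : L → (Module.End ℚ E)ˣ := fun l =>
    ⟨A l, A (inv l), LinearMap.ext (hinv' l), LinearMap.ext (hinv l)⟩
  have hAu : ∀ l, ((Au l : (Module.End ℚ E)ˣ) : Module.End ℚ E) = A l := fun l => rfl
  have hAui : ∀ l, (((Au l)⁻¹ : (Module.End ℚ E)ˣ) : Module.End ℚ E) = A (inv l) := fun l => rfl
  let φ : FreeGroup Bool →* (Module.End ℚ E)ˣ := FreeGroup.lift (fun b => Au (b, true))
  let ρ : Representation ℚ (FreeGroup Bool) E := (Units.coeHom _).comp φ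
  have hρ : ∀ g, ρ g = ((φ g : (Module.End ℚ E)ˣ) : Module.End ℚ E) := fun g => rfl
  refine ⟨ρ, ?_, FreeGroup.of false, FreeGroup.of true, ?_⟩
  · intro g
    have key : ∀ w : List L, ((φ (FreeGroup.mk w) : (Module.End ℚ E)ˣ) : Module.End ℚ E)
        = opw A w.reverse := by
      intro w
      show ((FreeGroup.lift (fun b => Au (b, true)) (FreeGroup.mk w) : (Module.End ℚ E)ˣ) :
        Module.End ℚ E) = _
      rw [FreeGroup.lift_mk]
      induction w with
      | nil => simp [opw]
      | cons l w ih =>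
        rw [List.map_cons, List.prod_cons, Units.val_mul, ih, List.reverse_cons, opw_append]
        congr 1
        rw [opw, opw, one_mul]
        obtain ⟨b, c⟩ := l
        cases c
        · show (((Au (b, true))⁻¹ : (Module.End ℚ E)ˣ) : Module.End ℚ E) = _
          rw [hAui]; rfl
        · rfl
    rw [hρ, ← FreeGroup.mk_toWord (x := g), key]
    exact hnil _ _ rfl
  · have h1 : ρ (FreeGroup.of false) = A (false, true) := by
      rw [hρ]
      show ((FreeGroup.lift (fun b => Au (b, true)) (FreeGroup.of false) : (Module.End ℚ E)ˣ) :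
        Module.End ℚ E) = _
      rw [FreeGroup.lift_apply_of]
    have h2 : ρ (FreeGroup.of true) = A (true, true) := by
      rw [hρ]
      show ((FreeGroup.lift (fun b => Au (b, true)) (FreeGroup.of true) : (Module.End ℚ E)ˣ) :
        Module.End ℚ E) = _
      rw [FreeGroup.lift_apply_of]
    rw [h1, h2, LinearMap.sub_apply, LinearMap.sub_apply, ht]
    simp only [Module.End.one_apply, add_sub_cancel_left, hs]
    simp

/-- from a nil representation with `(s-1)(t-1)` fixing a nonzero vector to an irreducible one -/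
theorem exists_irr {G : Type} [Group G] (ρ : Representation ℚ G E) (hnil : ∀ g, NilOp (ρ g))
    (e : E) (he : e ≠ 0) (s t : G) (hst : (ρ s - 1) ((ρ t - 1) e) = e) :
    ∃ (V : Type) (_ : AddCommGroup V) (_ : Module ℚ V) (σ : Representation ℚ G V),
      Nontrivial V ∧ (∀ W : Submodule ℚ V, (∀ g : G, ∀ v ∈ W, σ g v ∈ W) → W = ⊥ ∨ W = ⊤) ∧
      (∀ g : G, ∀ v : V, ∃ n : ℕ, ((σ g - 1) ^ n) v = 0) ∧ ∃ g, σ g ≠ 1 := by
  classical
  let R := MonoidAlgebra ℚ G
  let Φ : R →ₐ[ℚ] Module.End ℚ E := ρ.asAlgebraHom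
  have hΦ : ∀ g, Φ (MonoidAlgebra.of ℚ G g) = ρ g := fun g => by
    show ρ.asAlgebraHom _ = _
    rw [Representation.asAlgebraHom_of]
  let I : Ideal R :=
    { carrier := {r | Φ r e = 0}
      add_mem' := by
        intro a b ha hb
        show Φ (a + b) e = 0
        rw [map_add, LinearMap.add_apply, show Φ a e = 0 from ha, show Φ b e = 0 from hb, add_zero]
      zero_mem' := by
        show Φ 0 e = 0
        rw [map_zero]; rfl
      smul_mem' := by
        intro c r hr
        show Φ (c * r) e = 0
        rw [map_mul, Module.End.mul_apply, show Φ r e = 0 from hr, map_zero] }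
  have hI : ∀ r, r ∈ I ↔ Φ r e = 0 := fun r => Iff.rfl
  have hIne : I ≠ ⊤ := by
    intro h
    have : (1 : R) ∈ I := by rw [h]; trivial
    rw [hI, map_one] at this
    exact he this
  obtain ⟨M, hM, hIM⟩ := Ideal.exists_le_maximal I hIne
  have hsimple : IsSimpleModule R (R ⧸ M) := isSimpleModule_iff_isCoatom.2 (Ideal.isMaximal_def.1 hM)
  let σ : Representation ℚ G (R ⧸ M) := Representation.ofModule' (R ⧸ M)
  have hσ : ∀ g v, σ g v = (MonoidAlgebra.of ℚ G g) • v := fun g v => rfl
  have hσ1 : ∀ g (r : R), (σ g - 1) (Submodule.Quotient.mk r) =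
      Submodule.Quotient.mk ((MonoidAlgebra.of ℚ G g - 1) * r) := by
    intro g r
    rw [LinearMap.sub_apply, hσ, Module.End.one_apply, ← Submodule.Quotient.mk_smul,
      ← Submodule.Quotient.mk_sub, smul_eq_mul, sub_mul, one_mul]
  have hσn : ∀ g (n : ℕ) (r : R), ((σ g - 1)^n) (Submodule.Quotient.mk r) =
      Submodule.Quotient.mk ((MonoidAlgebra.of ℚ G g - 1)^n * r) := by
    intro g n
    induction n with
    | zero => intro r; simp
    | succ n ih =>
      intro r
      rw [pow_succ, Module.End.mul_apply, hσ1, ih, pow_succ, mul_assoc]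
  refine ⟨R ⧸ M, inferInstance, inferInstance, σ, ?_, ?_, ?_, ?_⟩
  · exact IsSimpleModule.nontrivial R (R ⧸ M)
  · intro W hW
    let W' : Submodule R (R ⧸ M) :=
      { carrier := W
        add_mem' := fun ha hb => W.add_mem ha hb
        zero_mem' := W.zero_mem
        smul_mem' := by
          intro c v hv
          induction c using MonoidAlgebra.induction_on with
          | of g => exact hW g v hv
          | add a b ha hb => rw [add_smul]; exact W.add_mem ha hb
          | smul a b hb => rw [smul_assoc]; exact W.smul_mem a hb }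
    rcases eq_bot_or_eq_top W' with h | h
    · left
      apply Submodule.ext; intro v
      have : v ∈ W' ↔ v ∈ (⊥ : Submodule R (R ⧸ M)) := by rw [h]
      exact this
    · right
      apply Submodule.ext; intro v
      have : v ∈ W' ↔ v ∈ (⊤ : Submodule R (R ⧸ M)) := by rw [h]
      exact this
  · intro g v
    induction v using Submodule.Quotient.induction_on with
    | H r =>
    obtain ⟨n, hn⟩ := hnil g (Φ r e)
    refine ⟨n, ?_⟩
    rw [hσn, Submodule.Quotient.mk_eq_zero]
    apply hIM
    rw [hI, map_mul, map_pow, map_sub, map_one, hΦ]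
    exact hn
  · by_contra hcon
    push Not at hcon
    have h1 : ∀ g, (MonoidAlgebra.of ℚ G g - 1 : R) ∈ M := by
      intro g
      have := hσ1 g 1
      rw [hcon g, sub_self, LinearMap.zero_apply, mul_one] at this
      exact (Submodule.Quotient.mk_eq_zero M).1 this.symm
    have h2 : (MonoidAlgebra.of ℚ G s - 1) * (MonoidAlgebra.of ℚ G t - 1) ∈ M :=
      M.mul_mem_left _ (h1 t)
    have h3 : (MonoidAlgebra.of ℚ G s - 1) * (MonoidAlgebra.of ℚ G t - 1) - 1 ∈ M := by
      apply hIM
      rw [hI, map_sub, map_mul, map_sub, map_sub, map_one, hΦ, hΦ, LinearMap.sub_apply,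
        Module.End.mul_apply, hst, Module.End.one_apply, sub_self]
    have h4 := M.sub_mem h2 h3
    rw [sub_sub_cancel] at h4
    exact hM.ne_top ((Ideal.eq_top_iff_one M).2 h4)

theorem e0_ne : e0 ≠ 0 := by
  intro h
  have := DFunLike.congr_fun h 0
  simp [e0] at this

theorem main : ∃ (V : Type) (_ : AddCommGroup V) (_ : Module ℚ V)
      (σ : Representation ℚ (FreeGroup Bool) V),
      Nontrivial V ∧ (∀ W : Submodule ℚ V, (∀ g, ∀ v ∈ W, σ g v ∈ W) → W = ⊥ ∨ W = ⊤) ∧
      (∀ g, ∀ v : V, ∃ n : ℕ, ((σ g - 1) ^ n) v = 0) ∧ ∃ g, σ g ≠ 1 := by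
  obtain ⟨ρ, h, s, t, hst⟩ := exists_rep
  exact exists_irr ρ h e0 e0_ne s t hst

end Pool.Agent.V1114.Nil
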